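/-
MP_d546a0_lc, negation S15426: common definitions (helper18).
-/
import Mathlib

set_option autoImplicit false

namespace D546neg

open MeasureTheory ProbabilityTheory
open scoped RealInnerProductSpace BigOperators

/-- Euclidean space `ℝ^m`. -/
abbrev E (m : ℕ) := EuclideanSpace ℝ (Fin m)

/-- standard Gaussian measure on `ℝ^m`. -/
noncomputable abbrev γ (m : ℕ) : Measure (E m) := stdGaussian (E m)

/-- the dual norm of a seminorm `N` on `ℝ^m`. -/
noncomputable def dualN {m : ℕ} (N : Seminorm ℝ (E m)) (y : E m) : ℝ :=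
  sSup ((fun x => ⟪x, y⟫) '' {x | N x ≤ 1})

/-- `N` is a norm, quantitatively. -/
def Definite {m : ℕ} (N : Seminorm ℝ (E m)) : Prop := ∃ c > 0, ∀ x, c * ‖x‖ ≤ N x

lemma seminorm_sum_le {m : ℕ} {ι : Type*} (N : Seminorm ℝ (E m)) (s : Finset ι) (f : ι → E m) :
    N (∑ i ∈ s, f i) ≤ ∑ i ∈ s, N (f i) := by
  classical
  induction s using Finset.induction_on with
  | empty => simp
  | insert a s ha ih =>
    rw [Finset.sum_insert ha, Finset.sum_insert ha]
    exact (map_add_le_add N _ _).trans (by linarith)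

lemma sum_single {m : ℕ} (x : E m) : ∑ i, x i • EuclideanSpace.single i (1:ℝ) = x := by
  ext j
  rw [WithLp.ofLp_sum, Finset.sum_apply]
  simp

/-- every seminorm on `ℝ^m` is bounded by a multiple of the Euclidean norm. -/
lemma seminorm_le_norm {m : ℕ} (N : Seminorm ℝ (E m)) : ∃ d > 0, ∀ x, N x ≤ d * ‖x‖ := by
  refine ⟨∑ i, N (EuclideanSpace.single i (1:ℝ)) + 1, ?_, fun x => ?_⟩
  · have : 0 ≤ ∑ i, N (EuclideanSpace.single i (1:ℝ)) :=
      Finset.sum_nonneg fun i _ => apply_nonneg N _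
    linarith
  · have hx : x = ∑ i, x i • EuclideanSpace.single i (1:ℝ) := (sum_single x).symm
    have h1 : N x ≤ ∑ i, ‖x i‖ * N (EuclideanSpace.single i (1:ℝ)) := by
      calc N x = N (∑ i, x i • EuclideanSpace.single i (1:ℝ)) := by rw [← hx]
        _ ≤ ∑ i, N (x i • EuclideanSpace.single i (1:ℝ)) :=
            seminorm_sum_le N _ _
        _ = _ := by simp [map_smul_eq_mul]
    have h2 : ∀ i, ‖x i‖ ≤ ‖x‖ := fun i => PiLp.norm_apply_le x i
    calc N x ≤ ∑ i, ‖x i‖ * N (EuclideanSpace.single i (1:ℝ)) := h1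
      _ ≤ ∑ i, ‖x‖ * N (EuclideanSpace.single i (1:ℝ)) :=
          Finset.sum_le_sum fun i _ => mul_le_mul_of_nonneg_right (h2 i) (apply_nonneg N _)
      _ = (∑ i, N (EuclideanSpace.single i (1:ℝ))) * ‖x‖ := by
          rw [← Finset.mul_sum, mul_comm]
      _ ≤ _ := by
          have := norm_nonneg x
          nlinarith

lemma seminorm_continuous {m : ℕ} (N : Seminorm ℝ (E m)) : Continuous N := by
  obtain ⟨d, hd, h⟩ := seminorm_le_norm N
  have hL : LipschitzWith ⟨d, hd.le⟩ N := by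
    refine LipschitzWith.of_dist_le_mul fun x y => ?_
    rw [Real.dist_eq, dist_eq_norm]
    refine abs_le'.2 ⟨?_, ?_⟩
    · have h1 := map_add_le_add N (x - y) y
      rw [sub_add_cancel] at h1
      have h2 := h (x - y)
      show N x - N y ≤ d * ‖x - y‖
      linarith
    · have h1 := map_add_le_add N (y - x) x
      rw [sub_add_cancel] at h1
      have h2 := h (y - x)
      rw [norm_sub_rev] at h2
      show -(N x - N y) ≤ d * ‖x - y‖
      linarith
  exact hL.continuous

section dual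
variable {m : ℕ} {N : Seminorm ℝ (E m)}

lemma dualN_set_nonempty (y : E m) : ((fun x => ⟪x, y⟫) '' {x | N x ≤ 1}).Nonempty :=
  ⟨_, 0, by simp, rfl⟩

lemma norm_le_of_le {c : ℝ} (hc : 0 < c) (h : ∀ x, c * ‖x‖ ≤ N x) {x : E m} (hx : N x ≤ 1) :
    ‖x‖ ≤ c⁻¹ := by
  rw [← one_div, le_div_iff₀ hc, mul_comm]
  exact (h x).trans hx

lemma dualN_bdd (h : Definite N) (y : E m) : BddAbove ((fun x => ⟪x, y⟫) '' {x | N x ≤ 1}) := by
  obtain ⟨c, hc, h⟩ := h
  refine ⟨c⁻¹ * ‖y‖, ?_⟩
  rintro _ ⟨x, hx, rfl⟩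
  have h1 : ‖x‖ ≤ c⁻¹ := norm_le_of_le hc h hx
  calc ⟪x, y⟫ ≤ ‖x‖ * ‖y‖ := real_inner_le_norm x y
    _ ≤ c⁻¹ * ‖y‖ := mul_le_mul_of_nonneg_right h1 (norm_nonneg _)

lemma le_dualN (h : Definite N) {x y : E m} (hx : N x ≤ 1) : ⟪x, y⟫ ≤ dualN N y :=
  le_csSup (dualN_bdd h y) ⟨x, hx, rfl⟩

lemma dualN_le {y : E m} {r : ℝ} (hr : ∀ x, N x ≤ 1 → ⟪x, y⟫ ≤ r) : dualN N y ≤ r := by
  refine csSup_le (dualN_set_nonempty y) ?_
  rintro _ ⟨x, hx, rfl⟩
  exact hr x hx

lemma dualN_nonneg (h : Definite N) (y : E m) : 0 ≤ dualN N y := by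
  have := le_dualN h (x := 0) (y := y) (by simp)
  simpa using this

lemma Definite.eq_zero (h : Definite N) {x : E m} (hx : N x = 0) : x = 0 := by
  obtain ⟨c, hc, h⟩ := h
  have := h x
  rw [hx] at this
  have h2 : ‖x‖ ≤ 0 := by
    by_contra hh
    push Not at hh
    nlinarith
  exact norm_le_zero_iff.mp h2

lemma inner_le_mul_dualN (h : Definite N) (x y : E m) : ⟪x, y⟫ ≤ N x * dualN N y := by
  rcases eq_or_lt_of_le (apply_nonneg N x) with h0 | h0
  · have : x = 0 := h.eq_zero h0.symm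
    subst this
    simp
  · have h1 : N ((N x)⁻¹ • x) ≤ 1 := by
      rw [map_smul_eq_mul, norm_inv, Real.norm_of_nonneg h0.le, inv_mul_cancel₀ h0.ne']
    have h2 := le_dualN h (y := y) h1
    rw [real_inner_smul_left] at h2
    calc ⟪x, y⟫ = N x * ((N x)⁻¹ * ⟪x, y⟫) := by field_simp
      _ ≤ N x * dualN N y := mul_le_mul_of_nonneg_left h2 h0.le

lemma abs_inner_le_mul_dualN (h : Definite N) (x y : E m) : |⟪x, y⟫| ≤ N x * dualN N y := by
  refine abs_le'.2 ⟨inner_le_mul_dualN h x y, ?_⟩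
  have := inner_le_mul_dualN h (-x) y
  simpa [inner_neg_left] using this

lemma dualN_add_le (h : Definite N) (y z : E m) : dualN N (y + z) ≤ dualN N y + dualN N z := by
  refine dualN_le fun x hx => ?_
  rw [inner_add_right]
  exact add_le_add (le_dualN h hx) (le_dualN h hx)

lemma dualN_neg (h : Definite N) (y : E m) : dualN N (-y) = dualN N y := by
  refine le_antisymm ?_ ?_
  · refine dualN_le fun x hx => ?_
    have := le_dualN h (x := -x) (y := y) (by simpa using hx)
    simpa using this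
  · refine dualN_le fun x hx => ?_
    have := le_dualN h (x := -x) (y := -y) (by simpa using hx)
    simpa using this

lemma dualN_smul (h : Definite N) (c : ℝ) (y : E m) : dualN N (c • y) = |c| * dualN N y := by
  have key : ∀ (c : ℝ), 0 ≤ c → dualN N (c • y) = c * dualN N y := by
    intro c hc
    refine le_antisymm ?_ ?_
    · refine dualN_le fun x hx => ?_
      rw [real_inner_smul_right]
      exact mul_le_mul_of_nonneg_left (le_dualN h hx) hc
    · rcases hc.eq_or_lt with rfl | hc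
      · simpa using dualN_nonneg h _
      · rw [← le_div_iff₀' hc]
        refine dualN_le fun x hx => ?_
        rw [le_div_iff₀' hc, ← real_inner_smul_right]
        exact le_dualN h hx
  rcases le_total 0 c with hc | hc
  · rw [key c hc, abs_of_nonneg hc]
  · have : c • y = -((-c) • y) := by simp
    rw [this, dualN_neg h, key (-c) (by linarith), abs_of_nonpos hc]

/-- the dual norm as a seminorm. -/
noncomputable def dualS (N : Seminorm ℝ (E m)) (h : Definite N) : Seminorm ℝ (E m) :=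
  Seminorm.of (dualN N) (dualN_add_le h) (by
    intro c y
    rw [dualN_smul h, Real.norm_eq_abs])

@[simp] lemma dualS_apply (h : Definite N) (y : E m) : dualS N h y = dualN N y := rfl

/-- the supremum is attained. -/
lemma exists_dualN (h : Definite N) (y : E m) : ∃ x, N x ≤ 1 ∧ ⟪x, y⟫ = dualN N y := by
  have hcomp : IsCompact {x : E m | N x ≤ 1} := by
    refine Metric.isCompact_of_isClosed_isBounded ?_ ?_
    · exact isClosed_le (seminorm_continuous N) continuous_const
    · obtain ⟨c, hc, h⟩ := h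
      refine (Metric.isBounded_closedBall (x := (0 : E m)) (r := c⁻¹)).subset ?_
      intro x hx
      simpa using norm_le_of_le hc h hx
  obtain ⟨x, hx, hmax⟩ := hcomp.exists_isMaxOn ⟨0, by simp⟩
    (f := fun x : E m => ⟪x, y⟫) (by fun_prop)
  refine ⟨x, hx, le_antisymm (le_dualN h hx) (dualN_le fun z hz => ?_)⟩
  exact hmax hz

lemma dualN_le_norm {c : ℝ} (hc : 0 < c) (h : ∀ x, c * ‖x‖ ≤ N x) (y : E m) :
    dualN N y ≤ c⁻¹ * ‖y‖ := by
  refine dualN_le fun x hx => ?_
  have h1 : ‖x‖ ≤ c⁻¹ := norm_le_of_le hc h hx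
  calc ⟪x, y⟫ ≤ ‖x‖ * ‖y‖ := real_inner_le_norm x y
    _ ≤ c⁻¹ * ‖y‖ := mul_le_mul_of_nonneg_right h1 (norm_nonneg _)

lemma norm_le_dualN (hN : Definite N) {d : ℝ} (h : ∀ x, N x ≤ d * ‖x‖) (y : E m) :
    ‖y‖ ≤ d * dualN N y := by
  rcases eq_or_ne y 0 with rfl | hy
  · simp [show dualN N (0 : E m) = 0 by
      have := dualN_smul hN 0 (0 : E m); simpa using this]
  · have hy' : 0 < ‖y‖ := norm_pos_iff.mpr hy
    have h1 := inner_le_mul_dualN hN y y
    rw [real_inner_self_eq_norm_sq] at h1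
    have h2 := h y
    have h3 := dualN_nonneg hN y
    have h4 : ‖y‖ * ‖y‖ ≤ ‖y‖ * (d * dualN N y) := by nlinarith
    exact le_of_mul_le_mul_left h4 hy'

end dual

/-- the seminorm `x ↦ max_i |⟨a_i, x⟩|`. -/
noncomputable def NK {m : ℕ} {ι : Type*} [Fintype ι] (a : ι → E m) : Seminorm ℝ (E m) :=
  Finset.univ.sup fun i => (innerₛₗ ℝ (a i)).toSeminorm

lemma NK_le_iff {m : ℕ} {ι : Type*} [Fintype ι] {a : ι → E m} {x : E m} {r : ℝ} (hr : 0 ≤ r) :
    NK a x ≤ r ↔ ∀ i, |⟪a i, x⟫| ≤ r := by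
  unfold NK
  constructor
  · intro h i
    have := (Seminorm.le_finset_sup_apply (p := fun i => (innerₛₗ ℝ (a i)).toSeminorm)
      (x := x) (Finset.mem_univ i)).trans h
    simpa [Real.norm_eq_abs] using this
  · intro h
    refine Seminorm.finset_sup_apply_le hr fun i _ => ?_
    simpa [Real.norm_eq_abs] using h i

lemma le_NK {m : ℕ} {ι : Type*} [Fintype ι] (a : ι → E m) (x : E m) (i : ι) :
    |⟪a i, x⟫| ≤ NK a x :=
  (NK_le_iff (apply_nonneg _ _)).1 le_rfl i

end D546neg
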