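/-
MP_d546a0_lc, negation S15426: basic facts on the standard Gaussian measure of `ℝ^m` (helper18).
-/
import Pool.Agent.H.MP_d546a0_lc.neg.Defs

set_option autoImplicit false

namespace D546neg

open MeasureTheory ProbabilityTheory Real
open scoped RealInnerProductSpace BigOperators ENNReal

variable {m : ℕ}

/-- density of the standard Gaussian measure. -/
noncomputable def dens (m : ℕ) (x : E m) : ℝ := ((π / (1/2)) ^ ((m:ℝ) / 2))⁻¹ * exp (-(1/2) * ‖x‖ ^ 2)

lemma dens_nonneg (x : E m) : 0 ≤ dens m x := by unfold dens; positivity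

lemma dens_continuous : Continuous (dens m) := by unfold dens; fun_prop

lemma integrable_dens : Integrable (dens m) := by
  unfold dens
  refine Integrable.const_mul ?_ _
  have h := GaussianFourier.integrable_cexp_neg_mul_sq_norm_add (V := E m)
    (b := ((1/2 : ℝ) : ℂ)) (by norm_num) 0 0
  have h2 := h.re
  refine h2.congr (Filter.Eventually.of_forall fun x => ?_)
  simp only [zero_mul, add_zero]
  have : (-((1/2 : ℝ) : ℂ) * (‖x‖ : ℂ) ^ 2) = ((-(1/2) * ‖x‖ ^ 2 : ℝ) : ℂ) := by push_cast; ring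
  rw [this, ← Complex.ofReal_exp]
  exact Complex.ofReal_re _

lemma integral_dens : ∫ x, dens m x = 1 := by
  unfold dens
  rw [integral_const_mul]
  have := GaussianFourier.integral_rexp_neg_mul_sq_norm (V := E m) (b := 1/2) (by norm_num)
  rw [this, finrank_euclideanSpace_fin]
  exact inv_mul_cancel₀ (by positivity)

/-- the standard Gaussian measure has the usual density. -/
lemma gamma_eq : γ m = volume.withDensity (fun x => ENNReal.ofReal (dens m x)) := by
  have : IsFiniteMeasure ((volume : Measure (E m)).withDensity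
      (fun x => ENNReal.ofReal (dens m x))) :=
    isFiniteMeasure_withDensity_ofReal integrable_dens.hasFiniteIntegral
  apply Measure.ext_of_charFun
  ext t
  rw [charFun_stdGaussian, charFun_apply,
    integral_withDensity_eq_integral_toReal_smul]
  · have h1 : ∀ x : E m, (ENNReal.ofReal (dens m x)).toReal • Complex.exp ((⟪x, t⟫ : ℝ) * Complex.I)
        = (((π / (1/2)) ^ ((m:ℝ) / 2))⁻¹ : ℝ) *
          Complex.exp (-((1/2 : ℝ) : ℂ) * (‖x‖ : ℂ) ^ 2 + Complex.I * (⟪t, x⟫ : ℝ)) := by
      intro x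
      rw [ENNReal.toReal_ofReal (dens_nonneg x), Complex.real_smul, dens, Complex.ofReal_mul,
        mul_assoc, Complex.ofReal_exp, ← Complex.exp_add]
      congr 3
      · push_cast; ring
      · rw [real_inner_comm]; ring
    simp_rw [h1]
    rw [integral_const_mul, GaussianFourier.integral_cexp_neg_mul_sq_norm_add
      (by norm_num) Complex.I t, ← mul_assoc, finrank_euclideanSpace_fin]
    have h2 : (((((π / (1/2)) ^ ((m:ℝ) / 2))⁻¹ : ℝ) : ℂ) * ((π:ℂ) / ((1/2 : ℝ) : ℂ)) ^ ((m:ℂ) / 2)) = 1 := by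
      have h3 : ((π:ℂ) / ((1/2 : ℝ) : ℂ)) ^ ((m:ℂ) / 2) = (((π / (1/2)) ^ ((m:ℝ) / 2) : ℝ) : ℂ) := by
        rw [Complex.ofReal_cpow (by positivity)]
        push_cast
        rfl
      rw [h3, ← Complex.ofReal_mul, inv_mul_cancel₀ (by positivity), Complex.ofReal_one]
    rw [h2, one_mul, Complex.I_sq]
    congr 1
    push_cast
    ring
  · exact (ENNReal.measurable_ofReal.comp dens_continuous.measurable)
  · exact Filter.Eventually.of_forall fun x => ENNReal.ofReal_lt_top

/-- Cameron–Martin shift formula. -/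
lemma lintegral_shift (f : E m → ℝ≥0∞) (hf : Measurable f) (z : E m) :
    ∫⁻ g, f (g + z) ∂(γ m) = ∫⁻ g, f g * ENNReal.ofReal (exp (⟪z, g⟫ - ‖z‖ ^ 2 / 2)) ∂(γ m) := by
  have hd : Measurable fun x : E m => ENNReal.ofReal (dens m x) :=
    ENNReal.measurable_ofReal.comp dens_continuous.measurable
  have he : Measurable fun g : E m => ENNReal.ofReal (exp (⟪z, g⟫ - ‖z‖ ^ 2 / 2)) := by
    fun_prop
  rw [gamma_eq, lintegral_withDensity_eq_lintegral_mul _ hd (by fun_prop),
    lintegral_withDensity_eq_lintegral_mul _ hd (by fun_prop)]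
  simp only [Pi.mul_apply]
  rw [← lintegral_add_right_eq_self (μ := volume)
    (fun x : E m => ENNReal.ofReal (dens m x) * (f x * ENNReal.ofReal (exp (⟪z, x⟫ - ‖z‖ ^ 2 / 2)))) z]
  refine lintegral_congr fun x => ?_
  have : dens m x = dens m (x + z) * exp (⟪z, x + z⟫ - ‖z‖ ^ 2 / 2) := by
    unfold dens
    rw [mul_assoc, ← Real.exp_add]
    congr 2
    rw [norm_add_sq_real, inner_add_right, real_inner_self_eq_norm_sq, real_inner_comm]
    ring
  rw [this, ENNReal.ofReal_mul (dens_nonneg _)]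
  ring

lemma lintegral_exp_inner_shift (z : E m) :
    ∫⁻ g, ENNReal.ofReal (exp (⟪z, g⟫ - ‖z‖ ^ 2 / 2)) ∂(γ m) = 1 := by
  have := lintegral_shift (m := m) (fun _ => 1) measurable_const z
  simp only [one_mul] at this
  rw [← this]
  simp

lemma integrable_exp_inner_shift (z : E m) :
    Integrable (fun g => exp (⟪z, g⟫ - ‖z‖ ^ 2 / 2)) (γ m) := by
  refine ⟨by fun_prop, ?_⟩
  rw [hasFiniteIntegral_iff_ofReal (Filter.Eventually.of_forall fun g => (exp_pos _).le),
    lintegral_exp_inner_shift]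
  exact ENNReal.one_lt_top

lemma integral_exp_inner_shift (z : E m) :
    ∫ g, exp (⟪z, g⟫ - ‖z‖ ^ 2 / 2) ∂(γ m) = 1 := by
  rw [integral_eq_lintegral_of_nonneg_ae (Filter.Eventually.of_forall fun g => (exp_pos _).le)
    (by fun_prop), lintegral_exp_inner_shift]
  rfl

lemma integrable_exp_inner (z : E m) : Integrable (fun g => exp ⟪z, g⟫) (γ m) := by
  have := (integrable_exp_inner_shift z).const_mul (exp (‖z‖ ^ 2 / 2))
  refine this.congr (Filter.Eventually.of_forall fun g => ?_)
  simp only [← Real.exp_add]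
  congr 1
  ring

lemma integral_exp_inner (z : E m) : ∫ g, exp ⟪z, g⟫ ∂(γ m) = exp (‖z‖ ^ 2 / 2) := by
  have h := integral_exp_inner_shift z
  have h1 : ∀ g : E m, exp (⟪z, g⟫ - ‖z‖ ^ 2 / 2) = exp (-(‖z‖ ^ 2 / 2)) * exp ⟪z, g⟫ := by
    intro g; rw [← Real.exp_add]; congr 1; ring
  simp_rw [h1] at h
  rw [integral_const_mul, Real.exp_neg] at h
  field_simp at h
  exact h

/-- shift formula for sets. -/
lemma measure_shift (B : Set (E m)) (hB : MeasurableSet B) (z : E m) :
    (γ m).real ((fun g => g + z) '' B) = ∫ g in B, exp (-⟪z, g⟫ - ‖z‖ ^ 2 / 2) ∂(γ m) := by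
  have himg : (fun g => g + z) '' B = {g | g + (-z) ∈ B} := by
    ext g
    constructor
    · rintro ⟨x, hx, rfl⟩
      simpa using hx
    · intro hg
      exact ⟨g + -z, hg, by simp⟩
  have hmeas : MeasurableSet {g | g + (-z) ∈ B} :=
    (measurable_add_const (-z)) hB
  have h1 := lintegral_shift (m := m) (B.indicator 1) (measurable_one.indicator hB) (-z)
  have h2 : ∫⁻ g, B.indicator 1 (g + -z) ∂(γ m) = γ m {g | g + (-z) ∈ B} := by
    rw [← lintegral_indicator_one hmeas]
    refine lintegral_congr fun g => ?_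
    rfl
  have h3 : ∫⁻ g, B.indicator 1 g * ENNReal.ofReal (exp (⟪-z, g⟫ - ‖-z‖ ^ 2 / 2)) ∂(γ m)
      = ∫⁻ g in B, ENNReal.ofReal (exp (-⟪z, g⟫ - ‖z‖ ^ 2 / 2)) ∂(γ m) := by
    rw [← lintegral_indicator hB]
    refine lintegral_congr fun g => ?_
    by_cases hg : g ∈ B <;> simp [hg, inner_neg_left]
  rw [h2, h3] at h1
  rw [himg, Measure.real, h1, integral_eq_lintegral_of_nonneg_ae
    (Filter.Eventually.of_forall fun g => (exp_pos _).le) (by fun_prop)]

lemma integrable_exp_neg_inner_shift (z : E m) :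
    Integrable (fun g => exp (-⟪z, g⟫ - ‖z‖ ^ 2 / 2)) (γ m) := by
  have := integrable_exp_inner_shift (-z)
  simpa [inner_neg_left] using this

lemma integrable_inner (z : E m) : Integrable (fun g => ⟪z, g⟫) (γ m) := by
  have h : Integrable (fun g : E m => g) (γ m) := IsGaussian.integrable_fun_id
  exact h.const_inner z

lemma integral_inner (z : E m) : ∫ g, ⟪z, g⟫ ∂(γ m) = 0 := by
  have h : Integrable (fun g : E m => g) (γ m) := IsGaussian.integrable_fun_id
  rw [_root_.integral_inner h, integral_id_stdGaussian]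
  simp

lemma integrable_exp_abs_inner (c : ℝ) (t : E m) :
    Integrable (fun g => exp (c * |⟪t, g⟫|)) (γ m) := by
  have h1 := integrable_exp_inner (c • t)
  have h2 := integrable_exp_inner (-(c • t))
  refine (h1.add h2).mono' (by fun_prop) (Filter.Eventually.of_forall fun g => ?_)
  rw [Real.norm_of_nonneg (exp_pos _).le]
  simp only [Pi.add_apply, inner_neg_left, real_inner_smul_left]
  rcases abs_cases ⟪t, g⟫ with ⟨h, _⟩ | ⟨h, _⟩ <;> rw [h]
  · have := exp_pos (-(c * ⟪t, g⟫))
    linarith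
  · have := exp_pos (c * ⟪t, g⟫)
    rw [mul_neg]
    linarith

lemma integral_exp_abs_inner_le (c : ℝ) (t : E m) :
    ∫ g, exp (c * |⟪t, g⟫|) ∂(γ m) ≤ 2 * exp (c ^ 2 * ‖t‖ ^ 2 / 2) := by
  have h1 := integrable_exp_inner (c • t)
  have h2 := integrable_exp_inner (-(c • t))
  have h3 : ∫ g, exp (c * |⟪t, g⟫|) ∂(γ m) ≤ ∫ g, (exp ⟪c • t, g⟫ + exp ⟪-(c • t), g⟫) ∂(γ m) := by
    refine integral_mono (integrable_exp_abs_inner c t) (h1.add h2) fun g => ?_
    simp only [inner_neg_left, real_inner_smul_left]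
    rcases abs_cases ⟪t, g⟫ with ⟨h, _⟩ | ⟨h, _⟩ <;> rw [h]
    · have := exp_pos (-(c * ⟪t, g⟫))
      linarith
    · have := exp_pos (c * ⟪t, g⟫)
      rw [mul_neg]
      linarith
  rw [integral_add h1 h2, integral_exp_inner, integral_exp_inner, norm_neg, norm_smul, mul_pow,
    Real.norm_eq_abs, sq_abs] at h3
  linarith

lemma integrable_seminorm (N : Seminorm ℝ (E m)) : Integrable (fun g => N g) (γ m) := by
  obtain ⟨d, hd, h⟩ := seminorm_le_norm N
  have h0 : Integrable (fun g : E m => g) (γ m) := IsGaussian.integrable_fun_id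
  refine (h0.norm.const_mul d).mono' (seminorm_continuous N).aestronglyMeasurable
    (Filter.Eventually.of_forall fun g => ?_)
  rw [Real.norm_of_nonneg (apply_nonneg N g)]
  exact h g

lemma integrable_seminorm_comp (N : Seminorm ℝ (E m)) (u : E m →L[ℝ] E m) :
    Integrable (fun g => N (u g)) (γ m) :=
  integrable_seminorm (N.comp u.toLinearMap)

/-- reflection invariance. -/
lemma map_neg_gamma : (γ m).map (fun g => -g) = γ m := by
  have := stdGaussian_map (E := E m) (LinearIsometryEquiv.neg ℝ)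
  exact this

/-- Ornstein–Uhlenbeck invariance. -/
lemma map_ou (c θ : ℝ) (h : c ^ 2 + θ ^ 2 = 1) :
    ((γ m).prod (γ m)).map (fun p : E m × E m => c • p.1 + θ • p.2) = γ m := by
  have h1 : Measurable (fun p : E m × E m => c • p.1 + θ • p.2) := by fun_prop
  have : IsProbabilityMeasure (((γ m).prod (γ m)).map
      (fun p : E m × E m => c • p.1 + θ • p.2)) :=
    Measure.isProbabilityMeasure_map h1.aemeasurable
  apply Measure.ext_of_charFun
  ext t
  rw [charFun_stdGaussian, charFun_apply, integral_map h1.aemeasurable (by fun_prop)]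
  have h2 : ∀ p : E m × E m, Complex.exp ((⟪c • p.1 + θ • p.2, t⟫ : ℝ) * Complex.I)
      = Complex.exp ((⟪p.1, c • t⟫ : ℝ) * Complex.I) *
        Complex.exp ((⟪p.2, θ • t⟫ : ℝ) * Complex.I) := by
    intro p
    rw [← Complex.exp_add, ← add_mul, inner_add_left, real_inner_smul_left, real_inner_smul_left,
      real_inner_smul_right, real_inner_smul_right]
    push_cast
    rfl
  simp_rw [h2]
  rw [integral_prod_mul (fun x : E m => Complex.exp ((⟪x, c • t⟫ : ℝ) * Complex.I))
    (fun y : E m => Complex.exp ((⟪y, θ • t⟫ : ℝ) * Complex.I))]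
  rw [← charFun_apply, ← charFun_apply, charFun_stdGaussian, charFun_stdGaussian,
    ← Complex.exp_add]
  congr 1
  rw [norm_smul, norm_smul, Real.norm_eq_abs, Real.norm_eq_abs]
  push_cast
  have h3 : ((|c| : ℝ) : ℂ) ^ 2 + ((|θ| : ℝ) : ℂ) ^ 2 = 1 := by
    rw [← Complex.ofReal_pow, ← Complex.ofReal_pow, sq_abs, sq_abs, ← Complex.ofReal_add, h]
    simp
  linear_combination (-(‖t‖:ℂ) ^ 2 / 2) * h3

end D546neg
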