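/-
MP_d546a0_lc, negation S15426: dual Sudakov inequality (helper18).
-/
import Pool.Agent.H.MP_d546a0_lc.neg.GaussBasics

set_option autoImplicit false

namespace D546neg

open MeasureTheory ProbabilityTheory Real
open scoped RealInnerProductSpace BigOperators ENNReal

variable {m : ℕ}

/-- symmetric sets: shifting costs at most `exp (-‖z‖^2/2)`. -/
lemma measure_shift_ge (B : Set (E m)) (hB : MeasurableSet B) (hsym : ∀ x, x ∈ B ↔ -x ∈ B)
    (z : E m) :
    exp (-‖z‖ ^ 2 / 2) * (γ m).real B ≤ (γ m).real ((fun g => g + z) '' B) := by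
  rw [measure_shift B hB z]
  have h0 : ∫ g in B, ⟪z, g⟫ ∂(γ m) = 0 := by
    have h1 : ∫ g in B, ⟪z, g⟫ ∂(γ m) = ∫ g in B, -⟪z, g⟫ ∂(γ m) := by
      conv_lhs => rw [← map_neg_gamma (m := m)]
      rw [setIntegral_map hB (by fun_prop) (by fun_prop)]
      have : (fun g : E m => -g) ⁻¹' B = B := by
        ext x
        exact (hsym x).symm
      rw [this]
      simp [inner_neg_right]
    rw [integral_neg] at h1
    linarith
  have h2 : ∫ g in B, exp (-‖z‖ ^ 2 / 2) * (1 - ⟪z, g⟫) ∂(γ m) ≤
      ∫ g in B, exp (-⟪z, g⟫ - ‖z‖ ^ 2 / 2) ∂(γ m) := by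
    refine integral_mono ?_ (integrable_exp_neg_inner_shift z).integrableOn fun g => ?_
    · exact (((integrable_const 1).sub (integrable_inner z)).const_mul _).integrableOn
    · have : exp (-⟪z, g⟫ - ‖z‖ ^ 2 / 2) = exp (-‖z‖ ^ 2 / 2) * exp (-⟪z, g⟫) := by
        rw [← Real.exp_add]; congr 1; ring
      simp only
      rw [this]
      refine mul_le_mul_of_nonneg_left ?_ (exp_pos _).le
      have := Real.add_one_le_exp (-⟪z, g⟫)
      linarith
  refine le_trans (le_of_eq ?_) h2
  rw [integral_const_mul, integral_sub (integrable_const _).integrableOn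
    (integrable_inner z).integrableOn, h0]
  simp [Measure.real]

/-- dual Sudakov inequality (Pajor–Tomczak-Jaegermann). -/
theorem dual_sudakov (N : Seminorm ℝ (E m)) (b : ℝ) (hb : 0 < b)
    (hN : ∫ g, N g ∂(γ m) ≤ b) {ι : Type*} (s : Finset ι) (y : ι → E m) (x0 : E m) (r τ : ℝ)
    (hτ : 0 < τ) (hr : ∀ j ∈ s, ‖y j - x0‖ ≤ r)
    (hsep : ∀ i ∈ s, ∀ j ∈ s, i ≠ j → τ ≤ N (y i - y j)) :
    (s.card : ℝ) ≤ 2 * exp (8 * (b * r / τ) ^ 2) := by
  set B : Set (E m) := {g | N g < 2 * b} with hBdef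
  have hBm : MeasurableSet B := (isOpen_lt (seminorm_continuous N) continuous_const).measurableSet
  have hsym : ∀ x, x ∈ B ↔ -x ∈ B := by
    intro x
    simp [hBdef]
  -- `γ(B) ≥ 1/2`
  have hBhalf : 1 / 2 ≤ (γ m).real B := by
    have h1 : (2 * b) * (γ m).real {g | 2 * b ≤ N g} ≤ ∫ g, N g ∂(γ m) :=
      mul_meas_ge_le_integral_of_nonneg (Filter.Eventually.of_forall fun g => apply_nonneg N g)
        (integrable_seminorm N) _
    have h2 : B = {g | 2 * b ≤ N g}ᶜ := by
      ext g; simp [hBdef]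
    have hm : MeasurableSet {g | 2 * b ≤ N g} :=
      (isClosed_le continuous_const (seminorm_continuous N)).measurableSet
    rw [h2, probReal_compl_eq_one_sub hm]
    have h3 : (γ m).real {g | 2 * b ≤ N g} ≤ 1 / 2 := by
      rw [← mul_le_mul_iff_of_pos_left (show (0:ℝ) < 2 * b by linarith)]
      linarith
    linarith
  set c : ℝ := 4 * b / τ with hc
  have hcpos : 0 < c := by positivity
  -- the shifted sets
  set Bj : ι → Set (E m) := fun j => (fun g => g + c • (y j - x0)) '' B with hBj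
  have hBjm : ∀ j, MeasurableSet (Bj j) := by
    intro j
    have : Bj j = {g | g + -(c • (y j - x0)) ∈ B} := by
      ext g
      constructor
      · rintro ⟨x, hx, rfl⟩
        simpa using hx
      · intro hg
        exact ⟨g + -(c • (y j - x0)), hg, by simp⟩
    rw [this]
    exact (measurable_add_const _) hBm
  have hdisj : Set.PairwiseDisjoint (↑s : Set ι) Bj := by
    intro i hi j hj hij
    rw [Function.onFun, Set.disjoint_left]
    rintro _ ⟨g, hg, rfl⟩ ⟨g', hg', hgg⟩
    have h1 : c • (y i - y j) = g' - g := by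
      have : g' + c • (y j - x0) = g + c • (y i - x0) := hgg
      have h3 : g' - g = c • (y i - x0) - c • (y j - x0) := by
        rw [sub_eq_sub_iff_add_eq_add, this]
        abel
      rw [h3, ← smul_sub]
      congr 1
      abel
    have h2 : N (g' - g) < 4 * b := by
      have h4 : N (g' - g) ≤ N g' + N g := map_sub_le_add N g' g
      have h5 : N g < 2 * b := hg
      have h6 : N g' < 2 * b := hg'
      linarith
    rw [← h1, map_smul_eq_mul, Real.norm_of_nonneg hcpos.le] at h2
    have h7 := hsep i hi j hj hij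
    have h8 : c * τ = 4 * b := by rw [hc]; field_simp
    nlinarith
  have hge : ∀ j ∈ s, exp (-(8 * (b * r / τ) ^ 2)) * (1 / 2) ≤ (γ m).real (Bj j) := by
    intro j hj
    refine le_trans ?_ (measure_shift_ge B hBm hsym (c • (y j - x0)))
    have h1 : ‖c • (y j - x0)‖ ^ 2 / 2 ≤ 8 * (b * r / τ) ^ 2 := by
      rw [norm_smul, Real.norm_of_nonneg hcpos.le]
      have h2 := hr j hj
      have h3 : (c * ‖y j - x0‖) ^ 2 ≤ (c * r) ^ 2 := by
        have := norm_nonneg (y j - x0)
        gcongr
      have h4 : (c * r) ^ 2 / 2 = 8 * (b * r / τ) ^ 2 := by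
        rw [hc]; ring
      linarith
    refine mul_le_mul ?_ hBhalf (by norm_num) (exp_pos _).le
    refine Real.exp_le_exp.2 ?_
    linarith
  have hsum : ∑ j ∈ s, (γ m).real (Bj j) ≤ 1 := by
    rw [← measureReal_biUnion_finset hdisj (fun j _ => hBjm j)]
    exact measureReal_le_one
  have hfin : (s.card : ℝ) * (exp (-(8 * (b * r / τ) ^ 2)) * (1 / 2)) ≤ 1 := by
    refine le_trans ?_ hsum
    rw [← nsmul_eq_mul]
    exact Finset.card_nsmul_le_sum _ _ _ hge
  rw [Real.exp_neg] at hfin
  have hpos := exp_pos (8 * (b * r / τ) ^ 2)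
  generalize exp (8 * (b * r / τ) ^ 2) = e at hfin hpos
  have h9 : (s.card : ℝ) = (s.card : ℝ) * (e⁻¹ * (1 / 2)) * (2 * e) := by field_simp
  have h10 := mul_le_mul_of_nonneg_right hfin (show (0:ℝ) ≤ 2 * e by linarith)
  linarith

end D546neg
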