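/-
MP_d546a0_lc, negation S15426: Hahn–Banach lemmas and rounding (helper18).
-/
import Pool.Agent.H.MP_d546a0_lc.neg.Defs

set_option autoImplicit false

namespace D546neg

open MeasureTheory ProbabilityTheory Real
open scoped RealInnerProductSpace BigOperators ENNReal

variable {m : ℕ}

/-- multiples of the Euclidean norm. -/
noncomputable def nrm (m : ℕ) (c : ℝ) : Seminorm ℝ (E m) :=
  Seminorm.of (fun x => |c| * ‖x‖) (fun x y => by
    rw [← mul_add]
    exact mul_le_mul_of_nonneg_left (norm_add_le _ _) (abs_nonneg _)) (fun a x => by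
    rw [norm_smul]; ring)

lemma nrm_apply (m : ℕ) (c : ℝ) (x : E m) : nrm m c x = |c| * ‖x‖ := rfl

/-- representation of linear functionals. -/
lemma exists_repr (f : E m →ₗ[ℝ] ℝ) : ∃ ρ : E m, ∀ x, f x = ⟪ρ, x⟫ := by
  refine ⟨(InnerProductSpace.toDual ℝ (E m)).symm (LinearMap.toContinuousLinearMap f), fun x => ?_⟩
  rw [InnerProductSpace.toDual_symm_apply]
  rfl

/-- subgradients of seminorms. -/
lemma hb_seminorm (Ψ : Seminorm ℝ (E m)) (x : E m) :
    ∃ ρ : E m, (∀ y, ⟪ρ, y⟫ ≤ Ψ y) ∧ ⟪ρ, x⟫ = Ψ x := by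
  rcases eq_or_ne x 0 with rfl | hx
  · exact ⟨0, fun y => by simp, by simp⟩
  · obtain ⟨g, hg1, hg2⟩ := exists_extension_of_le_sublinear
      (LinearPMap.mkSpanSingleton x (Ψ x) hx) Ψ
      (fun c hc y => by rw [map_smul_eq_mul, Real.norm_of_nonneg hc.le])
      (fun y z => map_add_le_add Ψ y z) (by
        rintro ⟨y, hy⟩
        obtain ⟨c, rfl⟩ := Submodule.mem_span_singleton.1 hy
        rw [LinearPMap.mkSpanSingleton'_apply]
        simp only [smul_eq_mul, map_smul_eq_mul, RingHom.id_apply]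
        exact mul_le_mul_of_nonneg_right (le_abs_self c) (apply_nonneg _ _))
    obtain ⟨ρ, hρ⟩ := exists_repr g
    refine ⟨ρ, fun y => (hρ y) ▸ hg2 y, ?_⟩
    rw [← hρ]
    have := hg1 ⟨x, Submodule.mem_span_singleton_self x⟩
    rw [this]
    exact LinearPMap.mkSpanSingleton'_apply_self _ _ _ _

/-- a functional dominated by a sum of two seminorms splits. -/
lemma hb_split (P Q : Seminorm ℝ (E m)) (z : E m) (h : ∀ x, ⟪x, z⟫ ≤ P x + Q x) :
    ∃ q y : E m, z = q + y ∧ (∀ x, ⟪x, q⟫ ≤ P x) ∧ ∀ x, ⟪x, y⟫ ≤ Q x := by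
  set S : Submodule ℝ (E m × E m) := LinearMap.range (LinearMap.prod LinearMap.id LinearMap.id)
  obtain ⟨g, hg1, hg2⟩ := exists_extension_of_le_sublinear
    (E := E m × E m) ⟨S, ((innerₛₗ ℝ z).comp (LinearMap.fst ℝ (E m) (E m))).comp S.subtype⟩
    (fun p => P p.1 + Q p.2)
    (fun c hc y => by
      simp only [Prod.smul_fst, Prod.smul_snd, map_smul_eq_mul, Real.norm_of_nonneg hc.le]
      ring)
    (fun y z => by
      simp only [Prod.fst_add, Prod.snd_add]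
      have := map_add_le_add P y.1 z.1
      have := map_add_le_add Q y.2 z.2
      linarith) (by
      rintro ⟨y, hy⟩
      obtain ⟨x, rfl⟩ := hy
      show ⟪z, x⟫ ≤ P x + Q x
      rw [real_inner_comm]
      exact h x)
  obtain ⟨q, hq⟩ := exists_repr (g.comp (LinearMap.inl ℝ (E m) (E m)))
  obtain ⟨y, hy⟩ := exists_repr (g.comp (LinearMap.inr ℝ (E m) (E m)))
  refine ⟨q, y, ?_, ?_, ?_⟩
  · refine ext_inner_right ℝ fun x => ?_
    rw [inner_add_left, ← hq, ← hy]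
    have h1 := hg1 ⟨(x, x), ⟨x, rfl⟩⟩
    have h2 : ⟪z, x⟫ = g (x, x) := h1.symm
    rw [h2]
    simp only [LinearMap.comp_apply, LinearMap.inl_apply, LinearMap.inr_apply]
    rw [← map_add]
    simp
  · intro x
    rw [real_inner_comm, ← hq]
    have := hg2 (x, 0)
    simpa using this
  · intro x
    rw [real_inner_comm, ← hy]
    have := hg2 (0, x)
    simpa using this

/-- rounding lemma: a point of an average of convex hulls is close to an average of vertices. -/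
lemma rounding {U : Type*} [Fintype U] [Nonempty U] {J : Type*} [Finite J] [Nonempty J]
    (Z : U → J → E m) (D0 : ℝ) (hD : ∀ u i j, ‖Z u i - Z u j‖ ≤ D0) (ρ : E m)
    (h : ∀ y, ∃ sel : U → J,
      ⟪ρ, y⟫ ≤ (Fintype.card U : ℝ)⁻¹ * ∑ u, ⟪Z u (sel u), y⟫) :
    ∃ sel : U → J, ‖(Fintype.card U : ℝ)⁻¹ • ∑ u, Z u (sel u) - ρ‖
      ≤ D0 / √(2 * (Fintype.card U : ℝ)) := by
  classical
  set n : ℝ := (Fintype.card U : ℝ) with hn
  have hnpos : 0 < n := by
    rw [hn]; exact_mod_cast Fintype.card_pos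
  set f : (U → J) → ℝ := fun sel => ‖n⁻¹ • ∑ u, Z u (sel u) - ρ‖ with hf
  obtain ⟨sel, hsel⟩ := Finite.exists_min f
  refine ⟨sel, ?_⟩
  set w : E m := n⁻¹ • ∑ u, Z u (sel u) - ρ with hw
  have hD0 : 0 ≤ D0 := by
    obtain ⟨u⟩ := ‹Nonempty U›
    obtain ⟨j⟩ := ‹Nonempty J›
    exact (norm_nonneg _).trans (hD u j j)
  -- swapping one coordinate
  have hswap : ∀ u j, ⟪Z u j - Z u (sel u), -w⟫ ≤ D0 ^ 2 / (2 * n) := by
    intro u j
    have h1 := hsel (Function.update sel u j)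
    have h2 : n⁻¹ • ∑ v, Z v (Function.update sel u j v) - ρ
        = w + n⁻¹ • (Z u j - Z u (sel u)) := by
      have h3 : ∑ v, Z v (Function.update sel u j v)
          = ∑ v, Z v (sel v) + (Z u j - Z u (sel u)) := by
        rw [← Finset.add_sum_erase _ _ (Finset.mem_univ u),
          ← Finset.add_sum_erase (a := u) Finset.univ (fun v => Z v (sel v)) (Finset.mem_univ u)]
        have h4 : ∑ v ∈ Finset.univ.erase u, Z v (Function.update sel u j v)
            = ∑ v ∈ Finset.univ.erase u, Z v (sel v) := by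
          refine Finset.sum_congr rfl fun v hv => ?_
          rw [Function.update_of_ne (Finset.ne_of_mem_erase hv)]
        rw [h4, Function.update_self]
        abel
      rw [h3, smul_add, hw]
      abel
    simp only [hf] at h1
    rw [h2, ← hw] at h1
    have h5 : ‖w‖ ^ 2 ≤ ‖w + n⁻¹ • (Z u j - Z u (sel u))‖ ^ 2 := by
      gcongr
    rw [norm_add_sq_real, norm_smul, real_inner_smul_right, norm_inv,
      Real.norm_of_nonneg hnpos.le] at h5
    have h6 : ‖Z u j - Z u (sel u)‖ ^ 2 ≤ D0 ^ 2 := by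
      have := hD u j (sel u)
      gcongr
    rw [inner_neg_right, real_inner_comm]
    rw [le_div_iff₀ (by positivity)]
    have h7 : 0 ≤ 2 * (n⁻¹ * ⟪w, Z u j - Z u (sel u)⟫)
        + (n⁻¹ * ‖Z u j - Z u (sel u)‖) ^ 2 := by linarith
    have h8 : 0 ≤ n ^ 2 * (2 * (n⁻¹ * ⟪w, Z u j - Z u (sel u)⟫)
        + (n⁻¹ * ‖Z u j - Z u (sel u)‖) ^ 2) := by positivity
    have h9 : n ^ 2 * (2 * (n⁻¹ * ⟪w, Z u j - Z u (sel u)⟫)
        + (n⁻¹ * ‖Z u j - Z u (sel u)‖) ^ 2) =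
        2 * n * ⟪w, Z u j - Z u (sel u)⟫ + ‖Z u j - Z u (sel u)‖ ^ 2 := by
      field_simp
    rw [h9] at h8
    linarith
  obtain ⟨sel', hsel'⟩ := h (-w)
  have h1 : n⁻¹ * ∑ u, ⟪Z u (sel' u), -w⟫ ≤
      n⁻¹ * ∑ u, ⟪Z u (sel u), -w⟫ + D0 ^ 2 / (2 * n) := by
    have h2 : ∀ u, ⟪Z u (sel' u), -w⟫ ≤ ⟪Z u (sel u), -w⟫ + D0 ^ 2 / (2 * n) := by
      intro u
      have := hswap u (sel' u)
      rw [inner_sub_left] at this
      linarith
    have h3 : ∑ u, ⟪Z u (sel' u), -w⟫ ≤ ∑ u, (⟪Z u (sel u), -w⟫ + D0 ^ 2 / (2 * n)) :=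
      Finset.sum_le_sum fun u _ => h2 u
    rw [Finset.sum_add_distrib, Finset.sum_const, Finset.card_univ, nsmul_eq_mul, ← hn] at h3
    have h4 := mul_le_mul_of_nonneg_left h3 (inv_nonneg.2 hnpos.le)
    have h5 : n⁻¹ * (∑ u, ⟪Z u (sel u), -w⟫ + n * (D0 ^ 2 / (2 * n)))
        = n⁻¹ * ∑ u, ⟪Z u (sel u), -w⟫ + D0 ^ 2 / (2 * n) := by
      field_simp
    rw [h5] at h4
    exact h4
  have h2 : n⁻¹ * ∑ u, ⟪Z u (sel u), -w⟫ = ⟪w + ρ, -w⟫ := by
    have : w + ρ = n⁻¹ • ∑ u, Z u (sel u) := by rw [hw]; abel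
    rw [this, real_inner_smul_left, sum_inner]
  rw [h2, inner_add_left] at h1
  have h3 : ‖w‖ ^ 2 ≤ D0 ^ 2 / (2 * n) := by
    have h4 : ⟪w, -w⟫ = -‖w‖ ^ 2 := by
      rw [inner_neg_right, real_inner_self_eq_norm_sq]
    rw [h4] at h1
    linarith
  rw [le_div_iff₀ (by positivity)]
  refine abs_le_of_sq_le_sq' ?_ hD0 |>.2
  rw [mul_pow, Real.sq_sqrt (by positivity)]
  rw [le_div_iff₀ (by positivity)] at h3
  exact h3

end D546neg
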