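/-
MP_d546a0_lc, negation S15426: separated families (helper18).
-/
import Pool.Agent.H.MP_d546a0_lc.neg.HB
import Pool.Agent.H.MP_d546a0_lc.neg.DualSudakov

set_option autoImplicit false

namespace D546neg

open MeasureTheory ProbabilityTheory Real
open scoped RealInnerProductSpace BigOperators ENNReal

variable {m : ℕ}

/-- maximal separated subsets. -/
lemma exists_maximal_sep {ι : Type*} (s : Finset ι) (R : ι → ι → Prop) (hsymm : ∀ i j, R i j → R j i) :
    ∃ t ⊆ s, (∀ i ∈ t, ∀ j ∈ t, i ≠ j → R i j) ∧ ∀ j ∈ s, j ∈ t ∨ ∃ i ∈ t, ¬ R i j := by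
  classical
  have hne : (s.powerset.filter fun t => ∀ i ∈ t, ∀ j ∈ t, i ≠ j → R i j).Nonempty :=
    ⟨∅, by simp⟩
  obtain ⟨t, ht, hmax⟩ := Finset.exists_max_image _ Finset.card hne
  simp only [Finset.mem_filter, Finset.mem_powerset] at ht hmax
  refine ⟨t, ht.1, ht.2, fun j hj => ?_⟩
  by_contra hcon
  push Not at hcon
  obtain ⟨hjt, hR⟩ := hcon
  have h1 := hmax (insert j t) ⟨Finset.insert_subset hj ht.1, ?_⟩
  · rw [Finset.card_insert_of_notMem hjt] at h1
    omega
  · intro a ha b hb hab
    rw [Finset.mem_insert] at ha hb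
    rcases ha with rfl | ha <;> rcases hb with rfl | hb
    · exact absurd rfl hab
    · exact hsymm _ _ (hR b hb)
    · exact hR a ha
    · exact ht.2 a ha b hb hab

/-- covering by classes around a maximal separated subset. -/
lemma card_le_of_cover {ι : Type*} (s t : Finset ι) (R : ι → ι → Prop) [DecidableRel R]
    (hcov : ∀ j ∈ s, ∃ i ∈ t, R i j) (c : ℝ)
    (hc : ∀ i ∈ t, ((s.filter fun j => R i j).card : ℝ) ≤ c) :
    (s.card : ℝ) ≤ t.card * c := by
  classical
  have h1 : s ⊆ t.biUnion fun i => s.filter fun j => R i j := by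
    intro j hj
    obtain ⟨i, hi, hR⟩ := hcov j hj
    simp only [Finset.mem_biUnion, Finset.mem_filter]
    exact ⟨i, hi, hj, hR⟩
  calc (s.card : ℝ) ≤ ((t.biUnion fun i => s.filter fun j => R i j).card : ℝ) := by
        exact_mod_cast Finset.card_le_card h1
    _ ≤ ((∑ i ∈ t, (s.filter fun j => R i j).card : ℕ) : ℝ) := by
        exact_mod_cast Finset.card_biUnion_le
    _ = ∑ i ∈ t, ((s.filter fun j => R i j).card : ℝ) := by push_cast; rfl
    _ ≤ ∑ _i ∈ t, c := Finset.sum_le_sum hc
    _ = t.card * c := by rw [Finset.sum_const, nsmul_eq_mul]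

/-- separation lemma. -/
theorem separation (K N1 : Seminorm ℝ (E m)) (hK : Definite K) (hN1 : Definite N1)
    (M α C r0 : ℝ) (hM : 0 < M) (hα : 0 < α) (hC : 0 < C)
    (hKd : ∫ g, dualN K g ∂(γ m) ≤ M)
    (hN1K : ∀ x, N1 x ≤ K x + ‖x‖ / α)
    (u : E m ≃L[ℝ] E m)
    (hu : ∫ g, dualN N1 (ContinuousLinearMap.adjoint (u.symm : E m →L[ℝ] E m) g) ∂(γ m) ≤ M)
    {ι : Type*} (s : Finset ι) (y : ι → E m) (x : E m)
    (hr : ∀ j ∈ s, ‖ContinuousLinearMap.adjoint (u : E m →L[ℝ] E m) (y j) - x‖ ≤ r0)
    (hsep : ∀ i ∈ s, ∀ j ∈ s, i ≠ j → 1 / C ≤ dualN K (y i - y j)) :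
    (s.card : ℝ) ≤ (2 * exp (8 * (4 * C * M * r0) ^ 2)) * (2 * exp (8 * (M / (2 * α)) ^ 2)) := by
  classical
  set τ : ℝ := 1 / (4 * C) with hτ
  have hτpos : 0 < τ := by positivity
  obtain ⟨t, hts, htsep, htmax⟩ := exists_maximal_sep s
    (fun i j => τ ≤ dualN N1 (y i - y j)) (by
      intro i j h
      rw [← dualN_neg hN1, neg_sub]
      exact h)
  have hcov : ∀ j ∈ s, ∃ i ∈ t, dualN N1 (y i - y j) ≤ τ := by
    intro j hj
    rcases htmax j hj with h | ⟨i, hi, h⟩
    · refine ⟨j, h, ?_⟩
      rw [sub_self]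
      have := dualN_smul hN1 0 (0 : E m)
      simp only [zero_smul, abs_zero, zero_mul] at this
      rw [this]
      exact hτpos.le
    · exact ⟨i, hi, (not_le.1 h).le⟩
  have h1 := card_le_of_cover s t (fun i j => dualN N1 (y i - y j) ≤ τ) hcov
    (2 * exp (8 * (M / (2 * α)) ^ 2)) ?_
  · refine h1.trans (mul_le_mul_of_nonneg_right ?_ (by positivity))
    -- the number of classes
    set L : E m →L[ℝ] E m := ContinuousLinearMap.adjoint (u.symm : E m →L[ℝ] E m) with hL
    have hLu : ∀ z, L (ContinuousLinearMap.adjoint (u : E m →L[ℝ] E m) z) = z := by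
      intro z
      refine ext_inner_right ℝ fun w => ?_
      rw [hL, ContinuousLinearMap.adjoint_inner_left, ContinuousLinearMap.adjoint_inner_left]
      simp
    have h2 := dual_sudakov ((dualS N1 hN1).comp L.toLinearMap) M hM hu t
      (fun j => ContinuousLinearMap.adjoint (u : E m →L[ℝ] E m) (y j)) x r0 τ hτpos
      (fun j hj => hr j (hts hj)) (by
        intro i hi j hj hij
        have h3 := htsep i hi j hj hij
        rw [← map_sub]
        show τ ≤ dualN N1 (L _)
        rw [hLu]
        exact h3)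
    have h4 : M * r0 / τ = 4 * C * M * r0 := by
      rw [hτ]; field_simp
    rw [h4] at h2
    exact h2
  · -- the size of a class
    intro i hi
    have hsplit : ∀ j, dualN N1 (y i - y j) ≤ τ → ∃ q z : E m,
        y j - y i = τ • (q + z) ∧ dualN K q ≤ 1 ∧ ‖z‖ ≤ 1 / α := by
      intro j hj
      obtain ⟨q, z, hqz, hq, hz⟩ := hb_split K (nrm m α⁻¹) (τ⁻¹ • (y j - y i)) (by
        intro v
        have h3 : dualN N1 (τ⁻¹ • (y j - y i)) ≤ 1 := by
          rw [dualN_smul hN1, abs_of_pos (inv_pos.2 hτpos), ← dualN_neg hN1, neg_sub]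
          rw [inv_mul_le_iff₀ hτpos, mul_one]
          exact hj
        calc ⟪v, τ⁻¹ • (y j - y i)⟫ ≤ N1 v * dualN N1 (τ⁻¹ • (y j - y i)) :=
              inner_le_mul_dualN hN1 _ _
          _ ≤ N1 v * 1 := mul_le_mul_of_nonneg_left h3 (apply_nonneg _ _)
          _ ≤ K v + nrm m α⁻¹ v := by
              rw [mul_one, nrm_apply, abs_of_pos (inv_pos.2 hα)]
              refine (hN1K v).trans (le_of_eq ?_)
              rw [div_eq_inv_mul])
      refine ⟨q, z, ?_, ?_, ?_⟩
      · rw [← hqz, smul_smul, mul_inv_cancel₀ hτpos.ne', one_smul]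
      · exact dualN_le fun v hv => (hq v).trans hv
      · have h3 := hz z
        rw [nrm_apply, abs_of_pos (inv_pos.2 hα), real_inner_self_eq_norm_sq] at h3
        rcases eq_or_lt_of_le (norm_nonneg z) with h0 | h0
        · rw [← h0]; positivity
        · rw [one_div]
          have : ‖z‖ * ‖z‖ ≤ α⁻¹ * ‖z‖ := by rw [← sq]; exact h3
          exact le_of_mul_le_mul_right this h0
    choose! q z hqz hq hz using hsplit
    have h2 := dual_sudakov (dualS K hK) M hM hKd
      (s.filter fun j => dualN N1 (y i - y j) ≤ τ) z 0 (1 / α) 2 two_pos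
      (by
        intro j hj
        rw [Finset.mem_filter] at hj
        rw [sub_zero]
        exact hz j hj.2)
      (by
        intro j hj j' hj' hjj
        rw [Finset.mem_filter] at hj hj'
        rw [dualS_apply]
        have h3 := hsep j hj.1 j' hj'.1 hjj
        have h4 : y j - y j' = τ • ((q j - q j') + (z j - z j')) := by
          have h5 : y j - y j' = (y j - y i) - (y j' - y i) := by abel
          rw [h5, hqz j hj.2, hqz j' hj'.2, ← smul_sub]
          congr 1
          abel
        rw [h4, dualN_smul hK, abs_of_pos hτpos] at h3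
        have h6 : dualN K ((q j - q j') + (z j - z j')) ≤ 2 + dualN K (z j - z j') := by
          refine (dualN_add_le hK _ _).trans ?_
          have h7 : dualN K (q j - q j') ≤ 1 + 1 := by
            rw [sub_eq_add_neg]
            refine (dualN_add_le hK _ _).trans ?_
            rw [dualN_neg hK]
            exact add_le_add (hq j hj.2) (hq j' hj'.2)
          linarith
        have h8 : 1 / C = τ * 4 := by rw [hτ]; field_simp
        rw [h8] at h3
        have h9 := le_of_mul_le_mul_left h3 hτpos
        linarith)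
    have h3 : M * (1 / α) / 2 = M / (2 * α) := by field_simp
    rw [h3] at h2
    exact h2

/-- Hamming balls are small. -/
lemma hamming_ball_card (n S : ℕ) (hS : 1 ≤ S) (i : Fin n → Fin S) :
    (Finset.univ.filter fun j : Fin n → Fin S => ¬ (n ≤ 2 * hammingDist i j)).card
      ≤ 2 ^ n * S ^ (n / 2) := by
  classical
  set Q : Finset (Finset (Fin n)) := Finset.univ.filter fun D => D.card ≤ n / 2 with hQ
  have h1 : (Finset.univ.filter fun j : Fin n → Fin S => ¬ (n ≤ 2 * hammingDist i j))
      ⊆ Q.biUnion fun D => Fintype.piFinset fun b => if b ∈ D then Finset.univ else {i b} := by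
    intro j hj
    simp only [Finset.mem_filter, Finset.mem_univ, true_and, not_le] at hj
    simp only [Finset.mem_biUnion, Fintype.mem_piFinset, hQ, Finset.mem_filter, Finset.mem_univ,
      true_and]
    refine ⟨Finset.univ.filter fun b => i b ≠ j b, ?_, ?_⟩
    · have : (Finset.univ.filter fun b => i b ≠ j b).card = hammingDist i j := rfl
      rw [this]
      omega
    · intro b
      by_cases hb : i b = j b
      · simp [hb]
      · simp [hb]
  calc _ ≤ (Q.biUnion fun D => Fintype.piFinset fun b =>
        if b ∈ D then Finset.univ else {i b}).card := Finset.card_le_card h1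
    _ ≤ ∑ D ∈ Q, (Fintype.piFinset fun b =>
        if b ∈ D then (Finset.univ : Finset (Fin S)) else {i b}).card := Finset.card_biUnion_le
    _ ≤ ∑ _D ∈ Q, S ^ (n / 2) := by
        refine Finset.sum_le_sum fun D hD => ?_
        rw [Fintype.card_piFinset]
        have h2 : ∏ b, (if b ∈ D then (Finset.univ : Finset (Fin S)) else {i b}).card
            = ∏ b, (if b ∈ D then S else 1) := by
          refine Finset.prod_congr rfl fun b _ => ?_
          split_ifs <;> simp
        rw [h2, Finset.prod_ite_mem, Finset.univ_inter, Finset.prod_const]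
        rw [hQ, Finset.mem_filter] at hD
        exact Nat.pow_le_pow_right hS hD.2
    _ = Q.card * S ^ (n / 2) := by rw [Finset.sum_const, smul_eq_mul]
    _ ≤ 2 ^ n * S ^ (n / 2) := by
        refine Nat.mul_le_mul_right _ ?_
        calc Q.card ≤ (Finset.univ : Finset (Finset (Fin n))).card :=
              Finset.card_le_card (Finset.filter_subset _ _)
          _ = 2 ^ n := by simp

end D546neg
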