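/-
MP_d546a0_lc, negation S15426: the Gaussian small ball / variation lemma (helper90).
-/
import Pool.Agent.H.MP_d546a0_lc.neg.GaussBasics

set_option autoImplicit false

namespace D546neg

open MeasureTheory ProbabilityTheory
open scoped RealInnerProductSpace BigOperators

section combi

private lemma varSum_inv_sq_le (n : ℕ) (hn : 1 ≤ n) :
    ∑ t ∈ Finset.range n, 1 / (((t : ℝ) + 1) ^ 2) ≤ 2 - 1 / (n : ℝ) := by
  induction n, hn using Nat.le_induction with
  | base => norm_num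
  | succ n hn ih =>
    rw [Finset.sum_range_succ]
    have hn0 : (0 : ℝ) < n := by exact_mod_cast hn
    have h1 : 1 / (((n : ℝ) + 1) ^ 2) ≤ 1 / (n : ℝ) - 1 / ((n : ℝ) + 1) := by
      rw [div_sub_div _ _ hn0.ne' (by positivity), div_le_div_iff₀ (by positivity) (by positivity)]
      nlinarith
    push_cast
    linarith

/-- every large subset contains a rich subset. -/
private lemma var_rich {m : ℕ} {Θ : Type*} [Fintype Θ] [Nonempty Θ] (y : Θ → E m)
    (R r0 E0 : ℝ) (I : ℕ) (hR : ∀ j, ‖y j‖ ≤ R) (hI : R < 4 ^ I * r0) (hI8 : 8 ≤ I)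
    (hE0 : 2 ≤ E0)
    (hsmall : ∀ x : E m,
      (Nat.card {j // ‖y j - x‖ < r0} : ℝ) ≤ Real.exp (-E0) * Fintype.card Θ)
    (Rem : Finset Θ) (hRem : (Fintype.card Θ : ℝ) / 2 ≤ Rem.card) :
    ∃ t < I, ∃ K ⊆ Rem, K.Nonempty ∧ ∃ x : E m, (∀ j ∈ K, ‖y j - x‖ < 4 ^ (t + 1) * r0) ∧
      ∀ z : E m, ((K.filter fun j => ‖y j - z‖ < 4 ^ t * r0).card : ℝ) ≤
        Real.exp (-(E0 / (4 * ((t : ℝ) + 1) ^ 2))) * K.card := by
  classical
  by_contra hcon
  push Not at hcon
  have hcardpos : (0 : ℝ) < Fintype.card Θ := by exact_mod_cast Fintype.card_pos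
  have hRempos : (0 : ℝ) < Rem.card := by linarith
  have key : ∀ n ≤ I, ∃ x : E m,
      Real.exp (-(∑ t ∈ Finset.Ico (I - n) I, E0 / (4 * ((t : ℝ) + 1) ^ 2))) * Rem.card ≤
        ((Rem.filter fun j => ‖y j - x‖ < 4 ^ (I - n) * r0).card : ℝ) := by
    intro n
    induction n with
    | zero =>
      intro _
      refine ⟨0, ?_⟩
      have : (Rem.filter fun j => ‖y j - 0‖ < 4 ^ (I - 0) * r0) = Rem := by
        refine Finset.filter_true_of_mem fun j _ => ?_
        rw [sub_zero, Nat.sub_zero]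
        exact (hR j).trans_lt hI
      rw [this]
      simp
    | succ n ih =>
      intro hn
      obtain ⟨x, hx⟩ := ih (by omega)
      set K := Rem.filter fun j => ‖y j - x‖ < 4 ^ (I - n) * r0 with hK
      have hKpos : (0 : ℝ) < K.card := lt_of_lt_of_le (by positivity) hx
      have hKne : K.Nonempty := by
        rw [← Finset.card_pos]; exact_mod_cast hKpos
      have e1 : I - n = (I - (n + 1)) + 1 := by omega
      obtain ⟨z, hz⟩ := hcon (I - (n + 1)) (by omega) K (Finset.filter_subset _ _) hKne x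
        (fun j hj => by
          have := (Finset.mem_filter.1 hj).2
          rw [e1] at this
          exact this)
      refine ⟨z, ?_⟩
      have h1 : ((K.filter fun j => ‖y j - z‖ < 4 ^ (I - (n + 1)) * r0).card : ℝ) ≤
          ((Rem.filter fun j => ‖y j - z‖ < 4 ^ (I - (n + 1)) * r0).card : ℝ) := by
        exact_mod_cast Finset.card_le_card
          (Finset.filter_subset_filter _ (Finset.filter_subset _ _))
      have e2 : ∑ t ∈ Finset.Ico (I - (n + 1)) I, E0 / (4 * ((t : ℝ) + 1) ^ 2) =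
          E0 / (4 * (((I - (n + 1) : ℕ) : ℝ) + 1) ^ 2) +
            ∑ t ∈ Finset.Ico (I - n) I, E0 / (4 * ((t : ℝ) + 1) ^ 2) := by
        rw [Finset.sum_eq_sum_Ico_succ_bot (by omega), e1]
      rw [e2, neg_add, Real.exp_add]
      calc _ = Real.exp (-(E0 / (4 * (((I - (n + 1) : ℕ) : ℝ) + 1) ^ 2))) *
            (Real.exp (-(∑ t ∈ Finset.Ico (I - n) I, E0 / (4 * ((t : ℝ) + 1) ^ 2))) *
              Rem.card) := by ring
        _ ≤ Real.exp (-(E0 / (4 * (((I - (n + 1) : ℕ) : ℝ) + 1) ^ 2))) * K.card :=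
            mul_le_mul_of_nonneg_left hx (Real.exp_pos _).le
        _ ≤ _ := hz.le
        _ ≤ _ := h1
  obtain ⟨x, hx⟩ := key I le_rfl
  rw [Nat.sub_self, pow_zero, one_mul, ← Finset.range_eq_Ico] at hx
  have h1 : ((Rem.filter fun j => ‖y j - x‖ < r0).card : ℝ) ≤
      (Nat.card {j // ‖y j - x‖ < r0} : ℝ) := by
    rw [Nat.card_eq_fintype_card, Fintype.card_subtype]
    exact_mod_cast Finset.card_le_card (Finset.filter_subset_filter _ (Finset.subset_univ _))
  have h2 := hsmall x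
  have h3 : ∑ t ∈ Finset.range I, E0 / (4 * ((t : ℝ) + 1) ^ 2) ≤ E0 / 2 := by
    have h4 := varSum_inv_sq_le I (by omega)
    have h5 : (0 : ℝ) ≤ 1 / (I : ℝ) := by positivity
    have h6 : ∑ t ∈ Finset.range I, E0 / (4 * ((t : ℝ) + 1) ^ 2) =
        (E0 / 4) * ∑ t ∈ Finset.range I, 1 / (((t : ℝ) + 1) ^ 2) := by
      rw [Finset.mul_sum]
      refine Finset.sum_congr rfl fun t _ => ?_
      rw [div_mul_div_comm, mul_one]
    rw [h6]
    nlinarith
  have h4 : Real.exp (-(E0 / 2)) ≤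
      Real.exp (-(∑ t ∈ Finset.range I, E0 / (4 * ((t : ℝ) + 1) ^ 2))) :=
    Real.exp_le_exp.2 (by linarith)
  have h5 : Real.exp (-(E0 / 2)) * Rem.card ≤ Real.exp (-E0) * Fintype.card Θ :=
    (mul_le_mul_of_nonneg_right h4 hRempos.le).trans (hx.trans (h1.trans h2))
  have h6 : Real.exp (-E0) = Real.exp (-(E0 / 2)) * Real.exp (-(E0 / 2)) := by
    rw [← Real.exp_add]; congr 1; ring
  rw [h6, mul_assoc] at h5
  have h7 : (Rem.card : ℝ) ≤ Real.exp (-(E0 / 2)) * Fintype.card Θ :=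
    le_of_mul_le_mul_left h5 (Real.exp_pos _)
  have h8 : Real.exp (-(E0 / 2)) < 1 / 2 := by
    have h9 : Real.exp (-(E0 / 2)) ≤ Real.exp (-1) := Real.exp_le_exp.2 (by linarith)
    have h10 : Real.exp (-1) < 1 / 2 := by
      rw [Real.exp_neg, one_div]
      refine inv_strictAnti₀ (by norm_num) ?_
      have := Real.exp_one_gt_d9
      linarith
    exact h9.trans_lt h10
  nlinarith

/-- a rich subset of large weight. -/
private lemma var_rich_weight {m : ℕ} {Θ : Type*} [Fintype Θ] [Nonempty Θ] (y : Θ → E m)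
    (R r0 E0 : ℝ) (I : ℕ) (hR : ∀ j, ‖y j‖ ≤ R) (hI : R < 4 ^ I * r0) (hI8 : 8 ≤ I)
    (hE0 : 2 ≤ E0)
    (hsmall : ∀ x : E m,
      (Nat.card {j // ‖y j - x‖ < r0} : ℝ) ≤ Real.exp (-E0) * Fintype.card Θ)
    (w : Θ → ℝ) (p : ℝ) (hp : 0 < p) (hw : ∀ j, w j ≤ p)
    (hsum : 3 / 4 * Fintype.card Θ * p ≤ ∑ j, w j) :
    ∃ t < I, ∃ K : Finset Θ, K.Nonempty ∧ ∃ x : E m, (∀ j ∈ K, ‖y j - x‖ < 4 ^ (t + 1) * r0) ∧
      (∀ z : E m, ((K.filter fun j => ‖y j - z‖ < 4 ^ t * r0).card : ℝ) ≤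
        Real.exp (-(E0 / (4 * ((t : ℝ) + 1) ^ 2))) * K.card) ∧
      K.card * p / 2 ≤ ∑ j ∈ K, w j := by
  classical
  by_contra hcon
  push Not at hcon
  have hcardpos : (0 : ℝ) < Fintype.card Θ := by exact_mod_cast Fintype.card_pos
  obtain ⟨U, hU, hmax⟩ := Finset.exists_max_image
    ((Finset.univ : Finset (Finset Θ)).filter fun U => ∑ j ∈ U, w j ≤ U.card * p / 2)
    Finset.card ⟨∅, by simp⟩
  rw [Finset.mem_filter] at hU
  have hUc : ((Uᶜ).card : ℝ) = Fintype.card Θ - U.card := by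
    rw [Finset.card_compl, Nat.cast_sub (Finset.card_le_univ U)]
  by_cases hlarge : (Fintype.card Θ : ℝ) / 2 ≤ (Uᶜ).card
  · obtain ⟨t, ht, K, hKU, hKne, x, hx, hz⟩ :=
      var_rich y R r0 E0 I hR hI hI8 hE0 hsmall Uᶜ hlarge
    have h1 := hcon t ht K hKne x hx hz
    have hdisj : Disjoint U K := by
      rw [Finset.disjoint_left]
      intro j hj hjK
      exact (Finset.mem_compl.1 (hKU hjK)) hj
    have h2 : U ∪ K ∈ (Finset.univ : Finset (Finset Θ)).filter
        fun U => ∑ j ∈ U, w j ≤ U.card * p / 2 := by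
      rw [Finset.mem_filter]
      refine ⟨Finset.mem_univ _, ?_⟩
      rw [Finset.sum_union hdisj, Finset.card_union_of_disjoint hdisj]
      push_cast
      have := hU.2
      linarith
    have h3 := hmax _ h2
    rw [Finset.card_union_of_disjoint hdisj] at h3
    have := Finset.card_pos.2 hKne
    omega
  · push Not at hlarge
    have h1 : ∑ j, w j = ∑ j ∈ U, w j + ∑ j ∈ Uᶜ, w j := (Finset.sum_add_sum_compl U w).symm
    have h2 : ∑ j ∈ Uᶜ, w j ≤ (Uᶜ).card * p := by
      calc _ ≤ ∑ _j ∈ Uᶜ, p := Finset.sum_le_sum fun j _ => hw j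
        _ = _ := by rw [Finset.sum_const, nsmul_eq_mul]
    have h3 := hU.2
    rw [hUc] at hlarge h2
    nlinarith

end combi

section meas

private lemma var_integrable_abs {m : ℕ} (t : E m) : Integrable (fun g : E m => |⟪t, g⟫|) (γ m) := by
  refine (integrable_exp_abs_inner 1 t).mono' (by fun_prop) ?_
  refine Filter.Eventually.of_forall fun g => ?_
  rw [Real.norm_eq_abs, abs_abs, one_mul]
  have := Real.add_one_le_exp |⟪t, g⟫|
  linarith

/-- entropy bound. -/
private lemma var_entropy {m : ℕ} (G : Set (E m)) (X : ℝ) (hX : 0 < X)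
    (hp : (γ m).real G = 2 * Real.exp (-X)) (t : E m) :
    ∫ g in G, |⟪t, g⟫| ∂(γ m) ≤ (γ m).real G * (‖t‖ * √(2 * X)) := by
  rcases eq_or_ne t 0 with rfl | ht
  · simp
  have ht' : 0 < ‖t‖ := norm_pos_iff.2 ht
  set s := √(2 * X) with hs
  have hs0 : 0 < s := Real.sqrt_pos.2 (by linarith)
  have hs2 : s ^ 2 = 2 * X := Real.sq_sqrt (by linarith)
  set l := s / ‖t‖ with hl
  have hl0 : 0 < l := div_pos hs0 ht'
  set c := X + l ^ 2 * ‖t‖ ^ 2 / 2 with hc
  have hc2 : c = 2 * X := by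
    have : l ^ 2 * ‖t‖ ^ 2 = s ^ 2 := by
      rw [hl, div_pow, div_mul_cancel₀ _ (by positivity)]
    rw [hc, this, hs2]; ring
  have hint1 : Integrable (fun g : E m => Real.exp (l * |⟪t, g⟫|)) (γ m) := integrable_exp_abs_inner l t
  have hpt : ∀ g : E m, l * |⟪t, g⟫| ≤ Real.exp (-c) * Real.exp (l * |⟪t, g⟫|) + (c - 1) := by
    intro g
    have := Real.add_one_le_exp (l * |⟪t, g⟫| - c)
    rw [sub_eq_add_neg, add_comm, Real.exp_add] at this
    linarith
  have h1 : ∫ g in G, l * |⟪t, g⟫| ∂(γ m) ≤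
      ∫ g in G, (Real.exp (-c) * Real.exp (l * |⟪t, g⟫|) + (c - 1)) ∂(γ m) := by
    refine setIntegral_mono ?_ ?_ hpt
    · exact ((var_integrable_abs t).const_mul l).integrableOn
    · exact ((hint1.const_mul _).add (integrable_const _)).integrableOn
  have h2 : ∫ g in G, (Real.exp (-c) * Real.exp (l * |⟪t, g⟫|) + (c - 1)) ∂(γ m) =
      Real.exp (-c) * ∫ g in G, Real.exp (l * |⟪t, g⟫|) ∂(γ m) + (c - 1) * (γ m).real G := by
    rw [integral_add (hint1.const_mul _).integrableOn (integrable_const _).integrableOn,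
      integral_const_mul, setIntegral_const, smul_eq_mul, mul_comm (c - 1)]
  have h3 : ∫ g in G, Real.exp (l * |⟪t, g⟫|) ∂(γ m) ≤ 2 * Real.exp (l ^ 2 * ‖t‖ ^ 2 / 2) :=
    (setIntegral_le_integral hint1 (Filter.Eventually.of_forall fun g => (Real.exp_pos _).le)).trans
      (integral_exp_abs_inner_le l t)
  have h4 : Real.exp (-c) * (2 * Real.exp (l ^ 2 * ‖t‖ ^ 2 / 2)) = (γ m).real G := by
    rw [hp, hc, neg_add, Real.exp_add, Real.exp_neg (l ^ 2 * ‖t‖ ^ 2 / 2)]
    field_simp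
  have h5 : l * ∫ g in G, |⟪t, g⟫| ∂(γ m) ≤ c * (γ m).real G := by
    rw [← integral_const_mul]
    calc _ ≤ _ := h1
      _ = _ := h2
      _ ≤ Real.exp (-c) * (2 * Real.exp (l ^ 2 * ‖t‖ ^ 2 / 2)) + (c - 1) * (γ m).real G := by
        have := mul_le_mul_of_nonneg_left h3 (Real.exp_pos (-c)).le
        linarith
      _ = _ := by rw [h4]; ring
  have h6 : c = l * (‖t‖ * s) := by
    rw [hc2, hl, ← hs2]; field_simp
  rw [h6, mul_assoc] at h5
  have h7 := le_of_mul_le_mul_left h5 hl0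
  rw [mul_comm] at h7
  exact h7

/-- lower bound for the measure of a shifted piece. -/
private lemma var_shift_lower {m : ℕ} (G D : Set (E m))
    (hD : MeasurableSet D) (hDG : D ⊆ G) (t : E m) (c τ : ℝ) (hτ : ‖t‖ ≤ τ) :
    Real.exp (-(c + τ ^ 2 / 2)) * ((1 + c) * (γ m).real D - ∫ g in G, |⟪t, g⟫| ∂(γ m)) ≤
      (γ m).real ((fun g => g + t) '' D) := by
  rw [measure_shift D hD t]
  have hint1 : Integrable (fun g : E m => |⟪t, g⟫|) (γ m) := var_integrable_abs t
  have hint2 : Integrable (fun g : E m => Real.exp (-⟪t, g⟫ - ‖t‖ ^ 2 / 2)) (γ m) := by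
    refine (integrable_exp_abs_inner 1 t).mono' (by fun_prop) ?_
    refine Filter.Eventually.of_forall fun g => ?_
    rw [Real.norm_of_nonneg (Real.exp_pos _).le]
    refine Real.exp_le_exp.2 ?_
    have := neg_le_abs ⟪t, g⟫
    have h2 : 0 ≤ ‖t‖ ^ 2 / 2 := by positivity
    linarith
  have h1 : ∫ g in D, |⟪t, g⟫| ∂(γ m) ≤ ∫ g in G, |⟪t, g⟫| ∂(γ m) :=
    setIntegral_mono_set hint1.integrableOn (Filter.Eventually.of_forall fun g => abs_nonneg _)
      (Filter.Eventually.of_forall hDG)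
  have hpt : ∀ g : E m, Real.exp (-(c + τ ^ 2 / 2)) * ((1 + c) - |⟪t, g⟫|) ≤
      Real.exp (-⟪t, g⟫ - ‖t‖ ^ 2 / 2) := by
    intro g
    have h3 : Real.exp (-⟪t, g⟫ - ‖t‖ ^ 2 / 2) =
        Real.exp (-(c + ‖t‖ ^ 2 / 2)) * Real.exp (c - ⟪t, g⟫) := by
      rw [← Real.exp_add]; congr 1; ring
    have h4 : Real.exp (-(c + τ ^ 2 / 2)) ≤ Real.exp (-(c + ‖t‖ ^ 2 / 2)) := by
      refine Real.exp_le_exp.2 ?_
      have : ‖t‖ ^ 2 ≤ τ ^ 2 := pow_le_pow_left₀ (norm_nonneg _) hτ 2
      linarith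
    have h5 : (1 + c) - |⟪t, g⟫| ≤ Real.exp (c - ⟪t, g⟫) := by
      have := Real.add_one_le_exp (c - ⟪t, g⟫)
      have := le_abs_self ⟪t, g⟫
      linarith
    rw [h3]
    calc _ ≤ Real.exp (-(c + τ ^ 2 / 2)) * Real.exp (c - ⟪t, g⟫) :=
          mul_le_mul_of_nonneg_left h5 (Real.exp_pos _).le
      _ ≤ _ := mul_le_mul_of_nonneg_right h4 (Real.exp_pos _).le
  have h2 : ∫ g in D, Real.exp (-(c + τ ^ 2 / 2)) * ((1 + c) - |⟪t, g⟫|) ∂(γ m) ≤
      ∫ g in D, Real.exp (-⟪t, g⟫ - ‖t‖ ^ 2 / 2) ∂(γ m) := by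
    refine setIntegral_mono ?_ hint2.integrableOn hpt
    exact (((integrable_const _).sub hint1).const_mul _).integrableOn
  refine le_trans ?_ h2
  rw [integral_const_mul]
  refine mul_le_mul_of_nonneg_left ?_ (Real.exp_pos _).le
  rw [integral_sub (integrable_const _).integrableOn hint1.integrableOn, setIntegral_const,
    smul_eq_mul]
  linarith

private lemma var_measurable_G {m : ℕ} {Θ : Type*} [Finite Θ] (y : Θ → E m) (S : Θ → ℝ) (A : ℝ) :
    MeasurableSet {g : E m | ∀ j, ⟪g, y j⟫ + S j < A} := by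
  have : {g : E m | ∀ j, ⟪g, y j⟫ + S j < A} = ⋂ j, {g : E m | ⟪g, y j⟫ + S j < A} := by
    ext g; simp
  rw [this]
  refine MeasurableSet.iInter fun j => ?_
  exact measurableSet_lt (by fun_prop) measurable_const

theorem lemmaV {m : ℕ} {Θ : Type*} [Fintype Θ] [Nonempty Θ] (y : Θ → E m) (S : Θ → ℝ)
    (hy : ∑ j, y j = 0) (hS : ∑ j, S j = 0) (R r0 E0 A : ℝ) (I : ℕ)
    (hR : ∀ j, ‖y j‖ ≤ R) (hr0 : 0 < r0) (hI : R < 4 ^ I * r0) (hI8 : 8 ≤ I) (hE0 : 2 ≤ E0)
    (hsmall : ∀ x : E m, (Nat.card {j // ‖y j - x‖ < r0} : ℝ) ≤ Real.exp (-E0) * Fintype.card Θ)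
    (hA : 0 < A) (hA2 : A ≤ r0 * √E0 / 100) :
    (γ m).real {g | ∀ j, ⟪g, y j⟫ + S j < A} ≤ 2 * Real.exp (-(E0 / (8 * (I:ℝ) ^ 2))) := by
  classical
  by_contra hcon
  push Not at hcon
  set G : Set (E m) := {g | ∀ j, ⟪g, y j⟫ + S j < A} with hGdef
  have hGm : MeasurableSet G := var_measurable_G y S A
  set p := (γ m).real G with hp
  have hp0 : 0 < p := lt_trans (by positivity) hcon
  have hp1 : p ≤ 1 := measureReal_le_one
  set Y := E0 / (8 * (I:ℝ) ^ 2) with hY
  set X := Real.log (2 / p) with hX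
  have hX0 : 0 < X := Real.log_pos (by rw [lt_div_iff₀ hp0]; linarith)
  have hpX : p = 2 * Real.exp (-X) := by
    rw [hX, Real.exp_neg, Real.exp_log (by positivity)]
    field_simp
  have hXY : X < Y := by
    rw [hpX] at hcon
    have := Real.exp_lt_exp.1 (lt_of_mul_lt_mul_left hcon (by norm_num : (0:ℝ) ≤ 2))
    linarith
  set Gj : Θ → Set (E m) := fun j => {g | g ∈ G ∧ -(3 * A) ≤ ⟪g, y j⟫ + S j} with hGj
  have hGjm : ∀ j, MeasurableSet (Gj j) := by
    intro j
    have h1 : MeasurableSet {g : E m | -(3 * A) ≤ ⟪g, y j⟫ + S j} :=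
      measurableSet_le measurable_const (by fun_prop)
    exact hGm.inter h1
  have hGjG : ∀ j, Gj j ⊆ G := fun j g hg => hg.1
  -- total weight
  have hsum : 3 / 4 * Fintype.card Θ * p ≤ ∑ j, (γ m).real (Gj j) := by
    have h1 : ∀ j, (γ m).real (Gj j) = ∫ g, (Gj j).indicator (1 : E m → ℝ) g ∂(γ m) := by
      intro j; rw [integral_indicator_one (hGjm j)]
    have h2 : 3 / 4 * Fintype.card Θ * p =
        ∫ g, 3 / 4 * Fintype.card Θ * G.indicator (1 : E m → ℝ) g ∂(γ m) := by
      rw [integral_const_mul, integral_indicator_one hGm]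
    simp_rw [h1]
    rw [h2, ← integral_finsetSum]
    swap
    · intro j _
      exact (integrable_const (1:ℝ)).indicator (hGjm j)
    refine integral_mono ?_ ?_ ?_
    · exact ((integrable_const (1:ℝ)).indicator hGm).const_mul _
    · refine integrable_finsetSum _ fun j _ => ?_
      exact (integrable_const (1:ℝ)).indicator (hGjm j)
    · intro g
      show 3 / 4 * Fintype.card Θ * G.indicator (1 : E m → ℝ) g ≤
        ∑ j, (Gj j).indicator (1 : E m → ℝ) g
      by_cases hg : g ∈ G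
      · rw [Set.indicator_of_mem hg, Pi.one_apply, mul_one]
        have h3 : ∀ j, 1 - (A - (⟪g, y j⟫ + S j)) / (4 * A) ≤ (Gj j).indicator (1 : E m → ℝ) g := by
          intro j
          by_cases hj : g ∈ Gj j
          · rw [Set.indicator_of_mem hj, Pi.one_apply]
            have h4 : 0 ≤ (A - (⟪g, y j⟫ + S j)) / (4 * A) := by
              have := hg j
              exact div_nonneg (by linarith) (by linarith)
            linarith
          · rw [Set.indicator_of_notMem hj]
            have h4 : ⟪g, y j⟫ + S j < -(3 * A) := by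
              by_contra h5
              push Not at h5
              exact hj ⟨hg, h5⟩
            have h6 : 1 ≤ (A - (⟪g, y j⟫ + S j)) / (4 * A) := by
              rw [le_div_iff₀ (by linarith)]
              linarith
            linarith
        refine le_trans ?_ (Finset.sum_le_sum fun j _ => h3 j)
        rw [Finset.sum_sub_distrib, ← Finset.sum_div, Finset.sum_sub_distrib,
          Finset.sum_add_distrib, ← inner_sum, hy, hS, inner_zero_right]
        simp only [Finset.sum_const, Finset.card_univ, nsmul_eq_mul]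
        have : (Fintype.card Θ * A - (0 + 0)) / (4 * A) = (Fintype.card Θ : ℝ) / 4 := by
          field_simp
          ring
        rw [this]
        linarith
      · rw [Set.indicator_of_notMem hg, mul_zero]
        exact Finset.sum_nonneg fun j _ => Set.indicator_nonneg (fun _ _ => zero_le_one) _
  obtain ⟨t, ht, K, hKne, x, hx, hz, hKw⟩ := var_rich_weight y R r0 E0 I hR hI hI8 hE0 hsmall
    (fun j => (γ m).real (Gj j)) p hp0 (fun j => measureReal_mono (hGjG j)) hsum
  have hKpos : (0:ℝ) < K.card := by exact_mod_cast Finset.card_pos.2 hKne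
  set r := 4 ^ t * r0 with hr
  have hr_pos : 0 < r := by positivity
  set l := 8 * A / r ^ 2 with hl
  have hl0 : 0 < l := by positivity
  set sh : Θ → E m := fun j => l • (y j - x) with hsh
  set τ := 32 * A / r with hτ
  have hτ0 : 0 < τ := by positivity
  have hshτ : ∀ j ∈ K, ‖sh j‖ ≤ τ := by
    intro j hj
    rw [hsh, hτ]
    simp only [norm_smul, Real.norm_of_nonneg hl0.le]
    have h1 := (hx j hj).le
    calc l * ‖y j - x‖ ≤ l * (4 ^ (t + 1) * r0) := mul_le_mul_of_nonneg_left h1 hl0.le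
      _ = 32 * A / r := by
        have h2 : (4:ℝ) ^ (t + 1) * r0 = 4 * r := by rw [hr, pow_succ]; ring
        rw [h2, hl]
        field_simp
        ring
  set e := E0 / (4 * ((t:ℝ) + 1) ^ 2) with he
  -- overlap bound
  have hover : ∑ j ∈ K, (γ m).real ((fun g => g + sh j) '' (Gj j)) ≤ Real.exp (-e) * K.card := by
    have hBm : ∀ j, MeasurableSet ((fun g => g + sh j) '' (Gj j)) := by
      intro j
      rw [Set.image_add_right]
      exact (measurable_add_const _) (hGjm j)
    have h1 : ∀ j, (γ m).real ((fun g => g + sh j) '' (Gj j)) =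
        ∫ g, ((fun g => g + sh j) '' (Gj j)).indicator (1 : E m → ℝ) g ∂(γ m) := by
      intro j; rw [integral_indicator_one (hBm j)]
    simp_rw [h1]
    rw [← integral_finsetSum]
    swap
    · intro j _
      exact (integrable_const (1:ℝ)).indicator (hBm j)
    have h2 : Real.exp (-e) * K.card = ∫ _g, Real.exp (-e) * K.card ∂(γ m) := by simp
    rw [h2]
    refine integral_mono ?_ (integrable_const _) ?_
    · refine integrable_finsetSum _ fun j _ => ?_
      exact (integrable_const (1:ℝ)).indicator (hBm j)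
    · intro z
      show ∑ j ∈ K, ((fun g => g + sh j) '' (Gj j)).indicator (1 : E m → ℝ) z ≤
        Real.exp (-e) * K.card
      have h3 : ∑ j ∈ K, ((fun g => g + sh j) '' (Gj j)).indicator (1 : E m → ℝ) z =
          ((K.filter fun j => z ∈ (fun g => g + sh j) '' (Gj j)).card : ℝ) := by
        rw [Finset.card_filter]
        push_cast
        refine Finset.sum_congr rfl fun j _ => ?_
        rw [Set.indicator_apply]
        rfl
      rw [h3]
      rcases (K.filter fun j => z ∈ (fun g => g + sh j) '' (Gj j)).eq_empty_or_nonempty with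
        hemp | ⟨i, hi⟩
      · rw [hemp, Finset.card_empty, Nat.cast_zero]
        exact mul_nonneg (Real.exp_pos _).le hKpos.le
      · refine le_trans ?_ (hz (y i))
        refine Nat.cast_le.2 (Finset.card_le_card ?_)
        intro j hj
        rw [Finset.mem_filter] at hi hj ⊢
        refine ⟨hj.1, ?_⟩
        obtain ⟨g, hg, hgz⟩ := hi.2
        obtain ⟨g', hg', hgz'⟩ := hj.2
        have h4 : g - g' = l • (y j - y i) := by
          have h5 : g + l • (y i - x) = g' + l • (y j - x) := hgz.trans hgz'.symm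
          have h6 : g - g' = l • (y j - x) - l • (y i - x) := by
            rw [sub_eq_sub_iff_add_eq_add, h5, add_comm]
          rw [h6, ← smul_sub]
          congr 1
          abel
        have h5 : l * ‖y j - y i‖ ^ 2 = ⟪g - g', y j - y i⟫ := by
          rw [h4, real_inner_smul_left, real_inner_self_eq_norm_sq]
        have h6 : ⟪g - g', y j - y i⟫ = ⟪g, y j⟫ - ⟪g, y i⟫ - ⟪g', y j⟫ + ⟪g', y i⟫ := by
          rw [inner_sub_left, inner_sub_right, inner_sub_right]; ring
        have h7 := hg.1 j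
        have h8 := hg.2
        have h9 := hg'.1 i
        have h10 := hg'.2
        have h11 : l * ‖y j - y i‖ ^ 2 < 8 * A := by
          rw [h5, h6]; linarith
        have h12 : ‖y j - y i‖ ^ 2 < r ^ 2 := by
          have h13 : 8 * A = l * r ^ 2 := by
            rw [hl]; field_simp
          rw [h13] at h11
          exact lt_of_mul_lt_mul_left h11 hl0.le
        exact lt_of_pow_lt_pow_left₀ 2 hr_pos.le h12
  -- lower bound
  set s := √(2 * X) with hs
  have hs0 : 0 < s := Real.sqrt_pos.2 (by linarith)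
  set c := 2 * τ * s with hc
  have hc0 : 0 < c := by positivity
  have hlow : ∀ j ∈ K, Real.exp (-(c + τ ^ 2 / 2)) * ((1 + c) * (γ m).real (Gj j) - p * (τ * s)) ≤
      (γ m).real ((fun g => g + sh j) '' (Gj j)) := by
    intro j hj
    refine le_trans ?_ (var_shift_lower G (Gj j) (hGjm j) (hGjG j) (sh j) c τ (hshτ j hj))
    refine mul_le_mul_of_nonneg_left ?_ (Real.exp_pos _).le
    have h1 := var_entropy G X hX0 hpX (sh j)
    have h2 : p * (‖sh j‖ * √(2 * X)) ≤ p * (τ * s) := by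
      have := mul_le_mul_of_nonneg_right (hshτ j hj) hs0.le
      exact mul_le_mul_of_nonneg_left this hp0.le
    linarith
  have hlow2 : Real.exp (-(c + τ ^ 2 / 2)) * (K.card * p / 2) ≤ Real.exp (-e) * K.card := by
    refine le_trans ?_ ((Finset.sum_le_sum hlow).trans hover)
    rw [← Finset.mul_sum]
    refine mul_le_mul_of_nonneg_left ?_ (Real.exp_pos _).le
    rw [Finset.sum_sub_distrib, ← Finset.mul_sum, Finset.sum_const, nsmul_eq_mul]
    have h1 := mul_le_mul_of_nonneg_left hKw (by linarith : 0 ≤ 1 + c)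
    have h2 : (1 + c) * (K.card * p / 2) - K.card * (p * (τ * s)) = K.card * p / 2 := by
      rw [hc]; ring
    linarith
  have hfin : e ≤ X + 2 * τ * s + τ ^ 2 / 2 := by
    have h1 : Real.exp (-(c + τ ^ 2 / 2)) * (K.card * p / 2) =
        Real.exp (-(X + c + τ ^ 2 / 2)) * K.card := by
      rw [hpX]
      have : Real.exp (-(X + c + τ ^ 2 / 2)) = Real.exp (-X) * Real.exp (-(c + τ ^ 2 / 2)) := by
        rw [← Real.exp_add]; congr 1; ring
      rw [this]; ring
    rw [h1] at hlow2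
    have h2 := le_of_mul_le_mul_right hlow2 hKpos
    have h3 := Real.exp_le_exp.1 h2
    rw [hc] at h3
    linarith
  -- numerics
  have hE0' : 0 < E0 := by linarith
  set q := √E0 with hq
  have hq0 : 0 < q := Real.sqrt_pos.2 hE0'
  have hq2 : q ^ 2 = E0 := Real.sq_sqrt hE0'.le
  have htI : ((t:ℝ) + 1) ≤ I := by exact_mod_cast ht
  have ht1 : (1:ℝ) ≤ (t:ℝ) + 1 := by
    have : (0:ℝ) ≤ t := Nat.cast_nonneg t
    linarith
  have hI8' : (8:ℝ) ≤ I := by exact_mod_cast hI8
  have h4t : ((t:ℝ) + 1) ^ 2 ≤ 4 ^ t := by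
    have : ∀ n : ℕ, (n + 1) ^ 2 ≤ 4 ^ n := by
      intro n
      induction n with
      | zero => norm_num
      | succ n ih =>
        rw [pow_succ 4 n]
        nlinarith [Nat.zero_le n]
    exact_mod_cast this t
  set u := (t:ℝ) + 1 with hu
  have hu0 : 0 < u := by linarith
  have hτ1 : τ ≤ 32 / 100 * q / u ^ 2 := by
    rw [hτ, div_le_div_iff₀ hr_pos (by positivity)]
    have h1 : r0 * u ^ 2 ≤ r := by
      rw [hr, mul_comm]; exact mul_le_mul_of_nonneg_right h4t hr0.le
    calc 32 * A * u ^ 2 ≤ 32 * (r0 * q / 100) * u ^ 2 := by gcongr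
      _ = 32 / 100 * q * (r0 * u ^ 2) := by ring
      _ ≤ 32 / 100 * q * r := by gcongr
  have hs1 : s < q / (2 * I) := by
    rw [hs, Real.sqrt_lt' (by positivity), div_pow, hq2]
    have h1 : E0 / (2 * (I:ℝ)) ^ 2 = 2 * Y := by
      rw [hY]; field_simp; ring
    rw [h1]; linarith
  have hs2 : s ≤ q / 16 := by
    refine hs1.le.trans ?_
    refine div_le_div_of_nonneg_left hq0.le (by norm_num) ?_
    linarith
  have b1 : 2 * τ * s ≤ 4 / 100 * (E0 / u ^ 2) := by
    calc 2 * τ * s ≤ 2 * (32 / 100 * q / u ^ 2) * (q / 16) := by gcongr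
      _ = 4 / 100 * (q ^ 2 / u ^ 2) := by ring
      _ = _ := by rw [hq2]
  have b2 : τ ^ 2 / 2 ≤ 512 / 10000 * (E0 / u ^ 2) := by
    calc τ ^ 2 / 2 ≤ (32 / 100 * q / u ^ 2) ^ 2 / 2 := by gcongr
      _ = 512 / 10000 * (q ^ 2 / u ^ 2) * (1 / u ^ 2) := by field_simp; ring
      _ ≤ 512 / 10000 * (q ^ 2 / u ^ 2) * 1 := by
        refine mul_le_mul_of_nonneg_left ?_ (by positivity)
        rw [div_le_one (by positivity)]
        nlinarith
      _ = _ := by rw [hq2, mul_one]
  have b3 : X ≤ 125 / 1000 * (E0 / u ^ 2) := by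
    refine hXY.le.trans ?_
    have h1 : u ^ 2 ≤ (I:ℝ) ^ 2 := pow_le_pow_left₀ hu0.le htI 2
    calc Y ≤ E0 / (8 * u ^ 2) := by
          rw [hY]
          exact div_le_div_of_nonneg_left hE0'.le (by positivity) (by linarith)
      _ = _ := by field_simp; ring
  have b4 : e = 25 / 100 * (E0 / u ^ 2) := by
    rw [he]; field_simp; ring
  have b5 : 0 < E0 / u ^ 2 := by positivity
  rw [b4] at hfin
  linarith

end meas

end D546neg
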