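/-
MP_d546a0_lc, negation S15426: variation of a block structure (helper18).
-/
import Pool.Agent.H.MP_d546a0_lc.neg.Sep
import Pool.Agent.H.MP_d546a0_lc.neg.Variation

set_option autoImplicit false

namespace D546neg

open MeasureTheory ProbabilityTheory Real
open scoped RealInnerProductSpace BigOperators ENNReal

variable {m : ℕ}

/-- the vectors `(1/n) ∑_b (w_b(j_b) - avg_s w_b(s))`. -/
noncomputable def yv {n S : ℕ} (w : Fin n → Fin S → E m) (j : Fin n → Fin S) : E m :=
  (n:ℝ)⁻¹ • ∑ b, (w b (j b) - (S:ℝ)⁻¹ • ∑ s, w b s)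

lemma sum_yv {n S : ℕ} (w : Fin n → Fin S → E m) (hS : 1 ≤ S) : ∑ j, yv w j = 0 := by
  classical
  unfold yv
  rw [← Finset.smul_sum, Finset.sum_comm]
  have h : ∀ b, ∑ j : Fin n → Fin S, (w b (j b) - (S:ℝ)⁻¹ • ∑ s, w b s) = 0 := by
    intro b
    rw [Finset.sum_sub_distrib]
    have h1 : ∑ j : Fin n → Fin S, w b (j b) = ((S ^ (n - 1) : ℕ) : ℝ) • ∑ s, w b s := by
      have h2 : ∑ j : Fin n → Fin S, w b (j b)
          = ∑ s : Fin S, ∑ j ∈ Finset.univ.filter (fun j : Fin n → Fin S => j b = s), w b (j b) :=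
        (Finset.sum_fiberwise _ _ _).symm
      rw [h2, Finset.smul_sum]
      refine Finset.sum_congr rfl fun s _ => ?_
      have h3 : ∑ j ∈ Finset.univ.filter (fun j : Fin n → Fin S => j b = s), w b (j b)
          = ∑ j ∈ Finset.univ.filter (fun j : Fin n → Fin S => j b = s), w b s := by
        refine Finset.sum_congr rfl fun j hj => ?_
        rw [Finset.mem_filter] at hj
        rw [hj.2]
      rw [h3, Finset.sum_const]
      have h4 : (Finset.univ.filter (fun j : Fin n → Fin S => j b = s)).card = S ^ (n - 1) := by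
        have h5 : (Finset.univ.filter (fun j : Fin n → Fin S => j b = s))
            = Fintype.piFinset fun b' => if b' = b then {s} else Finset.univ := by
          ext j
          simp only [Finset.mem_filter, Finset.mem_univ, true_and, Fintype.mem_piFinset]
          constructor
          · intro h b'
            by_cases hb : b' = b
            · simp [hb, h]
            · simp [hb]
          · intro h
            simpa using h b
        rw [h5, Fintype.card_piFinset]
        have h6 : ∀ b', (if b' = b then ({s} : Finset (Fin S)) else Finset.univ).card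
            = if b' = b then 1 else S := by
          intro b'; split_ifs <;> simp
        simp_rw [h6]
        rw [Finset.prod_ite, Finset.prod_const_one, one_mul, Finset.prod_const]
        congr 1
        rw [Finset.filter_ne' Finset.univ b, Finset.card_erase_of_mem (Finset.mem_univ b)]
        simp
      rw [h4, Nat.cast_smul_eq_nsmul]
    rw [h1, Finset.sum_const, Finset.card_univ, Fintype.card_fun, Fintype.card_fin,
      Fintype.card_fin, ← Nat.cast_smul_eq_nsmul ℝ, smul_smul]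
    have hn : 1 ≤ n := by
      have := b.pos
      omega
    have h7 : ((S ^ n : ℕ) : ℝ) * (S:ℝ)⁻¹ = ((S ^ (n - 1) : ℕ) : ℝ) := by
      have hS' : (S:ℝ) ≠ 0 := by
        have : (1:ℝ) ≤ S := by exact_mod_cast hS
        positivity
      rw [mul_inv_eq_iff_eq_mul₀ hS']
      push_cast
      rw [← pow_succ, Nat.sub_add_cancel hn]
    rw [h7, sub_self]
  rw [Finset.sum_eq_zero fun b _ => h b, smul_zero]

lemma abs_inner_yv_le {n S : ℕ} (w : Fin n → Fin S → E m) (K : Seminorm ℝ (E m))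
    (hw : ∀ b s x, |⟪w b s, x⟫| ≤ K x) (j : Fin n → Fin S) (x : E m) :
    |⟪yv w j, x⟫| ≤ 2 * K x := by
  unfold yv
  rw [real_inner_smul_left, abs_mul, sum_inner]
  have h1 : ∀ b, |⟪w b (j b) - (S:ℝ)⁻¹ • ∑ s, w b s, x⟫| ≤ 2 * K x := by
    intro b
    rw [inner_sub_left, real_inner_smul_left, sum_inner]
    have h2 := hw b (j b) x
    have h3 : |(S:ℝ)⁻¹ * ∑ s, ⟪w b s, x⟫| ≤ K x := by
      rw [abs_mul, abs_of_nonneg (by positivity : (0:ℝ) ≤ (S:ℝ)⁻¹)]
      have h4 : |∑ s, ⟪w b s, x⟫| ≤ S * K x := by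
        refine (Finset.abs_sum_le_sum_abs _ _).trans ?_
        refine (Finset.sum_le_sum fun s _ => hw b s x).trans ?_
        simp
      have hS : 0 < (S:ℝ) := by
        have := (j b).pos
        exact_mod_cast this
      rw [inv_mul_le_iff₀ hS]
      exact h4
    have := abs_sub ⟪w b (j b), x⟫ ((S:ℝ)⁻¹ * ∑ s, ⟪w b s, x⟫)
    linarith
  rcases Nat.eq_zero_or_pos n with rfl | hn
  · simp only [CharP.cast_eq_zero, inv_zero, abs_zero, zero_mul]
    have := apply_nonneg K x
    positivity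
  · have hn' : 0 < (n:ℝ) := by exact_mod_cast hn
    rw [abs_of_pos (inv_pos.2 hn'), inv_mul_le_iff₀ hn']
    refine (Finset.abs_sum_le_sum_abs _ _).trans ?_
    refine (Finset.sum_le_sum fun b _ => h1 b).trans ?_
    simp

lemma yv_sub {n S : ℕ} (w : Fin n → Fin S → E m) (j j' : Fin n → Fin S) :
    yv w j - yv w j' = (n:ℝ)⁻¹ • ∑ b, (w b (j b) - w b (j' b)) := by
  unfold yv
  rw [← smul_sub, ← Finset.sum_sub_distrib]
  congr 1
  refine Finset.sum_congr rfl fun b _ => ?_
  abel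

/-- finite nets of balls with respect to a seminorm. -/
lemma exists_net (K : Seminorm ℝ (E m)) (κ : ℝ) (hκ : 0 < κ) (hK : ∫ g, K g ∂(γ m) ≤ κ)
    (r τ : ℝ) (hτ : 0 < τ) :
    ∃ T : Finset (E m), (T.card : ℝ) ≤ 2 * exp (8 * (κ * r / τ) ^ 2) ∧
      ∀ h, ‖h‖ ≤ r → ∃ h' ∈ T, K (h - h') ≤ τ := by
  classical
  by_contra hcon
  push Not at hcon
  have key : ∀ n : ℕ, ∃ T : Finset (E m), T.card = n ∧ (∀ h ∈ T, ‖h‖ ≤ r) ∧
      ∀ h ∈ T, ∀ h' ∈ T, h ≠ h' → τ ≤ K (h - h') := by
    intro n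
    induction n with
    | zero => exact ⟨∅, by simp⟩
    | succ n ih =>
      obtain ⟨T, hT1, hT2, hT3⟩ := ih
      have hc := dual_sudakov K κ hκ hK T id 0 r τ hτ (by
        intro j hj
        simpa using hT2 j hj) hT3
      obtain ⟨h, hh, hh2⟩ := hcon T hc
      have hnot : h ∉ T := by
        intro hmem
        have := hh2 h hmem
        rw [sub_self, map_zero] at this
        linarith
      refine ⟨insert h T, by rw [Finset.card_insert_of_notMem hnot, hT1], ?_, ?_⟩
      · intro h' hh'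
        rcases Finset.mem_insert.1 hh' with rfl | h''
        · exact hh
        · exact hT2 _ h''
      · intro a ha b hb hab
        rcases Finset.mem_insert.1 ha with ha' | ha' <;> rcases Finset.mem_insert.1 hb with hb' | hb'
        · exact absurd (ha'.trans hb'.symm) hab
        · rw [ha']
          exact (hh2 b hb').le
        · rw [hb']
          have := hh2 a ha'
          rw [← map_neg_eq_map K, neg_sub] at this
          exact this.le
        · exact hT3 a ha' b hb' hab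
  obtain ⟨n, hn⟩ := exists_nat_gt (2 * exp (8 * (κ * r / τ) ^ 2))
  obtain ⟨T, hT1, hT2, hT3⟩ := key n
  have hc := dual_sudakov K κ hκ hK T id 0 r τ hτ (by
        intro j hj
        simpa using hT2 j hj) hT3
  rw [hT1] at hc
  linarith

/-- many choices in a small ball are impossible. -/
lemma block_small (K N1 : Seminorm ℝ (E m)) (hK : Definite K) (hN1 : Definite N1)
    (M α C r0 : ℝ) (hM : 0 < M) (hα : 0 < α) (hC : 0 < C)
    (hKd : ∫ g, dualN K g ∂(γ m) ≤ M)
    (hN1K : ∀ x, N1 x ≤ K x + ‖x‖ / α)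
    (u : E m ≃L[ℝ] E m)
    (hu : ∫ g, dualN N1 (ContinuousLinearMap.adjoint (u.symm : E m →L[ℝ] E m) g) ∂(γ m) ≤ M)
    {n S : ℕ} (hS : 1 ≤ S) (w : Fin n → Fin S → E m)
    (hsep : ∀ j j', n ≤ 2 * hammingDist j j' → 1 / C ≤ dualN K (yv w j - yv w j'))
    (hn : 1 ≤ n) (x : E m) :
    (Nat.card {j // ‖ContinuousLinearMap.adjoint (u : E m →L[ℝ] E m) (yv w j) - x‖ < r0} : ℝ)
      ≤ (2 * exp (8 * (4 * C * M * r0) ^ 2)) * (2 * exp (8 * (M / (2 * α)) ^ 2))
        * (2 ^ n * (S:ℝ) ^ (n / 2)) := by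
  classical
  set P : (Fin n → Fin S) → Prop :=
    fun j => ‖ContinuousLinearMap.adjoint (u : E m →L[ℝ] E m) (yv w j) - x‖ < r0 with hP
  have hcard : Nat.card {j // P j} = (Finset.univ.filter P).card := by
    rw [Nat.card_eq_fintype_card, Fintype.card_subtype]
  show (Nat.card {j // P j} : ℝ) ≤ _
  rw [hcard]
  obtain ⟨t, hts, htsep, htmax⟩ := exists_maximal_sep (Finset.univ.filter P)
    (fun i j => n ≤ 2 * hammingDist i j) (by
      intro i j h
      rw [hammingDist_comm]; exact h)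
  have hcov : ∀ j ∈ Finset.univ.filter P, ∃ i ∈ t, ¬ (n ≤ 2 * hammingDist i j) := by
    intro j hj
    rcases htmax j hj with h | h
    · refine ⟨j, h, ?_⟩
      rw [hammingDist_self]
      omega
    · exact h
  have h1 := card_le_of_cover (Finset.univ.filter P) t (fun i j => ¬ (n ≤ 2 * hammingDist i j)) hcov
    (2 ^ n * (S:ℝ) ^ (n / 2)) (by
      intro i _
      have h2 := hamming_ball_card n S hS i
      have h3 : ((Finset.univ.filter P).filter fun j => ¬ (n ≤ 2 * hammingDist i j)).card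
          ≤ 2 ^ n * S ^ (n / 2) :=
        (Finset.card_le_card (Finset.filter_subset_filter _ (Finset.filter_subset _ _))).trans h2
      exact_mod_cast h3)
  refine h1.trans (mul_le_mul_of_nonneg_right ?_ (by positivity))
  exact separation K N1 hK hN1 M α C r0 hM hα hC hKd hN1K u hu t (fun j => yv w j) x
    (fun j hj => by
      have := hts hj
      rw [Finset.mem_filter] at this
      exact this.2.le)
    (fun i hi j hj hij => hsep i j (htsep i hi j hj hij))

/-- the variation event. -/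
theorem block_event (K N1 : Seminorm ℝ (E m)) (hK : Definite K) (hN1 : Definite N1)
    (M α C r0 κ0 E0 A lam : ℝ) (I : ℕ)
    (hM : 0 < M) (hα : 0 < α) (hC : 0 < C) (hκ0 : 0 < κ0)
    (hKint : ∫ g, K g ∂(γ m) ≤ κ0)
    (hKd : ∫ g, dualN K g ∂(γ m) ≤ M)
    (hN1K : ∀ x, N1 x ≤ K x + ‖x‖ / α)
    (u : E m ≃L[ℝ] E m)
    (hu : ∫ g, dualN N1 (ContinuousLinearMap.adjoint (u.symm : E m →L[ℝ] E m) g) ∂(γ m) ≤ M)
    {n S : ℕ} (hn : 1 ≤ n) (hS : 1 ≤ S) (w : Fin n → Fin S → E m)
    (hw : ∀ b s x, |⟪w b s, x⟫| ≤ K x)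
    (hsep : ∀ j j', n ≤ 2 * hammingDist j j' → 1 / C ≤ dualN K (yv w j - yv w j'))
    (R : ℝ) (hR : ∀ j, ‖ContinuousLinearMap.adjoint (u : E m →L[ℝ] E m) (yv w j)‖ ≤ R)
    (hr0 : 0 < r0) (hI : R < 4 ^ I * r0) (hI8 : 8 ≤ I) (hE0 : 2 ≤ E0)
    (hA : 0 < A) (hA2 : A ≤ r0 * √E0 / 100)
    (hnum : (2 * exp (8 * (4 * C * M * r0) ^ 2)) * (2 * exp (8 * (M / (2 * α)) ^ 2))
        * (2 ^ n * (S:ℝ) ^ (n / 2)) ≤ exp (-E0) * (S:ℝ) ^ n)
    (hnet : 2 * exp (8 * (κ0 * lam / (A / 4)) ^ 2) * (2 * exp (-(E0 / (8 * (I:ℝ) ^ 2)))) ≤ 1 / 8)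
    (Sh : E m) :
    ∃ Ω : Set (E m), MeasurableSet Ω ∧ 7 / 8 ≤ (γ m).real Ω ∧
      ∀ g ∈ Ω, ∀ h, ‖h‖ ≤ lam → ∃ j, A / 2 ≤ ⟪yv w j, u g + Sh - h⟫ := by
  classical
  obtain ⟨T, hT1, hT2⟩ := exists_net K κ0 hκ0 hKint lam (A / 4) (by positivity)
  have : Nonempty (Fin S) := ⟨⟨0, by omega⟩⟩
  -- the basic event
  have hbasic : ∀ v : E m, (γ m).real {g | ∀ j, ⟪yv w j, u g + v⟫ < A}
      ≤ 2 * exp (-(E0 / (8 * (I:ℝ) ^ 2))) := by
    intro v
    have h1 := lemmaV (Θ := Fin n → Fin S)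
      (fun j => ContinuousLinearMap.adjoint (u : E m →L[ℝ] E m) (yv w j))
      (fun j => ⟪yv w j, v⟫)
      (by rw [← map_sum, sum_yv w hS, map_zero])
      (by rw [← sum_inner, sum_yv w hS, inner_zero_left])
      R r0 E0 A I hR hr0 hI hI8 hE0 (by
        intro x
        refine (block_small K N1 hK hN1 M α C r0 hM hα hC hKd hN1K u hu hS w hsep hn x).trans ?_
        refine hnum.trans (le_of_eq ?_)
        rw [Fintype.card_fun, Fintype.card_fin, Fintype.card_fin]
        push_cast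
        rfl) hA hA2
    refine le_trans (le_of_eq ?_) h1
    congr 1
    ext g
    simp only [Set.mem_ofPred_eq]
    refine forall_congr' fun j => ?_
    rw [inner_add_right, ContinuousLinearMap.adjoint_inner_right]
    rw [real_inner_comm (yv w j)]
    rfl
  set Ω : Set (E m) := ⋂ h' ∈ T, {g | ∀ j, ⟪yv w j, u g + (Sh - h')⟫ < A}ᶜ with hΩ
  have hmeas : ∀ v : E m, MeasurableSet {g | ∀ j, ⟪yv w j, u g + v⟫ < A} := by
    intro v
    have : {g | ∀ j, ⟪yv w j, u g + v⟫ < A} = ⋂ j, {g | ⟪yv w j, u g + v⟫ < A} := by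
      ext g; simp
    rw [this]
    refine MeasurableSet.iInter fun j => ?_
    exact (isOpen_lt (by fun_prop) continuous_const).measurableSet
  have hΩm : MeasurableSet Ω := by
    rw [hΩ]
    exact Finset.measurableSet_biInter _ fun h' _ => (hmeas _).compl
  refine ⟨Ω, hΩm, ?_, ?_⟩
  · have h1 : (γ m).real Ωᶜ ≤ 1 / 8 := by
      have h2 : Ωᶜ = ⋃ h' ∈ T, {g | ∀ j, ⟪yv w j, u g + (Sh - h')⟫ < A} := by
        rw [hΩ]
        simp only [Set.compl_iInter, compl_compl]
      rw [h2]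
      calc (γ m).real (⋃ h' ∈ T, {g | ∀ j, ⟪yv w j, u g + (Sh - h')⟫ < A})
          ≤ ∑ h' ∈ T, (γ m).real {g | ∀ j, ⟪yv w j, u g + (Sh - h')⟫ < A} :=
            measureReal_biUnion_finset_le _ _
        _ ≤ ∑ _h' ∈ T, 2 * exp (-(E0 / (8 * (I:ℝ) ^ 2))) :=
            Finset.sum_le_sum fun h' _ => hbasic _
        _ = T.card * (2 * exp (-(E0 / (8 * (I:ℝ) ^ 2)))) := by
            rw [Finset.sum_const, nsmul_eq_mul]
        _ ≤ 2 * exp (8 * (κ0 * lam / (A / 4)) ^ 2) * (2 * exp (-(E0 / (8 * (I:ℝ) ^ 2)))) :=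
            mul_le_mul_of_nonneg_right hT1 (by positivity)
        _ ≤ 1 / 8 := hnet
    have h3 := probReal_compl_eq_one_sub (μ := γ m) hΩm
    linarith
  · intro g hg h hh
    obtain ⟨h', hh', hK'⟩ := hT2 h hh
    have h1 : g ∈ {g | ∀ j, ⟪yv w j, u g + (Sh - h')⟫ < A}ᶜ := by
      rw [hΩ] at hg
      exact Set.mem_iInter₂.1 hg h' hh'
    simp only [Set.mem_compl_iff, Set.mem_ofPred_eq, not_forall, not_lt] at h1
    obtain ⟨j, hj⟩ := h1
    refine ⟨j, ?_⟩
    have h2 : u g + Sh - h = (u g + (Sh - h')) - (h - h') := by abel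
    rw [h2, inner_sub_right]
    have h3 := abs_inner_yv_le w K hw j (h - h')
    have h4 := le_abs_self ⟪yv w j, h - h'⟫
    linarith

end D546neg
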