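/-
MP_d546a0_lc, negation S15426: ancestor closure of leaves below a common prefix (helper23).
-/
import Mathlib

set_option autoImplicit false

namespace D546neg

open Finset

private lemma lc_geom (β : ℕ) : (∑ s ∈ range β, 2 ^ (β - s)) + 2 = 2 * 2 ^ β := by
  induction β with
  | zero => simp
  | succ b ih =>
    rw [sum_range_succ']
    have : ∀ s ∈ range b, 2 ^ (b + 1 - (s + 1)) = 2 ^ (b - s) := by
      intro s _
      congr 1
      omega
    rw [sum_congr rfl this]
    simp only [Nat.sub_zero, pow_succ] at *
    omega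

/-- the size of the ancestor closure of a set of leaves below a common prefix. -/
theorem leaf_closure (H τ β p : ℕ) (hH : τ + β ≤ H) (V : Finset ℕ) (hV1 : ∀ v ∈ V, v < 2 ^ H)
    (hV : ∀ v ∈ V, v / 2 ^ (τ + β) = p) (hc : V.card ≤ 2 * 2 ^ β) :
    ∃ T : Finset (Fin (2 ^ (H + 1) - 1)),
      T.card ≤ H + 1 + 2 * 2 ^ β + 2 * 2 ^ β * τ ∧
      (∀ i ∈ T, i.val ≠ 0 → ∃ j ∈ T, j.val + 1 = (i.val + 1) / 2) ∧
      ∀ i : Fin (2 ^ (H + 1) - 1), (∃ v ∈ V, i.val + 1 = 2 ^ H + v) → i ∈ T := by
  classical
  set T : Finset (Fin (2 ^ (H + 1) - 1)) :=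
    univ.filter (fun i => ∃ r ∈ range (H + 1), ∃ v ∈ V, i.val + 1 = (2 ^ H + v) / 2 ^ r) with hT
  have hmem : ∀ i, i ∈ T ↔ ∃ r ∈ range (H + 1), ∃ v ∈ V, i.val + 1 = (2 ^ H + v) / 2 ^ r := by
    intro i
    simp [hT]
  have hpow : 2 ^ (H + 1) = 2 * 2 ^ H := by rw [pow_succ, mul_comm]
  have hpos : 0 < 2 ^ H := by positivity
  refine ⟨T, ?_, ?_, ?_⟩
  · -- counting
    have hinj : (T.image (fun i => i.val + 1)).card = T.card := by
      apply card_image_of_injective
      intro a b h
      apply Fin.ext
      simpa using h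
    have hsub : T.image (fun i => i.val + 1) ⊆
        (range (H + 1)).biUnion (fun r => V.image (fun v => (2 ^ H + v) / 2 ^ r)) := by
      intro x hx
      rw [mem_image] at hx
      obtain ⟨i, hi, rfl⟩ := hx
      obtain ⟨r, hr, v, hv, h⟩ := (hmem i).1 hi
      rw [mem_biUnion]
      exact ⟨r, hr, mem_image.2 ⟨v, hv, h.symm⟩⟩
    set q := 2 ^ (H - (τ + β)) + p with hq
    have hkey : ∀ v ∈ V, (2 ^ H + v) / 2 ^ (τ + β) = q := by
      intro v hv
      have : 2 ^ H = 2 ^ (H - (τ + β)) * 2 ^ (τ + β) := by
        rw [← pow_add]; congr 1; omega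
      rw [this, Nat.mul_comm, Nat.mul_add_div (by positivity), hV v hv]
    have hcard : ∀ r ∈ range (H + 1), (V.image (fun v => (2 ^ H + v) / 2 ^ r)).card ≤
        (if r < τ then 2 * 2 ^ β else 0) +
          (if τ ≤ r ∧ r < τ + β then 2 ^ (τ + β - r) else 0) + 1 := by
      intro r hr
      by_cases h1 : r < τ
      · rw [if_pos h1]
        have := card_image_le (s := V) (f := fun v => (2 ^ H + v) / 2 ^ r)
        omega
      · by_cases h2 : r < τ + β
        · rw [if_neg h1, if_pos ⟨not_lt.1 h1, h2⟩]
          have hs : V.image (fun v => (2 ^ H + v) / 2 ^ r) ⊆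
              Ico (q * 2 ^ (τ + β - r)) ((q + 1) * 2 ^ (τ + β - r)) := by
            intro x hx
            rw [mem_image] at hx
            obtain ⟨v, hv, rfl⟩ := hx
            have h3 := hkey v hv
            have h4 : 2 ^ (τ + β) = 2 ^ r * 2 ^ (τ + β - r) := by
              rw [← pow_add]; congr 1; omega
            rw [h4, ← Nat.div_div_eq_div_mul] at h3
            have h5 : 0 < 2 ^ (τ + β - r) := by positivity
            rw [mem_Ico]
            constructor
            · rw [← h3]
              exact Nat.div_mul_le_self _ _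
            · rw [← h3]
              exact Nat.lt_mul_of_div_lt (Nat.lt_succ_self _) h5
          have := card_le_card hs
          rw [Nat.card_Ico, Nat.add_mul, Nat.one_mul, Nat.add_sub_cancel_left] at this
          omega
        · rw [if_neg h1, if_neg (by tauto)]
          have hs : V.image (fun v => (2 ^ H + v) / 2 ^ r) ⊆ {q / 2 ^ (r - (τ + β))} := by
            intro x hx
            rw [mem_image] at hx
            obtain ⟨v, hv, rfl⟩ := hx
            have h3 := hkey v hv
            rw [mem_singleton, ← h3, Nat.div_div_eq_div_mul, ← pow_add]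
            congr 2
            omega
          have := card_le_card hs
          rw [card_singleton] at this
          omega
    have hA : ∑ r ∈ range (H + 1), (if r < τ then 2 * 2 ^ β else 0) ≤ 2 * 2 ^ β * τ := by
      rw [← sum_filter, sum_const, smul_eq_mul, mul_comm]
      apply Nat.mul_le_mul_left
      calc (filter (fun r => r < τ) (range (H + 1))).card ≤ (range τ).card := by
            apply card_le_card
            intro r hr
            rw [mem_filter] at hr
            exact mem_range.2 hr.2
        _ = τ := card_range τ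
    have hB : ∑ r ∈ range (H + 1), (if τ ≤ r ∧ r < τ + β then 2 ^ (τ + β - r) else 0) ≤
        2 * 2 ^ β := by
      rw [← sum_filter]
      calc ∑ r ∈ filter (fun r => τ ≤ r ∧ r < τ + β) (range (H + 1)), 2 ^ (τ + β - r)
          ≤ ∑ r ∈ Ico τ (τ + β), 2 ^ (τ + β - r) := by
            apply sum_le_sum_of_subset
            intro r hr
            rw [mem_filter] at hr
            exact mem_Ico.2 hr.2
        _ = ∑ s ∈ range β, 2 ^ (β - s) := by
            rw [sum_Ico_eq_sum_range, Nat.add_sub_cancel_left]
            apply sum_congr rfl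
            intro s _
            congr 1
            omega
        _ ≤ 2 * 2 ^ β := by
            have := lc_geom β
            omega
    calc T.card = (T.image (fun i => i.val + 1)).card := hinj.symm
      _ ≤ _ := card_le_card hsub
      _ ≤ ∑ r ∈ range (H + 1), (V.image (fun v => (2 ^ H + v) / 2 ^ r)).card := card_biUnion_le
      _ ≤ ∑ r ∈ range (H + 1), ((if r < τ then 2 * 2 ^ β else 0) +
          (if τ ≤ r ∧ r < τ + β then 2 ^ (τ + β - r) else 0) + 1) := sum_le_sum hcard
      _ ≤ _ := by
          rw [sum_add_distrib, sum_add_distrib, sum_const, card_range, smul_eq_mul, mul_one]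
          omega
  · intro i hi hi0
    obtain ⟨r, hr, v, hv, h⟩ := (hmem i).1 hi
    rw [mem_range] at hr
    have hrH : r + 1 ≤ H := by
      by_contra hcon
      have hr' : r = H := by omega
      subst hr'
      have hv1 := hV1 v hv
      have : (2 ^ r + v) / 2 ^ r = 1 := by
        rw [Nat.add_div_left _ hpos, Nat.div_eq_of_lt hv1]
      omega
    have h2 : (i.val + 1) / 2 = (2 ^ H + v) / 2 ^ (r + 1) := by
      rw [h, Nat.div_div_eq_div_mul, ← pow_succ]
    have h3 : 1 ≤ (i.val + 1) / 2 := by omega
    refine ⟨⟨(i.val + 1) / 2 - 1, ?_⟩, ?_, ?_⟩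
    · have := i.isLt
      omega
    · rw [hmem]
      refine ⟨r + 1, mem_range.2 (by omega), v, hv, ?_⟩
      rw [← h2]
      simp only
      omega
    · simp only
      omega
  · rintro i ⟨v, hv, h⟩
    rw [hmem]
    exact ⟨0, mem_range.2 (by omega), v, hv, by simpa using h⟩

end D546neg
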