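/-
MP_d546a0_lc, negation S15426: null space property for blocks of leaves (helper18).
-/
import Pool.Agent.H.MP_d546a0_lc.neg.Block
import Pool.Agent.H.MP_d546a0_lc.neg.LeafClosure

set_option autoImplicit false

namespace D546neg

open MeasureTheory ProbabilityTheory Real
open scoped RealInnerProductSpace BigOperators ENNReal

variable {m : ℕ}

/-- leaf vectors. -/
noncomputable def leafvec {H : ℕ} (a : Fin (2 ^ (H + 1) - 1) → E m) (v : ℕ) : E m :=
  if h : 2 ^ H + v - 1 < 2 ^ (H + 1) - 1 then a ⟨2 ^ H + v - 1, h⟩ else 0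

theorem block_nsp (H τ β p kk : ℕ) (hH : τ + β ≤ H) (C : ℝ) (hC : 0 < C)
    (K : Seminorm ℝ (E m)) (a : Fin (2 ^ (H + 1) - 1) → E m)
    (hNSP : ∀ (T : Finset (Fin (2 ^ (H + 1) - 1))), T.card ≤ kk →
        (∀ i ∈ T, i.val ≠ 0 → ∃ j ∈ T, j.val + 1 = (i.val + 1) / 2) →
        ∀ t : Fin (2 ^ (H + 1) - 1) → ℝ, (∀ i, i ∉ T → t i = 0) →
          ∑ i, |t i| ≤ C * dualN K (∑ i, t i • a i))
    (hcard : H + 1 + 2 * 2 ^ β + 2 * 2 ^ β * τ ≤ kk) (S : ℕ)
    (v : Fin (2 ^ β) → Fin S → ℕ) (hvlt : ∀ b s, v b s < 2 ^ H)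
    (hvp : ∀ b s, v b s / 2 ^ (τ + β) = p)
    (hinj : ∀ b s b' s', v b s = v b' s' → b = b' ∧ s = s')
    (j j' : Fin (2 ^ β) → Fin S) (hj : 2 ^ β ≤ 2 * hammingDist j j') :
    1 / C ≤ dualN K (yv (fun b s => leafvec a (v b s)) j - yv (fun b s => leafvec a (v b s)) j') := by
  classical
  have hpow : 2 ^ (H + 1) = 2 * 2 ^ H := by rw [pow_succ]; ring
  have hHpos : 1 ≤ 2 ^ H := Nat.one_le_two_pow
  have hidx : ∀ b s, 2 ^ H + v b s - 1 < 2 ^ (H + 1) - 1 := by
    intro b s
    have := hvlt b s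
    omega
  set L : Fin (2 ^ β) → Fin S → Fin (2 ^ (H + 1) - 1) := fun b s => ⟨2 ^ H + v b s - 1, hidx b s⟩
    with hL
  have hLv : ∀ b s, leafvec a (v b s) = a (L b s) := by
    intro b s
    unfold leafvec
    rw [dif_pos (hidx b s)]
  have hLinj : ∀ b s b' s', L b s = L b' s' → b = b' ∧ s = s' := by
    intro b s b' s' h
    refine hinj b s b' s' ?_
    have h1 : 2 ^ H + v b s - 1 = 2 ^ H + v b' s' - 1 := congrArg Fin.val h
    omega
  -- the set of leaves
  set V : Finset ℕ := (Finset.univ.image fun b => v b (j b)) ∪ (Finset.univ.image fun b => v b (j' b))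
    with hV
  have hVcard : V.card ≤ 2 * 2 ^ β := by
    refine (Finset.card_union_le _ _).trans ?_
    have h1 : (Finset.univ.image fun b => v b (j b)).card ≤ 2 ^ β := by
      refine Finset.card_image_le.trans ?_
      simp
    have h2 : (Finset.univ.image fun b => v b (j' b)).card ≤ 2 ^ β := by
      refine Finset.card_image_le.trans ?_
      simp
    omega
  obtain ⟨T, hT1, hT2, hT3⟩ := leaf_closure H τ β p hH V (by
    intro x hx
    rw [hV, Finset.mem_union] at hx
    rcases hx with hx | hx <;> obtain ⟨b, -, rfl⟩ := Finset.mem_image.1 hx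
    · exact hvlt _ _
    · exact hvlt _ _) (by
    intro x hx
    rw [hV, Finset.mem_union] at hx
    rcases hx with hx | hx <;> obtain ⟨b, -, rfl⟩ := Finset.mem_image.1 hx
    · exact hvp _ _
    · exact hvp _ _) hVcard
  have hLT : ∀ b, L b (j b) ∈ T ∧ L b (j' b) ∈ T := by
    intro b
    constructor
    · refine hT3 _ ⟨v b (j b), ?_, ?_⟩
      · rw [hV, Finset.mem_union]
        exact Or.inl (Finset.mem_image_of_mem _ (Finset.mem_univ b))
      · show 2 ^ H + v b (j b) - 1 + 1 = _
        omega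
    · refine hT3 _ ⟨v b (j' b), ?_, ?_⟩
      · rw [hV, Finset.mem_union]
        exact Or.inr (Finset.mem_image_of_mem _ (Finset.mem_univ b))
      · show 2 ^ H + v b (j' b) - 1 + 1 = _
        omega
  set n : ℝ := ((2 ^ β : ℕ) : ℝ) with hn
  have hnpos : 0 < n := by rw [hn]; positivity
  set t : Fin (2 ^ (H + 1) - 1) → ℝ := fun i =>
    n⁻¹ * ∑ b, ((if i = L b (j b) then 1 else 0) - (if i = L b (j' b) then 1 else 0)) with ht
  have hNSP' := hNSP T (hT1.trans hcard) hT2 t (by
    intro i hi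
    simp only [ht]
    rw [Finset.sum_eq_zero, mul_zero]
    intro b _
    have h1 : i ≠ L b (j b) := fun h => hi (h ▸ (hLT b).1)
    have h2 : i ≠ L b (j' b) := fun h => hi (h ▸ (hLT b).2)
    rw [if_neg h1, if_neg h2, sub_zero])
  -- the vector
  have hvec : ∑ i, t i • a i
      = yv (fun b s => leafvec a (v b s)) j - yv (fun b s => leafvec a (v b s)) j' := by
    rw [yv_sub]
    simp only [hLv]
    have h1 : ∀ i, t i • a i = n⁻¹ • ∑ b, ((if i = L b (j b) then a i else 0)
        - (if i = L b (j' b) then a i else 0)) := by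
      intro i
      simp only [ht]
      rw [mul_smul, Finset.sum_smul]
      congr 1
      refine Finset.sum_congr rfl fun b _ => ?_
      rw [sub_smul, ite_smul, ite_smul, one_smul, zero_smul]
    simp_rw [h1]
    rw [← Finset.smul_sum, Finset.sum_comm]
    congr 1
    refine Finset.sum_congr rfl fun b _ => ?_
    rw [Finset.sum_sub_distrib, Finset.sum_ite_eq', Finset.sum_ite_eq']
    simp
  -- the norm
  set ε : Fin (2 ^ (H + 1) - 1) → ℝ := fun i => if ∃ b, i = L b (j b) then 1 else -1 with hε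
  have hεabs : ∀ i, |ε i| = 1 := by
    intro i
    simp only [hε]
    split_ifs <;> simp
  have hlow : 1 ≤ ∑ i, |t i| := by
    have h1 : ∑ i, ε i * t i ≤ ∑ i, |t i| := by
      refine Finset.sum_le_sum fun i _ => ?_
      refine (le_abs_self _).trans ?_
      rw [abs_mul, hεabs, one_mul]
    refine le_trans ?_ h1
    have h2 : ∑ i, ε i * t i = n⁻¹ * ∑ b, (ε (L b (j b)) - ε (L b (j' b))) := by
      simp only [ht]
      have h3 : ∀ i, ε i * (n⁻¹ * ∑ b, ((if i = L b (j b) then (1:ℝ) else 0)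
          - (if i = L b (j' b) then 1 else 0)))
          = n⁻¹ * ∑ b, ((if i = L b (j b) then ε i else 0) - (if i = L b (j' b) then ε i else 0)) := by
        intro i
        rw [← mul_assoc, mul_comm (ε i), mul_assoc, Finset.mul_sum]
        congr 1
        refine Finset.sum_congr rfl fun b _ => ?_
        rw [mul_sub, mul_ite, mul_ite, mul_one, mul_zero]
      simp_rw [h3]
      rw [← Finset.mul_sum, Finset.sum_comm]
      congr 1
      refine Finset.sum_congr rfl fun b _ => ?_
      rw [Finset.sum_sub_distrib, Finset.sum_ite_eq', Finset.sum_ite_eq']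
      simp
    rw [h2]
    have h4 : ∀ b, ε (L b (j b)) - ε (L b (j' b)) = if j b ≠ j' b then 2 else 0 := by
      intro b
      have h5 : ε (L b (j b)) = 1 := by
        simp only [hε]
        rw [if_pos ⟨b, rfl⟩]
      rw [h5]
      by_cases hb : j b = j' b
      · rw [← hb, h5]
        simp
      · have h6 : ε (L b (j' b)) = -1 := by
          simp only [hε]
          rw [if_neg]
          rintro ⟨b', hb'⟩
          obtain ⟨h7, h8⟩ := hLinj _ _ _ _ hb'
          subst h7
          exact hb h8.symm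
        rw [h6, if_pos hb]
        norm_num
    simp_rw [h4]
    rw [← Finset.sum_filter, Finset.sum_const, nsmul_eq_mul]
    have h9 : (Finset.univ.filter fun b => j b ≠ j' b).card = hammingDist j j' := rfl
    rw [h9, le_inv_mul_iff₀ hnpos, mul_one, hn]
    have : ((2 ^ β : ℕ) : ℝ) ≤ ((2 * hammingDist j j' : ℕ) : ℝ) := by exact_mod_cast hj
    push_cast at this ⊢
    linarith
  rw [hvec] at hNSP'
  rw [div_le_iff₀ hC]
  linarith

end D546neg
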