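/-
MP_d546a0_lc, negation S15426: decoder => null space property in coordinates (helper64).
-/
import Pool.Agent.H.MP_d546a0_lc.neg.Defs

set_option autoImplicit false

namespace D546neg

open MeasureTheory ProbabilityTheory
open scoped RealInnerProductSpace BigOperators

namespace Coords

/-- parent-closed -/
def Closed {n : ℕ} (T : Finset (Fin n)) : Prop :=
  ∀ i ∈ T, i.val ≠ 0 → ∃ j ∈ T, j.val + 1 = (i.val + 1) / 2

lemma root_mem {n : ℕ} {T : Finset (Fin n)} (hT : Closed T) (hne : T.Nonempty) :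
    ∃ r ∈ T, r.val = 0 := by
  obtain ⟨r, hr, hmin⟩ := T.exists_min_image (fun i => i.val) hne
  refine ⟨r, hr, ?_⟩
  by_contra h0
  obtain ⟨j, hj, hj2⟩ := hT r hr h0
  have := hmin j hj
  omega

lemma extend_one {n : ℕ} {T : Finset (Fin n)} (hT : Closed T) (hlt : T.card < n) :
    ∃ T' : Finset (Fin n), T ⊆ T' ∧ T'.card = T.card + 1 ∧ Closed T' := by
  classical
  have hne : (Finset.univ \ T : Finset (Fin n)).Nonempty := by
    rw [← Finset.card_pos, Finset.card_sdiff_of_subset (Finset.subset_univ T), Finset.card_univ, Fintype.card_fin]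
    omega
  obtain ⟨i, hi, hmin⟩ := (Finset.univ \ T).exists_min_image (fun i => i.val) hne
  have hiT : i ∉ T := (Finset.mem_sdiff.1 hi).2
  refine ⟨insert i T, Finset.subset_insert _ _, Finset.card_insert_of_notMem hiT, ?_⟩
  intro u hu hu0
  rcases Finset.mem_insert.1 hu with rfl | hu
  · have hlt2 : (u.val + 1) / 2 - 1 < u.val := by omega
    let j : Fin n := ⟨(u.val + 1) / 2 - 1, by omega⟩
    refine ⟨j, ?_, ?_⟩
    · by_contra hj
      have hj2 : j ∉ T := fun h => hj (Finset.mem_insert_of_mem h)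
      have := hmin j (Finset.mem_sdiff.2 ⟨Finset.mem_univ _, hj2⟩)
      simp only [j] at this
      omega
    · simp only [j]; omega
  · obtain ⟨j, hj, hj2⟩ := hT u hu hu0
    exact ⟨j, Finset.mem_insert_of_mem hj, hj2⟩

lemma extend {n k : ℕ} (hkn : k ≤ n) {T : Finset (Fin n)} (hT : Closed T) (hle : T.card ≤ k) :
    ∃ T' : Finset (Fin n), T ⊆ T' ∧ T'.card = k ∧ Closed T' := by
  obtain ⟨d, hd⟩ := Nat.exists_eq_add_of_le hle
  induction d generalizing T with
  | zero => exact ⟨T, subset_rfl, by omega, hT⟩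
  | succ d ih =>
    obtain ⟨T1, h1, h2, h3⟩ := extend_one hT (by omega)
    obtain ⟨T', h4, h5, h6⟩ := ih h3 (by omega) (by omega)
    exact ⟨T', h1.trans h4, h5, h6⟩

/-- the null space property -/
lemma nsp {n k m' : ℕ} (C : ℝ) (hC : 0 < C) (hk : 1 ≤ k) (hk2 : k ≤ n)
    (A : Matrix (Fin m') (Fin n) ℝ)
    (R : (Fin m' → ℝ) → (Fin n → ℝ))
    (hR : ∀ x x' : Fin n → ℝ,
          (∃ T : Finset (Fin n), T.card = k ∧ (∃ r ∈ T, r.val = 0) ∧
             (∀ i ∈ T, i.val ≠ 0 → ∃ j ∈ T, j.val + 1 = (i.val + 1) / 2) ∧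
             (∀ i, i ∉ T → x' i = 0)) →
          ∑ i, |R (Matrix.mulVec A x) i - x i| ≤ C * ∑ i, |x' i - x i|)
    (T : Finset (Fin n)) (hTk : T.card ≤ k) (hT : Closed T) (t : Fin n → ℝ)
    (ht : ∀ i, i ∉ T → t i = 0) (z : Fin n → ℝ) (hz : A.mulVec z = 0) :
    ∑ i, |t i| ≤ (C + 1) * ∑ i, |t i + z i| := by
  classical
  obtain ⟨T', hTT', hT'k, hT'⟩ := extend hk2 hT hTk
  have hroot : ∃ r ∈ T', r.val = 0 := root_mem hT' (by
    rw [← Finset.card_pos]; omega)
  set x : Fin n → ℝ := fun i => if i ∈ T' then z i else 0 with hx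
  set y : Fin n → ℝ := fun i => if i ∈ T' then 0 else - z i with hy
  have hxy : A.mulVec x = A.mulVec y := by
    have : x - y = z := by
      funext i
      by_cases hi : i ∈ T' <;> simp [hx, hy, hi]
    have h2 : A.mulVec (x - y) = 0 := by rw [this, hz]
    rw [Matrix.mulVec_sub] at h2
    exact sub_eq_zero.1 h2
  have h1 : ∑ i, |R (A.mulVec x) i - x i| ≤ 0 := by
    have := hR x x ⟨T', hT'k, hroot, hT', fun i hi => by simp [hx, hi]⟩
    simpa using this
  have h1' : ∀ i, R (A.mulVec x) i = x i := by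
    intro i
    have h3 : |R (A.mulVec x) i - x i| ≤ 0 :=
      (Finset.single_le_sum (f := fun i => |R (A.mulVec x) i - x i|)
        (fun i _ => abs_nonneg _) (Finset.mem_univ i)).trans h1
    have := abs_nonpos_iff.1 h3
    linarith
  have h2 := hR y 0 ⟨T', hT'k, hroot, hT', fun i hi => by simp⟩
  rw [← hxy] at h2
  have h3 : ∑ i, |z i| ≤ C * ∑ i, |y i| := by
    refine le_trans (le_of_eq ?_) (h2.trans (le_of_eq ?_))
    · refine Finset.sum_congr rfl fun i _ => ?_
      rw [h1' i]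
      by_cases hi : i ∈ T' <;> simp [hx, hy, hi]
    · congr 1
      refine Finset.sum_congr rfl fun i _ => ?_
      simp
  have h4 : ∑ i, |t i| ≤ ∑ i, (if i ∈ T' then |t i + z i| else 0) + ∑ i, |z i| := by
    rw [← Finset.sum_add_distrib]
    refine Finset.sum_le_sum fun i _ => ?_
    by_cases hi : i ∈ T'
    · simp only [hi, if_true]
      have := abs_sub (t i + z i) (z i)
      simpa using this
    · have : t i = 0 := ht i fun h => hi (hTT' h)
      simp [hi, this]
  have h5 : ∑ i, |y i| = ∑ i, (if i ∈ T' then 0 else |t i + z i|) := by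
    refine Finset.sum_congr rfl fun i _ => ?_
    by_cases hi : i ∈ T'
    · simp [hy, hi]
    · have : t i = 0 := ht i fun h => hi (hTT' h)
      simp [hy, hi, this]
  have h6 : ∑ i, |t i + z i| = ∑ i, (if i ∈ T' then |t i + z i| else 0)
      + ∑ i, (if i ∈ T' then 0 else |t i + z i|) := by
    rw [← Finset.sum_add_distrib]
    refine Finset.sum_congr rfl fun i _ => ?_
    by_cases hi : i ∈ T' <;> simp [hi]
  have h7 : 0 ≤ ∑ i, (if i ∈ T' then |t i + z i| else 0) :=
    Finset.sum_nonneg fun i _ => by split_ifs <;> positivity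
  have h8 : 0 ≤ ∑ i, (if i ∈ T' then 0 else |t i + z i|) :=
    Finset.sum_nonneg fun i _ => by split_ifs <;> positivity
  rw [h6]
  rw [h5] at h3
  nlinarith

/-- coordinates -/
lemma coord {ι : Type*} [Fintype ι] [DecidableEq ι] {m' : ℕ} (A : Matrix (Fin m') ι ℝ) :
    ∃ m : ℕ, m ≤ m' ∧ ∃ (a : ι → (Fin m → ℝ)) (c : Fin m → ι),
      (∀ i, a (c i) = Pi.single i 1) ∧ (∀ v i, |a v i| ≤ 1) ∧
      ∀ z : ι → ℝ, (∑ v, z v • a v = 0 ↔ A.mulVec z = 0) := by
  classical
  set W := LinearMap.range A.mulVecLin with hW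
  set m := Module.finrank ℝ W with hm
  have hmm : m ≤ m' := by
    have := Submodule.finrank_le W
    simpa using this
  let e : W ≃ₗ[ℝ] (Fin m → ℝ) := (Module.finBasis ℝ W).equivFun
  let β : ι → (Fin m → ℝ) := fun v => e ⟨A.mulVecLin (Pi.single v 1), LinearMap.mem_range_self _ _⟩
  have hβ : ∀ z : ι → ℝ, ∑ v, z v • β v = e ⟨A.mulVecLin z, LinearMap.mem_range_self _ _⟩ := by
    intro z
    have h1 : (⟨A.mulVecLin z, LinearMap.mem_range_self _ _⟩ : W)
        = ∑ v, z v • (⟨A.mulVecLin (Pi.single v 1), LinearMap.mem_range_self _ _⟩ : W) := by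
      apply Subtype.ext
      rw [Submodule.coe_sum]
      simp only [Submodule.coe_smul]
      have hz : z = ∑ v, z v • (Pi.single v 1 : ι → ℝ) := by
        funext i
        simp [Finset.sum_apply, Pi.single_apply]
      conv_lhs => rw [hz]
      rw [map_sum]
      simp only [map_smul]
    rw [h1, map_sum]
    simp only [map_smul, β]
  have hspan : Submodule.span ℝ (Set.range β) = ⊤ := by
    rw [eq_top_iff]
    rintro x -
    obtain ⟨⟨w, z, hz⟩, rfl⟩ := e.surjective x
    have : e ⟨w, ⟨z, hz⟩⟩ = ∑ v, z v • β v := by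
      rw [hβ]
      congr 1
      exact Subtype.ext hz.symm
    rw [this]
    exact Submodule.sum_mem _ fun v _ => Submodule.smul_mem _ _ (Submodule.subset_span ⟨v, rfl⟩)
  have hex : ∃ c : Fin m → ι, (Matrix.of fun i j => β (c j) i).det ≠ 0 := by
    obtain ⟨κ, f, hf, hsp, hli⟩ := exists_linearIndependent' ℝ β
    have : Finite κ := Finite.of_injective f hf
    let _ : Fintype κ := Fintype.ofFinite κ
    rw [hspan] at hsp
    let b : Module.Basis κ ℝ (Fin m → ℝ) := Module.Basis.mk hli (by rw [hsp])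
    have hcard : Fintype.card κ = m := by
      have := Module.finrank_eq_card_basis b
      simpa using this.symm
    let eq : Fin m ≃ κ := (Fintype.equivFinOfCardEq hcard).symm
    refine ⟨fun i => f (eq i), ?_⟩
    have h1 : LinearIndependent ℝ (fun j : Fin m => β (f (eq j))) := hli.comp eq eq.injective
    have h2 : LinearIndependent ℝ (Matrix.of fun i j => β (f (eq j)) i).col := h1
    have h3 := Matrix.linearIndependent_cols_iff_isUnit.1 h2
    exact ((Matrix.isUnit_iff_isUnit_det _).1 h3).ne_zero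
  obtain ⟨c0, hc0⟩ := hex
  obtain ⟨c, -, hcmax⟩ := (Finset.univ : Finset (Fin m → ι)).exists_max_image
    (fun c => |(Matrix.of fun i j => β (c j) i).det|) ⟨c0, Finset.mem_univ _⟩
  set M : Matrix (Fin m) (Fin m) ℝ := Matrix.of fun i j => β (c j) i with hM
  have hMpos : 0 < |M.det| := lt_of_lt_of_le (abs_pos.2 hc0) (hcmax c0 (Finset.mem_univ _))
  have hMdet : M.det ≠ 0 := abs_pos.1 hMpos
  have hMu : IsUnit M.det := isUnit_iff_ne_zero.2 hMdet
  refine ⟨m, hmm, fun v => M⁻¹.mulVec (β v), c, ?_, ?_, ?_⟩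
  · intro i
    have h1 : β (c i) = M.mulVec (Pi.single i 1) := by
      funext j
      simp [hM]
    simp only
    rw [h1, Matrix.mulVec_mulVec, Matrix.nonsing_inv_mul _ hMu, Matrix.one_mulVec]
  · intro v i
    have h1 : M.det * (M⁻¹.mulVec (β v)) i = (M.updateCol i (β v)).det := by
      have h2 : M⁻¹.mulVec (β v) = (M.det)⁻¹ • M.cramer (β v) := by
        rw [Matrix.cramer_eq_adjugate_mulVec, Matrix.inv_def, Matrix.smul_mulVec]
        simp
      rw [h2, Pi.smul_apply, smul_eq_mul, ← mul_assoc, mul_inv_cancel₀ hMdet, one_mul,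
        Matrix.cramer_apply]
    have h3 : M.updateCol i (β v) = Matrix.of fun i' j => β (Function.update c i v j) i' := by
      ext i' j
      by_cases hj : j = i
      · subst hj; simp
      · simp [hj, hM]
    have h4 := hcmax (Function.update c i v) (Finset.mem_univ _)
    rw [← h3, ← h1, abs_mul] at h4
    have h5 : |M.det| * |(M⁻¹.mulVec (β v)) i| ≤ |M.det| * 1 := by rw [mul_one]; exact h4
    exact le_of_mul_le_mul_left h5 hMpos
  · intro z
    have h1 : ∑ v, z v • M⁻¹.mulVec (β v) = M⁻¹.mulVec (∑ v, z v • β v) := by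
      rw [Matrix.mulVec_sum]
      simp [Matrix.mulVec_smul]
    rw [h1]
    constructor
    · intro h
      have h2 : M.mulVec (M⁻¹.mulVec (∑ v, z v • β v)) = 0 := by rw [h, Matrix.mulVec_zero]
      rw [Matrix.mulVec_mulVec, Matrix.mul_nonsing_inv _ hMu, Matrix.one_mulVec, hβ] at h2
      have h3 := e.map_eq_zero_iff.1 h2
      have h4 := congrArg Subtype.val h3
      simpa using h4
    · intro h
      have h2 : (⟨A.mulVecLin z, LinearMap.mem_range_self _ _⟩ : W) = 0 := by
        apply Subtype.ext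
        simpa using h
      rw [hβ, h2, map_zero, Matrix.mulVec_zero]

/-- bipolar -/
lemma bipolar {ι : Type*} [Fintype ι] [DecidableEq ι] {m : ℕ} (a : ι → E m)
    (hdef : Definite (NK a)) (y : E m) :
    ∃ s : ι → ℝ, ∑ v, |s v| ≤ dualN (NK a) y ∧ ∑ v, s v • a v = y := by
  classical
  set ρ := dualN (NK a) y with hρ
  have hρ0 : 0 ≤ ρ := dualN_nonneg hdef y
  let B : Set (ι → ℝ) := {s | ∑ v, |s v| ≤ ρ}
  let L : (ι → ℝ) →ₗ[ℝ] E m :=
    { toFun := fun s => ∑ v, s v • a v
      map_add' := fun s t => by simp [add_smul, Finset.sum_add_distrib]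
      map_smul' := fun r s => by simp [mul_smul, Finset.smul_sum] }
  have hLc : Continuous L := L.continuous_of_finiteDimensional
  have hBclosed : IsClosed B := isClosed_le (by fun_prop) continuous_const
  have hBbdd : Bornology.IsBounded B := by
    refine (Metric.isBounded_closedBall (x := (0 : ι → ℝ)) (r := ρ)).subset ?_
    intro s hs
    rw [mem_closedBall_zero_iff, pi_norm_le_iff_of_nonneg hρ0]
    intro v
    refine le_trans ?_ (show ∑ v, |s v| ≤ ρ from hs)
    exact Finset.single_le_sum (f := fun v => |s v|) (fun i _ => abs_nonneg _) (Finset.mem_univ v)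
  have hBcomp : IsCompact B := Metric.isCompact_of_isClosed_isBounded hBclosed hBbdd
  have hBconv : Convex ℝ B := by
    intro s hs t ht p q hp hq hpq
    show ∑ v, |(p • s + q • t) v| ≤ ρ
    calc ∑ v, |(p • s + q • t) v| ≤ ∑ v, (p * |s v| + q * |t v|) := by
          refine Finset.sum_le_sum fun v _ => ?_
          simp only [Pi.add_apply, Pi.smul_apply, smul_eq_mul]
          refine (abs_add_le _ _).trans ?_
          rw [abs_mul, abs_mul, abs_of_nonneg hp, abs_of_nonneg hq]
      _ = p * ∑ v, |s v| + q * ∑ v, |t v| := by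
          rw [Finset.sum_add_distrib, Finset.mul_sum, Finset.mul_sum]
      _ ≤ p * ρ + q * ρ := add_le_add (mul_le_mul_of_nonneg_left hs hp)
          (mul_le_mul_of_nonneg_left ht hq)
      _ = ρ := by rw [← add_mul, hpq, one_mul]
  by_contra hcon
  have hy : y ∉ L '' B := by
    rintro ⟨s, hs, hs2⟩
    exact hcon ⟨s, hs, hs2⟩
  obtain ⟨f, u, hf1, hf2⟩ := geometric_hahn_banach_closed_point (hBconv.linear_image L)
    (hBcomp.image hLc).isClosed hy
  set x : E m := (InnerProductSpace.toDual ℝ (E m)).symm f with hx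
  have hfx : ∀ w, f w = ⟪x, w⟫ := fun w => by
    rw [hx, InnerProductSpace.toDual_symm_apply]
  have hu0 : 0 < u := by
    have := hf1 0 ⟨0, by show ∑ v, |(0 : ι → ℝ) v| ≤ ρ; simpa using hρ0, by simp⟩
    simpa using this
  have hall : ∀ v, ρ * |⟪a v, x⟫| ≤ u := by
    intro v
    have key : ∀ ε : ℝ, |ε| = 1 → ε * ρ * ⟪x, a v⟫ < u := by
      intro ε hε
      have := hf1 (L (Pi.single v (ε * ρ))) ⟨Pi.single v (ε * ρ), by
        show ∑ i, |(Pi.single v (ε * ρ) : ι → ℝ) i| ≤ ρ
        rw [Finset.sum_eq_single v]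
        · simp [abs_mul, hε, abs_of_nonneg hρ0]
        · intro b _ hb; simp [hb]
        · intro h; exact absurd (Finset.mem_univ _) h, rfl⟩
      rw [hfx] at this
      have hL : L (Pi.single v (ε * ρ)) = (ε * ρ) • a v := by
        show ∑ i, (Pi.single v (ε * ρ) : ι → ℝ) i • a i = _
        rw [Finset.sum_eq_single v]
        · simp
        · intro b _ hb; simp [hb]
        · intro h; exact absurd (Finset.mem_univ _) h
      rw [hL, real_inner_smul_right] at this
      exact this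
    have h1 := key 1 (by simp)
    have h2 := key (-1) (by simp)
    rw [real_inner_comm]
    rcases abs_cases ⟪x, a v⟫ with ⟨h, _⟩ | ⟨h, _⟩ <;> rw [h] <;> nlinarith
  have hNK : NK a x * ρ ≤ u := by
    rcases hρ0.eq_or_lt with h0 | h0
    · rw [← h0, mul_zero]; exact hu0.le
    · rw [← le_div_iff₀ h0]
      rw [NK_le_iff (div_nonneg hu0.le h0.le)]
      intro v
      rw [le_div_iff₀ h0, mul_comm]
      exact hall v
  have h1 := inner_le_mul_dualN hdef x y
  rw [hfx] at hf2
  linarith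

end Coords

open Coords in
/-- decoder ⇒ null space property in coordinates. -/
theorem coords (h k m' : ℕ) (C : ℝ) (hC : 0 < C) (hk : 1 ≤ k) (hk2 : k ≤ 2 ^ h - 1)
    (A : Matrix (Fin m') (Fin (2 ^ h - 1)) ℝ)
    (R : (Fin m' → ℝ) → (Fin (2 ^ h - 1) → ℝ))
    (hR : ∀ x x' : Fin (2 ^ h - 1) → ℝ,
          (∃ T : Finset (Fin (2 ^ h - 1)), T.card = k ∧ (∃ r ∈ T, r.val = 0) ∧
             (∀ i ∈ T, i.val ≠ 0 → ∃ j ∈ T, j.val + 1 = (i.val + 1) / 2) ∧
             (∀ i, i ∉ T → x' i = 0)) →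
          ∑ i, |R (Matrix.mulVec A x) i - x i| ≤ C * ∑ i, |x' i - x i|) :
    ∃ m : ℕ, 1 ≤ m ∧ m ≤ m' ∧ ∃ a : Fin (2 ^ h - 1) → E m,
      (∀ x, ‖x‖ ≤ √(m:ℝ) * NK a x) ∧ (∀ x, NK a x ≤ √(m:ℝ) * ‖x‖) ∧
      ∀ (T : Finset (Fin (2 ^ h - 1))), T.card ≤ k →
        (∀ i ∈ T, i.val ≠ 0 → ∃ j ∈ T, j.val + 1 = (i.val + 1) / 2) →
        ∀ t : Fin (2 ^ h - 1) → ℝ, (∀ i, i ∉ T → t i = 0) →
          ∑ i, |t i| ≤ (C + 1) * dualN (NK a) (∑ i, t i • a i) := by
  classical
  have hnsp := nsp C hC hk hk2 A R hR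
  obtain ⟨m, hmm, a0, c, hc, ha0, hker⟩ := coord A
  let a : Fin (2 ^ h - 1) → E m := fun v => WithLp.toLp 2 (a0 v)
  have hsum : ∀ z : Fin (2 ^ h - 1) → ℝ, ∑ v, z v • a v = 0 ↔ A.mulVec z = 0 := by
    intro z
    rw [← hker z]
    have h1 : ∑ v, z v • a v = WithLp.toLp 2 (∑ v, z v • a0 v) := by
      ext i
      rw [WithLp.ofLp_sum]
      simp [a]
    rw [h1]
    constructor
    · intro h2
      simpa using congrArg WithLp.ofLp h2
    · intro h2
      rw [h2]; rfl
  have hm1 : 1 ≤ m := by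
    by_contra hm0
    have hm0 : m = 0 := by omega
    subst hm0
    have hall : ∀ z : Fin (2 ^ h - 1) → ℝ, A.mulVec z = 0 := fun z => by
      rw [← hsum z]; exact Subsingleton.elim _ _
    let r : Fin (2 ^ h - 1) := ⟨0, by omega⟩
    have h1 := hnsp {r} (by simpa using hk) (by
      intro i hi h0
      rw [Finset.mem_singleton] at hi
      subst hi
      exact absurd rfl h0) (Pi.single r 1) (by
      intro i hi
      rw [Finset.mem_singleton] at hi
      simp [hi]) (-(Pi.single r 1)) (hall _)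
    have h2 : ∑ i, |(Pi.single r 1 : Fin (2 ^ h - 1) → ℝ) i| = 1 := by
      rw [Finset.sum_eq_single r]
      · simp
      · intro b _ hb; simp [hb]
      · intro h; exact absurd (Finset.mem_univ _) h
    rw [h2] at h1
    simp at h1
    linarith
  have hlow : ∀ x, ‖x‖ ≤ √(m:ℝ) * NK a x := by
    intro x
    have hN0 : 0 ≤ NK a x := apply_nonneg _ _
    have h1 : ∀ i, ‖x i‖ ≤ NK a x := by
      intro i
      have h2 := le_NK a x (c i)
      have h3 : ⟪a (c i), x⟫ = x i := by
        have : a (c i) = EuclideanSpace.single i (1:ℝ) := by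
          ext j
          simp [a, hc i, Pi.single_apply]
        rw [this]
        simp [EuclideanSpace.inner_single_left]
      rw [h3] at h2
      exact h2
    rw [EuclideanSpace.norm_eq]
    have h4 : ∑ i, ‖x i‖ ^ 2 ≤ m * (NK a x) ^ 2 := by
      calc ∑ i, ‖x i‖ ^ 2 ≤ ∑ _i : Fin m, (NK a x) ^ 2 :=
            Finset.sum_le_sum fun i _ => pow_le_pow_left₀ (norm_nonneg _) (h1 i) 2
        _ = _ := by simp
    calc √(∑ i, ‖x i‖ ^ 2) ≤ √(m * (NK a x) ^ 2) := Real.sqrt_le_sqrt h4
      _ = √(m:ℝ) * NK a x := by rw [Real.sqrt_mul (by positivity), Real.sqrt_sq hN0]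
  have hna : ∀ v, ‖a v‖ ≤ √(m:ℝ) := by
    intro v
    rw [EuclideanSpace.norm_eq]
    refine Real.sqrt_le_sqrt ?_
    calc ∑ i, ‖a v i‖ ^ 2 ≤ ∑ _i : Fin m, (1:ℝ) :=
          Finset.sum_le_sum fun i _ => by
            have := ha0 v i
            have h2 : ‖a v i‖ ≤ 1 := this
            calc ‖a v i‖ ^ 2 ≤ 1 ^ 2 := pow_le_pow_left₀ (norm_nonneg _) h2 2
              _ = 1 := by norm_num
      _ = m := by simp
  have hup : ∀ x, NK a x ≤ √(m:ℝ) * ‖x‖ := by
    intro x
    rw [NK_le_iff (by positivity)]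
    intro v
    exact (abs_real_inner_le_norm _ _).trans (mul_le_mul_of_nonneg_right (hna v) (norm_nonneg _))
  have hdef : Definite (NK a) := by
    refine ⟨(√(m:ℝ))⁻¹, ?_, fun x => ?_⟩
    · have : (0:ℝ) < m := by exact_mod_cast hm1
      positivity
    · have hs : 0 < √(m:ℝ) := Real.sqrt_pos.2 (by exact_mod_cast hm1)
      rw [inv_mul_le_iff₀ hs]
      exact hlow x
  refine ⟨m, hm1, hmm, a, hlow, hup, ?_⟩
  intro T hTk hT t ht
  obtain ⟨s, hs1, hs2⟩ := bipolar a hdef (∑ i, t i • a i)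
  have hz : A.mulVec (s - t) = 0 := by
    rw [← hsum]
    simp only [Pi.sub_apply, sub_smul, Finset.sum_sub_distrib]
    rw [hs2, sub_self]
  have h1 := hnsp T hTk hT t ht (s - t) hz
  have h2 : ∑ i, |t i + (s - t) i| = ∑ i, |s i| :=
    Finset.sum_congr rfl fun i _ => by simp
  rw [h2] at h1
  exact h1.trans (mul_le_mul_of_nonneg_left hs1 (by linarith))

end D546neg
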