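/-
MP_d546a0_lc, negation S15426: cube averages (helper18).
-/
import Pool.Agent.H.MP_d546a0_lc.neg.Defs

set_option autoImplicit false

namespace D546neg

open MeasureTheory ProbabilityTheory
open scoped RealInnerProductSpace BigOperators

/-- the sign of a Boolean. -/
def sg (b : Bool) : ℝ := if b then 1 else -1

@[simp] lemma sg_true : sg true = 1 := rfl
@[simp] lemma sg_false : sg false = -1 := rfl
@[simp] lemma sg_not (b : Bool) : sg (!b) = -sg b := by cases b <;> simp [sg]
@[simp] lemma sg_mul_self (b : Bool) : sg b * sg b = 1 := by cases b <;> simp [sg]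
@[simp] lemma sg_sq (b : Bool) : sg b ^ 2 = 1 := by cases b <;> simp [sg]
@[simp] lemma abs_sg (b : Bool) : |sg b| = 1 := by cases b <;> simp [sg]

section
variable {I : Type*} [Fintype I] [DecidableEq I] {V : Type*} [AddCommGroup V] [Module ℝ V]

/-- average over the cube `{±1}^I`. -/
noncomputable def cavg (f : (I → Bool) → V) : V := ((2:ℝ) ^ Fintype.card I)⁻¹ • ∑ w, f w

lemma cavg_add (f g : (I → Bool) → V) : cavg (fun w => f w + g w) = cavg f + cavg g := by
  simp [cavg, Finset.sum_add_distrib, smul_add]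

lemma cavg_sub (f g : (I → Bool) → V) : cavg (fun w => f w - g w) = cavg f - cavg g := by
  simp [cavg, Finset.sum_sub_distrib, smul_sub]

lemma cavg_smul (c : ℝ) (f : (I → Bool) → V) : cavg (fun w => c • f w) = c • cavg f := by
  simp only [cavg, ← Finset.smul_sum]
  rw [smul_comm]

lemma cavg_sum {ι : Type*} (s : Finset ι) (f : ι → (I → Bool) → V) :
    cavg (fun w => ∑ i ∈ s, f i w) = ∑ i ∈ s, cavg (f i) := by
  simp only [cavg]
  rw [Finset.sum_comm, Finset.smul_sum]

lemma cavg_const (c : V) : cavg (fun _ : I → Bool => c) = c := by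
  simp only [cavg, Finset.sum_const, Finset.card_univ, Fintype.card_fun, Fintype.card_bool]
  rw [← Nat.cast_smul_eq_nsmul ℝ, smul_smul]
  push_cast
  rw [inv_mul_cancel₀ (by positivity), one_smul]

lemma cavg_map {W : Type*} [AddCommGroup W] [Module ℝ W] (L : V →ₗ[ℝ] W) (f : (I → Bool) → V) :
    L (cavg f) = cavg (fun w => L (f w)) := by
  simp [cavg, map_sum]

lemma cavg_mono {f g : (I → Bool) → ℝ} (h : ∀ w, f w ≤ g w) : cavg f ≤ cavg g := by
  simp only [cavg, smul_eq_mul]
  exact mul_le_mul_of_nonneg_left (Finset.sum_le_sum fun w _ => h w) (by positivity)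

lemma cavg_nonneg {f : (I → Bool) → ℝ} (h : ∀ w, 0 ≤ f w) : 0 ≤ cavg f := by
  simp only [cavg, smul_eq_mul]
  exact mul_nonneg (by positivity) (Finset.sum_nonneg fun w _ => h w)

lemma seminorm_cavg_le {m : ℕ} (N : Seminorm ℝ (E m)) (f : (I → Bool) → E m) :
    N (cavg f) ≤ cavg (fun w => N (f w)) := by
  simp only [cavg]
  rw [map_smul_eq_mul, Real.norm_of_nonneg (by positivity), smul_eq_mul]
  exact mul_le_mul_of_nonneg_left (seminorm_sum_le N _ _) (by positivity)

end

/-- the normalised cube vector `S = M^{-1/2} (∑_j w (i,j))_i`. -/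
noncomputable def Sv {m M : ℕ} (w : Fin m × Fin M → Bool) : E m :=
  (√(M:ℝ))⁻¹ • WithLp.toLp 2 (fun i => ∑ j, sg (w (i, j)))

end D546neg
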