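/-
MP_d546a0_lc, negation S15426, lemma A2: the Gaussian position lemma as the limit of the cube
version (helper74).
-/
import Pool.Agent.H.MP_d546a0_lc.neg.Cube

set_option autoImplicit false

namespace D546neg

open MeasureTheory ProbabilityTheory Filter Topology
open scoped RealInnerProductSpace BigOperators

/-- law of `Sv` under the uniform measure on the cube. -/
noncomputable def gpMu (m M : ℕ) : Measure (E m) :=
  ∑ w : Fin m × Fin M → Bool, ENNReal.ofReal ((2:ℝ) ^ Fintype.card (Fin m × Fin M))⁻¹ •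
    Measure.dirac (Sv w)

instance gpMu_prob (m M : ℕ) : IsProbabilityMeasure (gpMu m M) := by
  constructor
  simp only [gpMu, Measure.coe_finsetSum, Finset.sum_apply, Measure.smul_apply, measure_univ,
    smul_eq_mul, mul_one, Finset.sum_const, Finset.card_univ, Fintype.card_fun, Fintype.card_bool]
  rw [nsmul_eq_mul, ← ENNReal.ofReal_natCast, ← ENNReal.ofReal_mul (by positivity)]
  push_cast
  rw [mul_inv_cancel₀ (by positivity), ENNReal.ofReal_one]

lemma gpMu_integral {F : Type*} [NormedAddCommGroup F] [NormedSpace ℝ F] [CompleteSpace F]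
    (m M : ℕ) (f : E m → F) :
    ∫ x, f x ∂(gpMu m M) = cavg (fun w : Fin m × Fin M → Bool => f (Sv w)) := by
  unfold gpMu
  rw [integral_finsetSum_measure]
  · simp only [integral_smul_measure, integral_dirac]
    rw [ENNReal.toReal_ofReal (by positivity), ← Finset.smul_sum]
    rfl
  · intro w _
    exact (integrable_dirac (by simp)).smul_measure ENNReal.ofReal_ne_top

/-- product formula for averages of products. -/
lemma gp_cavg_prod {I : Type*} [Fintype I] [DecidableEq I] (g : I → Bool → ℂ) :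
    cavg (fun w : I → Bool => ∏ p, g p (w p)) = ∏ p, ((g p true + g p false) / 2) := by
  unfold cavg
  have h : ∏ p, ∑ b, g p b = ∑ w : I → Bool, ∏ p, g p (w p) := by
    rw [Finset.prod_univ_sum, Fintype.piFinset_univ]
  rw [← h]
  simp only [Fintype.sum_bool]
  rw [Finset.prod_div_distrib, Finset.prod_const, Finset.card_univ, Complex.real_smul]
  push_cast
  rw [div_eq_inv_mul]

lemma gp_charFun (m M : ℕ) (t : E m) :
    charFun (gpMu m M) t = ∏ i, ((Real.cos ((√(M:ℝ))⁻¹ * t i) : ℝ) : ℂ) ^ M := by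
  rw [charFun_apply, gpMu_integral]
  have h1 : ∀ w : Fin m × Fin M → Bool,
      Complex.exp ((⟪Sv w, t⟫ : ℝ) * Complex.I) =
        ∏ p : Fin m × Fin M, Complex.exp (((sg (w p) * ((√(M:ℝ))⁻¹ * t p.1) : ℝ) : ℂ) * Complex.I) := by
    intro w
    rw [← Complex.exp_sum, ← Finset.sum_mul, ← Complex.ofReal_sum]
    congr 3
    rw [Sv, real_inner_smul_left, PiLp.inner_apply, Fintype.sum_prod_type, Finset.mul_sum]
    refine Finset.sum_congr rfl fun i _ => ?_
    simp only [RCLike.inner_apply, conj_trivial]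
    rw [Finset.mul_sum, Finset.mul_sum]
    refine Finset.sum_congr rfl fun j _ => ?_
    ring
  simp only [h1]
  rw [gp_cavg_prod (fun (p : Fin m × Fin M) (b : Bool) =>
    Complex.exp (((sg b * ((√(M:ℝ))⁻¹ * t p.1) : ℝ) : ℂ) * Complex.I)), Fintype.prod_prod_type]
  refine Finset.prod_congr rfl fun i _ => ?_
  dsimp only
  rw [Finset.prod_const, Finset.card_univ, Fintype.card_fin]
  congr 1
  simp only [sg_true, sg_false, one_mul, neg_mul]
  rw [Complex.ofReal_cos, Complex.cos]
  push_cast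
  ring_nf

lemma gp_cos_limit (s : ℝ) :
    Tendsto (fun M : ℕ => ((Real.cos ((√(M:ℝ))⁻¹ * s) : ℝ) : ℂ) ^ M) atTop
      (𝓝 (Complex.exp (-s ^ 2 / 2))) := by
  have key : Tendsto (fun M : ℕ => (M:ℝ) * (Real.cos ((√(M:ℝ))⁻¹ * s) - 1)) atTop
      (𝓝 (-s ^ 2 / 2)) := by
    have h0 : Tendsto (fun M : ℕ => s ^ 4 * (5 / 96) * (M:ℝ)⁻¹) atTop (𝓝 0) := by
      have := tendsto_inv_atTop_nhds_zero_nat (𝕜 := ℝ)
      simpa using this.const_mul (s ^ 4 * (5 / 96))
    rw [tendsto_iff_dist_tendsto_zero]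
    refine squeeze_zero' (Eventually.of_forall fun _ => dist_nonneg) ?_ h0
    filter_upwards [eventually_ge_atTop (max 1 ⌈s ^ 2⌉₊)] with M hM
    have hM1 : 1 ≤ M := (le_max_left _ _).trans hM
    have hM2 : s ^ 2 ≤ M := (Nat.le_ceil _).trans (by exact_mod_cast (le_max_right _ _).trans hM)
    have hMpos : (0:ℝ) < M := by exact_mod_cast hM1
    have hsq : √(M:ℝ) ^ 2 = M := Real.sq_sqrt hMpos.le
    have hsp : 0 < √(M:ℝ) := Real.sqrt_pos.2 hMpos
    set a := (√(M:ℝ))⁻¹ * s with ha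
    have ha2 : a ^ 2 = s ^ 2 / M := by
      rw [ha, mul_pow, inv_pow, hsq]; field_simp
    have ha4 : |a| ^ 4 = s ^ 4 / M ^ 2 := by
      rw [show |a| ^ 4 = (|a| ^ 2) ^ 2 by ring, sq_abs, ha2]; ring
    have habs : |a| ≤ 1 := by
      rw [← sq_le_one_iff_abs_le_one, ha2, div_le_one hMpos]; exact hM2
    have hb := Real.cos_bound habs
    rw [ha4, ha2] at hb
    rw [Real.dist_eq]
    have e1 : (M:ℝ) * (Real.cos a - 1) - -s ^ 2 / 2 = M * (Real.cos a - (1 - s ^ 2 / M / 2)) := by
      field_simp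
      ring
    rw [e1, abs_mul, abs_of_pos hMpos]
    calc (M:ℝ) * |Real.cos a - (1 - s ^ 2 / M / 2)| ≤ M * (s ^ 4 / M ^ 2 * (5 / 96)) :=
          mul_le_mul_of_nonneg_left hb hMpos.le
      _ = s ^ 4 * (5 / 96) * (M:ℝ)⁻¹ := by field_simp
  have h2 : Tendsto (fun M : ℕ => (M:ℂ) * (((Real.cos ((√(M:ℝ))⁻¹ * s) - 1 : ℝ)) : ℂ)) atTop
      (𝓝 (-s ^ 2 / 2)) := by
    have := (Complex.continuous_ofReal.tendsto _).comp key
    refine (this.congr fun M => ?_).congr' (by rfl) |>.trans_eq ?_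
    · simp
    · push_cast; rfl
  have h3 := Complex.tendsto_one_add_pow_exp_of_tendsto h2
  refine h3.congr fun M => ?_
  push_cast
  ring

/-- `gpMu` as a probability measure. -/
noncomputable def gpPM (m M : ℕ) : ProbabilityMeasure (E m) := ⟨gpMu m M, gpMu_prob m M⟩

/-- `γ` as a probability measure. -/
noncomputable def gpG (m : ℕ) : ProbabilityMeasure (E m) := ⟨γ m, inferInstance⟩

lemma gpPM_coe (m M : ℕ) : (gpPM m M : Measure (E m)) = gpMu m M := rfl
lemma gpG_coe (m : ℕ) : (gpG m : Measure (E m)) = γ m := rfl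

lemma gp_tendsto (m : ℕ) :
    Tendsto (fun M : ℕ => gpPM m M) atTop (𝓝 (gpG m)) := by
  refine ProbabilityMeasure.tendsto_of_tendsto_charFun fun t => ?_
  simp only [gpPM_coe, gpG_coe]
  rw [charFun_stdGaussian]
  have h : Tendsto (fun M : ℕ => ∏ i, ((Real.cos ((√(M:ℝ))⁻¹ * t i) : ℝ) : ℂ) ^ M) atTop
      (𝓝 (∏ i, Complex.exp (-((t i : ℝ) : ℂ) ^ 2 / 2))) :=
    tendsto_finsetProd _ fun i _ => gp_cos_limit (t i)
  have e : ∏ i, Complex.exp (-((t i : ℝ) : ℂ) ^ 2 / 2) = Complex.exp (-‖t‖ ^ 2 / 2) := by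
    rw [← Complex.exp_sum]
    congr 1
    rw [← Finset.sum_div, Finset.sum_neg_distrib]
    congr 2
    rw [← Complex.ofReal_pow, EuclideanSpace.real_norm_sq_eq]
    push_cast
    rfl
  rw [← e]
  refine h.congr fun M => ?_
  rw [gp_charFun]

/-- second moment of `Sv`. -/
lemma gp_second_moment {m M : ℕ} (hM : 1 ≤ M) :
    cavg (fun w : Fin m × Fin M → Bool => ‖(Sv w : E m)‖ ^ 2) = m := by
  have hMpos : (0:ℝ) < M := by exact_mod_cast hM
  have h1 : ∀ w : Fin m × Fin M → Bool, ‖(Sv w : E m)‖ ^ 2 =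
      ∑ i : Fin m, ∑ j : Fin M, ∑ j' : Fin M, (M:ℝ)⁻¹ * (sg (w (i, j)) * sg (w (i, j'))) := by
    intro w
    rw [EuclideanSpace.real_norm_sq_eq]
    refine Finset.sum_congr rfl fun i _ => ?_
    have : (Sv w : E m) i = (√(M:ℝ))⁻¹ * ∑ j, sg (w (i, j)) := by
      simp [Sv]
    rw [this, mul_pow, inv_pow, Real.sq_sqrt hMpos.le, sq, Finset.sum_mul_sum, Finset.mul_sum]
    refine Finset.sum_congr rfl fun j _ => ?_
    rw [Finset.mul_sum]
  simp only [h1]
  rw [cavg_sum]
  simp only [cavg_sum]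
  have h2 : ∀ (i : Fin m) (j j' : Fin M),
      cavg (fun w : Fin m × Fin M → Bool => (M:ℝ)⁻¹ * (sg (w (i, j)) * sg (w (i, j')))) =
        if j = j' then (M:ℝ)⁻¹ else 0 := by
    intro i j j'
    split_ifs with h
    · subst h
      simp only [sg_mul_self, mul_one]
      exact cavg_const _
    · have hne : ((i, j') : Fin m × Fin M) ≠ (i, j) := by
        intro hh
        exact h (Prod.mk.inj hh).2.symm
      have e : cavg (fun w : Fin m × Fin M → Bool => (M:ℝ)⁻¹ * (sg (w (i, j)) * sg (w (i, j')))) =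
          - cavg (fun w : Fin m × Fin M → Bool =>
            (M:ℝ)⁻¹ * (sg (w (i, j)) * sg (w (i, j')))) := by
        unfold cavg
        rw [← smul_neg, ← Finset.sum_neg_distrib]
        congr 1
        let f : (Fin m × Fin M → Bool) → (Fin m × Fin M → Bool) :=
          fun w => Function.update w (i, j) (!(w (i, j)))
        have hf : Function.Involutive f := by
          intro w
          simp only [f]
          ext p
          by_cases hp : p = (i, j)
          · subst hp; simp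
          · simp [hp]
        refine Finset.sum_nbij' f f (by simp) (by simp) (fun w _ => hf w) (fun w _ => hf w) ?_
        intro w _
        simp only [f, Function.update_self, Function.update_of_ne hne, sg_not]
        ring
      linarith
  simp only [h2, Finset.sum_ite_eq, Finset.mem_univ, if_true, Finset.sum_const, Finset.card_univ,
    Fintype.card_fin, nsmul_eq_mul]
  field_simp

lemma gp_first_moment {m M : ℕ} (hM : 1 ≤ M) :
    cavg (fun w : Fin m × Fin M → Bool => ‖(Sv w : E m)‖) ≤ m + 1 := by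
  have h := gp_second_moment (m := m) hM
  calc cavg (fun w : Fin m × Fin M → Bool => ‖(Sv w : E m)‖)
      ≤ cavg (fun w : Fin m × Fin M → Bool => ‖(Sv w : E m)‖ ^ 2 + 1) := by
        refine cavg_mono fun w => ?_
        nlinarith [sq_nonneg (‖(Sv w : E m)‖ - 1), norm_nonneg (Sv w : E m)]
    _ = m + 1 := by rw [cavg_add, h, cavg_const]

lemma gp_integrable_norm (m : ℕ) : Integrable (fun x : E m => ‖x‖) (γ m) :=
  (IsGaussian.integrable_id (μ := γ m)).norm

lemma gp_key {m : ℕ} (P : Seminorm ℝ (E m)) (c : ℝ) (hc0 : 0 ≤ c) (hc : ∀ x, P x ≤ c * ‖x‖)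
    (T : E m →L[ℝ] E m) (Ts : ℕ → E m →L[ℝ] E m) (hT : Tendsto Ts atTop (𝓝 T))
    (Mk : ℕ → ℕ) (hMk : Tendsto Mk atTop atTop) (hMk1 : ∀ k, 1 ≤ Mk k) (b : ℝ)
    (hb : ∀ k, cavg (fun w : Fin m × Fin (Mk k) → Bool => P (Ts k (Sv w))) ≤ b) :
    ∫ x, P (T x) ∂(γ m) ≤ b := by
  have hcont : Continuous fun x : E m => P (T x) := (seminorm_continuous P).comp T.continuous
  -- truncated version
  have hK : ∀ K : ℕ, ∫ x, min (P (T x)) (K:ℝ) ∂(γ m) ≤ b := by
    intro K
    let f : BoundedContinuousFunction (E m) ℝ :=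
      BoundedContinuousFunction.mkOfBound ⟨fun x => min (P (T x)) (K:ℝ), hcont.min continuous_const⟩ K (by
        intro x y
        simp only [ContinuousMap.coe_mk]
        rw [Real.dist_eq, abs_le]
        have h1 : 0 ≤ min (P (T x)) (K:ℝ) := le_min (apply_nonneg _ _) (Nat.cast_nonneg _)
        have h2 : 0 ≤ min (P (T y)) (K:ℝ) := le_min (apply_nonneg _ _) (Nat.cast_nonneg _)
        have h3 : min (P (T x)) (K:ℝ) ≤ K := min_le_right _ _
        have h4 : min (P (T y)) (K:ℝ) ≤ K := min_le_right _ _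
        constructor <;> linarith)
    have h1 := (ProbabilityMeasure.tendsto_iff_forall_integral_tendsto.1 (gp_tendsto m) f).comp hMk
    have h2 : Tendsto (fun k => b + c * ‖T - Ts k‖ * (m + 1)) atTop (𝓝 b) := by
      have : Tendsto (fun k => ‖T - Ts k‖) atTop (𝓝 0) := by
        have := (tendsto_const_nhds (x := T)).sub hT
        rw [sub_self] at this
        simpa using this.norm
      simpa using ((this.const_mul c).mul_const ((m:ℝ) + 1)).const_add b
    refine le_of_tendsto_of_tendsto' h1 h2 fun k => ?_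
    simp only [Function.comp, gpPM_coe]
    rw [gpMu_integral]
    have h3 : ∀ w : Fin m × Fin (Mk k) → Bool,
        f (Sv w) ≤ P (Ts k (Sv w)) + c * ‖T - Ts k‖ * ‖(Sv w : E m)‖ := by
      intro w
      have e1 : f (Sv w) ≤ P (T (Sv w)) := min_le_left _ _
      have e2 : P (T (Sv w)) ≤ P (Ts k (Sv w)) + P ((T - Ts k) (Sv w)) := by
        have := map_add_le_add P (Ts k (Sv w)) ((T - Ts k) (Sv w))
        simpa using this
      have e3 : P ((T - Ts k) (Sv w)) ≤ c * ‖T - Ts k‖ * ‖(Sv w : E m)‖ := by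
        calc P ((T - Ts k) (Sv w)) ≤ c * ‖(T - Ts k) (Sv w)‖ := hc _
          _ ≤ c * (‖T - Ts k‖ * ‖(Sv w : E m)‖) :=
              mul_le_mul_of_nonneg_left (ContinuousLinearMap.le_opNorm _ _) hc0
          _ = _ := by ring
      linarith
    calc cavg (fun w : Fin m × Fin (Mk k) → Bool => f (Sv w))
        ≤ cavg (fun w : Fin m × Fin (Mk k) → Bool =>
            P (Ts k (Sv w)) + c * ‖T - Ts k‖ * ‖(Sv w : E m)‖) := cavg_mono h3
      _ = cavg (fun w : Fin m × Fin (Mk k) → Bool => P (Ts k (Sv w))) +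
            (c * ‖T - Ts k‖) • cavg (fun w : Fin m × Fin (Mk k) → Bool => ‖(Sv w : E m)‖) := by
          rw [cavg_add, ← cavg_smul]
          rfl
      _ ≤ b + (c * ‖T - Ts k‖) * (m + 1) := by
          refine add_le_add (hb k) ?_
          rw [smul_eq_mul]
          exact mul_le_mul_of_nonneg_left (gp_first_moment (hMk1 k)) (by positivity)
  have hlim : Tendsto (fun K : ℕ => ∫ x, min (P (T x)) (K:ℝ) ∂(γ m)) atTop
      (𝓝 (∫ x, P (T x) ∂(γ m))) := by
    refine tendsto_integral_of_dominated_convergence (fun x => c * ‖T‖ * ‖x‖)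
      (fun K => (hcont.min continuous_const).aestronglyMeasurable) ((gp_integrable_norm m).const_mul _) ?_ ?_
    · intro K
      refine Eventually.of_forall fun x => ?_
      have h1 : 0 ≤ min (P (T x)) (K:ℝ) := le_min (apply_nonneg _ _) (Nat.cast_nonneg _)
      rw [Real.norm_of_nonneg h1]
      calc min (P (T x)) (K:ℝ) ≤ P (T x) := min_le_left _ _
        _ ≤ c * ‖T x‖ := hc _
        _ ≤ c * (‖T‖ * ‖x‖) :=
              mul_le_mul_of_nonneg_left (ContinuousLinearMap.le_opNorm _ _) hc0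
        _ = _ := by ring
    · refine Eventually.of_forall fun x => ?_
      refine tendsto_const_nhds.congr' ?_
      filter_upwards [eventually_ge_atTop ⌈P (T x)⌉₊] with K hK'
      rw [min_eq_left]
      exact (Nat.le_ceil _).trans (by exact_mod_cast hK')
  exact le_of_tendsto' hlim hK

/-- the Gaussian position lemma, from the cube version. -/
theorem gauss_position_of_cube (m n : ℕ) (hn : 1 ≤ n)
    (N : Seminorm ℝ (E m)) (d : ℝ)
    (h1 : ∀ x, ‖x‖ ≤ N x) (h2 : ∀ x, N x ≤ d * ‖x‖)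
    (hcube : ∀ M : ℕ, 1 ≤ M → ∃ u : E m ≃L[ℝ] E m,
      cavg (fun w : Fin m × Fin M → Bool => N (u (Sv w))) ≤ 1 ∧
      cavg (fun w : Fin m × Fin M → Bool =>
        dualN N (ContinuousLinearMap.adjoint (u.symm : E m →L[ℝ] E m) (Sv w)))
          ≤ m * (6 * (n:ℝ) ^ 2) ∧
      (∀ x, ‖u x‖ ≤ √3 * ‖x‖) ∧
      (∀ x, ‖u.symm x‖ ≤ √3 * d * (m * (6 * (n:ℝ) ^ 2)) * ‖x‖)) :
    ∃ u : E m ≃L[ℝ] E m,
      ∫ g, N (u g) ∂(γ m) ≤ 6 * (n:ℝ) ^ 2 ∧
      ∫ g, dualN N (ContinuousLinearMap.adjoint (u.symm : E m →L[ℝ] E m) g) ∂(γ m) ≤ m ∧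
      (∀ x, ‖u x‖ ≤ √3 * (6 * (n:ℝ) ^ 2) * ‖x‖) := by
  have hN : Definite N := ⟨1, one_pos, fun x => by simpa using h1 x⟩
  choose us hu1 hu2 hu3 hu4 using fun M : ℕ => hcube (M + 1) (Nat.le_add_left 1 M)
  set B : ℝ := max (√3) (|√3 * d * (m * (6 * (n:ℝ) ^ 2))|) with hB
  have hB0 : 0 ≤ B := le_max_of_le_left (Real.sqrt_nonneg 3)
  let p : ℕ → (E m →L[ℝ] E m) × (E m →L[ℝ] E m) := fun M =>
    ((us M : E m →L[ℝ] E m), ((us M).symm : E m →L[ℝ] E m))
  have hp : ∀ M, p M ∈ Metric.closedBall (0 : (E m →L[ℝ] E m) × (E m →L[ℝ] E m)) B := by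
    intro M
    rw [mem_closedBall_zero_iff, Prod.norm_def]
    refine max_le ?_ ?_
    · refine ContinuousLinearMap.opNorm_le_bound _ hB0 fun x => ?_
      exact (hu3 M x).trans (mul_le_mul_of_nonneg_right (le_max_left _ _) (norm_nonneg _))
    · refine ContinuousLinearMap.opNorm_le_bound _ hB0 fun x => ?_
      exact (hu4 M x).trans (mul_le_mul_of_nonneg_right
        ((le_abs_self _).trans (le_max_right _ _)) (norm_nonneg _))
  have : ProperSpace ((E m →L[ℝ] E m) × (E m →L[ℝ] E m)) := FiniteDimensional.proper_real _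
  obtain ⟨⟨u, v⟩, -, φ, hφ, hlim⟩ := tendsto_subseq_of_bounded Metric.isBounded_closedBall hp
  have hlu : Tendsto (fun k => ((us (φ k) : E m →L[ℝ] E m))) atTop (𝓝 u) :=
    (continuous_fst.tendsto _).comp hlim
  have hlv : Tendsto (fun k => (((us (φ k)).symm : E m →L[ℝ] E m))) atTop (𝓝 v) :=
    (continuous_snd.tendsto _).comp hlim
  have huv : u.comp v = ContinuousLinearMap.id ℝ (E m) := by
    have h := ((continuous_fst.clm_comp continuous_snd :
      Continuous fun q : (E m →L[ℝ] E m) × (E m →L[ℝ] E m) => q.1.comp q.2).tendsto _).comp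
        (hlu.prodMk_nhds hlv)
    refine tendsto_nhds_unique h (tendsto_const_nhds.congr fun k => ?_)
    ext1 x
    simp
  have hvu : v.comp u = ContinuousLinearMap.id ℝ (E m) := by
    have h := ((continuous_fst.clm_comp continuous_snd :
      Continuous fun q : (E m →L[ℝ] E m) × (E m →L[ℝ] E m) => q.1.comp q.2).tendsto _).comp
        (hlv.prodMk_nhds hlu)
    refine tendsto_nhds_unique h (tendsto_const_nhds.congr fun k => ?_)
    ext1 x
    simp
  have hMk : Tendsto (fun k => φ k + 1) atTop atTop :=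
    (tendsto_add_atTop_nat 1).comp hφ.tendsto_atTop
  have hI1 : ∫ x, N (u x) ∂(γ m) ≤ 1 :=
    gp_key N (|d|) (abs_nonneg d)
      (fun x => (h2 x).trans (mul_le_mul_of_nonneg_right (le_abs_self d) (norm_nonneg x))) u
      _ hlu (fun k => φ k + 1) hMk (fun k => Nat.le_add_left 1 _) 1 (fun k => hu1 (φ k))
  have hI2 : ∫ x, dualN N (ContinuousLinearMap.adjoint v x) ∂(γ m) ≤ m * (6 * (n:ℝ) ^ 2) := by
    refine gp_key (dualS N hN) 1 zero_le_one (fun x => ?_) (ContinuousLinearMap.adjoint v)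
      (fun k => ContinuousLinearMap.adjoint ((us (φ k)).symm : E m →L[ℝ] E m)) ?_
      (fun k => φ k + 1) hMk (fun k => Nat.le_add_left 1 _) _ (fun k => ?_)
    · have := dualN_le_norm (N := N) one_pos (fun x => by simpa using h1 x) x
      simpa using this
    · exact (ContinuousLinearMap.adjoint.continuous.tendsto _).comp hlv
    · exact hu2 (φ k)
  have hub : ∀ x, ‖u x‖ ≤ √3 * ‖x‖ := by
    intro x
    have h := ((ContinuousLinearMap.apply ℝ (E m) x).continuous.tendsto _).comp hlu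
    refine le_of_tendsto' h.norm fun k => ?_
    exact hu3 (φ k) x
  set a : ℝ := 6 * (n:ℝ) ^ 2 with ha
  have hn' : (1:ℝ) ≤ n := by exact_mod_cast hn
  have ha0 : 0 < a := by positivity
  let U : E m ≃L[ℝ] E m := ContinuousLinearEquiv.equivOfInverse (a • u) (a⁻¹ • v)
    (by
      intro x
      have := congrArg (fun L : E m →L[ℝ] E m => L x) hvu
      simp only [ContinuousLinearMap.comp_apply, ContinuousLinearMap.id_apply] at this
      simp [this, smul_smul, mul_inv_cancel₀ ha0.ne'])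
    (by
      intro x
      have := congrArg (fun L : E m →L[ℝ] E m => L x) huv
      simp only [ContinuousLinearMap.comp_apply, ContinuousLinearMap.id_apply] at this
      simp [this, smul_smul, inv_mul_cancel₀ ha0.ne'])
  have hU : ∀ x, U x = a • u x := fun x => rfl
  have hUs : (U.symm : E m →L[ℝ] E m) = a⁻¹ • v := rfl
  refine ⟨U, ?_, ?_, ?_⟩
  · have e : ∀ g, N (U g) = a * N (u g) := by
      intro g
      rw [hU, map_smul_eq_mul, Real.norm_of_nonneg ha0.le]
    simp only [e]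
    rw [integral_const_mul]
    nlinarith
  · have e : ∀ g, dualN N (ContinuousLinearMap.adjoint (U.symm : E m →L[ℝ] E m) g) =
        a⁻¹ * dualN N (ContinuousLinearMap.adjoint v g) := by
      intro g
      rw [hUs, map_smulₛₗ]
      simp only [conj_trivial, smul_apply]
      rw [dualN_smul hN, abs_of_pos (inv_pos.2 ha0)]
    simp only [e]
    rw [integral_const_mul]
    calc a⁻¹ * ∫ g, dualN N (ContinuousLinearMap.adjoint v g) ∂(γ m)
        ≤ a⁻¹ * (m * a) := mul_le_mul_of_nonneg_left hI2 (by positivity)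
      _ = m := by field_simp
  · intro x
    rw [hU, norm_smul, Real.norm_of_nonneg ha0.le]
    calc a * ‖u x‖ ≤ a * (√3 * ‖x‖) := mul_le_mul_of_nonneg_left (hub x) ha0.le
      _ = _ := by ring

end D546neg
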