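/-
MP_d546a0_lc, negation S15426: K-convexity of the Rademacher projection on the cube (helper23).
-/
import Pool.Agent.H.MP_d546a0_lc.neg.Cube

set_option autoImplicit false

namespace D546neg

open Finset
open scoped RealInnerProductSpace BigOperators fwdDiff

/-! ### the weights -/

private lemma kc_alt (n i : ℕ) (hi : i < 2 * n) :
    ∑ k ∈ range (2 * n + 1), ((-1 : ℝ) ^ k * ((2 * n).choose k : ℝ)) * ((k : ℝ) - n) ^ i = 0 := by
  have h := congrFun (fwdDiff_iter_pow_eq_zero_of_lt (R := ℝ) hi) (-(n : ℝ))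
  rw [fwdDiff_iter_eq_sum_shift] at h
  rw [Pi.zero_apply] at h
  rw [← h]
  apply sum_congr rfl
  intro k hk
  rw [mem_range] at hk
  have h1 : (-1 : ℤ) ^ (2 * n - k) = (-1) ^ k := by
    have : (-1 : ℤ) ^ (2 * n - k) * (-1) ^ k = 1 := by
      rw [← pow_add, show 2 * n - k + k = 2 * n by omega, pow_mul]
      simp
    have h2 : ((-1 : ℤ) ^ k) * (-1) ^ k = 1 := by
      rw [← mul_pow]; simp
    calc (-1 : ℤ) ^ (2 * n - k) = (-1 : ℤ) ^ (2 * n - k) * ((-1) ^ k * (-1) ^ k) := by
          rw [h2, mul_one]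
      _ = _ := by rw [← mul_assoc, this, one_mul]
  rw [h1, zsmul_eq_mul]
  push_cast
  congr 2
  simp
  ring

private lemma kc_weights (n : ℕ) :
    ∃ ν : ℕ → ℝ, (∀ k, |ν k| ≤ 1) ∧ (∀ k ≤ 2 * n, ν (2 * n - k) = ν k) ∧
      ∀ i < 2 * n, ∑ k ∈ (range (2 * n + 1)).erase n, ν k * ((k : ℝ) - n) ^ i =
        if i = 0 then 1 else 0 := by
  have hc : (0 : ℝ) < ((2 * n).choose n : ℝ) := by
    exact_mod_cast Nat.choose_pos (by omega)
  refine ⟨fun k => -((-1 : ℝ) ^ n / ((2 * n).choose n : ℝ)) *
    ((-1 : ℝ) ^ k * ((2 * n).choose k : ℝ)), ?_, ?_, ?_⟩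
  · intro k
    rw [abs_mul, abs_neg, abs_div, abs_mul, abs_pow, abs_pow, abs_neg, abs_one, one_pow, one_pow,
      one_mul, Nat.abs_cast, Nat.abs_cast, div_mul_eq_mul_div, one_mul, div_le_one hc]
    have := Nat.choose_le_centralBinom k n
    rw [Nat.centralBinom_eq_two_mul_choose] at this
    exact_mod_cast this
  · intro k hk
    have h1 : (-1 : ℝ) ^ (2 * n - k) = (-1) ^ k := by
      have : (-1 : ℝ) ^ (2 * n - k) * (-1) ^ k = 1 := by
        rw [← pow_add, show 2 * n - k + k = 2 * n by omega, pow_mul]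
        simp
      have h2 : ((-1 : ℝ) ^ k) * (-1) ^ k = 1 := by
        rw [← mul_pow]; simp
      calc (-1 : ℝ) ^ (2 * n - k) = (-1 : ℝ) ^ (2 * n - k) * ((-1) ^ k * (-1) ^ k) := by
            rw [h2, mul_one]
        _ = _ := by rw [← mul_assoc, this, one_mul]
    simp only
    rw [h1, Nat.choose_symm hk]
  · intro i hi
    have h := kc_alt n i hi
    rw [← add_sum_erase _ _ (mem_range.2 (by omega : n < 2 * n + 1))] at h
    have h2 : ∑ k ∈ (range (2 * n + 1)).erase n,
        ((-1 : ℝ) ^ k * ((2 * n).choose k : ℝ)) * ((k : ℝ) - n) ^ i =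
          - ((-1 : ℝ) ^ n * ((2 * n).choose n : ℝ) * ((n : ℝ) - n) ^ i) := by linarith
    simp only [mul_assoc] at h2 ⊢
    simp only [← mul_sum, h2]
    by_cases h0 : i = 0
    · subst h0
      rw [if_pos rfl, pow_zero, mul_one]
      have h3 : (-1 : ℝ) ^ n * (-1) ^ n = 1 := by rw [← mul_pow]; simp
      field_simp
      linarith [h3]
    · rw [if_neg h0, sub_self, zero_pow h0]
      simp

/-- weights and nodes: `μ` on `[-1/2, 1/2]` nearly isolating the linear coefficient. -/
private lemma kc_measure (n : ℕ) (hn : 1 ≤ n) :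
    ∃ (J : Finset ℕ) (μ r : ℕ → ℝ), (∀ j ∈ J, |r j| ≤ 1) ∧ (∑ j ∈ J, |μ j| ≤ 4 * (n : ℝ) ^ 2) ∧
      ∀ s : ℕ, |∑ j ∈ J, μ j * r j ^ s - if s = 1 then 1 else 0| ≤ 2 * n * (4 ^ n)⁻¹ := by
  obtain ⟨ν, h1, h2, h3⟩ := kc_weights n
  have hn0 : (0 : ℝ) < n := by exact_mod_cast hn
  set J := (range (2 * n + 1)).erase n with hJ
  have hJc : J.card = 2 * n := by
    rw [hJ, card_erase_of_mem (mem_range.2 (by omega)), card_range]
    omega
  have hJm : ∀ k, k ∈ J ↔ k ≠ n ∧ k < 2 * n + 1 := by
    intro k; rw [hJ, mem_erase, mem_range]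
  set r : ℕ → ℝ := fun k => ((k : ℝ) - n) / (2 * n) with hr
  have hr0 : ∀ k ∈ J, r k ≠ 0 := by
    intro k hk
    have : (k : ℝ) ≠ n := by exact_mod_cast ((hJm k).1 hk).1
    exact div_ne_zero (sub_ne_zero.2 this) (by positivity)
  have hkn : ∀ k ∈ J, |(k : ℝ) - n| ≤ n := by
    intro k hk
    have := ((hJm k).1 hk).2
    have h4 : (k : ℝ) ≤ 2 * n := by exact_mod_cast Nat.lt_succ_iff.1 this
    rw [abs_le]
    constructor
    · have : (0 : ℝ) ≤ k := Nat.cast_nonneg k
      linarith
    · linarith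
  have hkn1 : ∀ k ∈ J, 1 ≤ |(k : ℝ) - n| := by
    intro k hk
    have := ((hJm k).1 hk).1
    have h4 : (1 : ℤ) ≤ |(k : ℤ) - n| := Int.one_le_abs (sub_ne_zero.2 (by exact_mod_cast this))
    exact_mod_cast h4
  have hrhalf : ∀ k ∈ J, |r k| ≤ 1 / 2 := by
    intro k hk
    rw [hr]
    simp only
    rw [abs_div, abs_of_pos (show (0 : ℝ) < 2 * n by positivity), div_le_div_iff₀ (by positivity)
      (by norm_num)]
    have := hkn k hk
    linarith
  refine ⟨J, fun k => ν k / r k, r, ?_, ?_, ?_⟩
  · intro j hj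
    exact (hrhalf j hj).trans (by norm_num)
  · calc ∑ j ∈ J, |ν j / r j| ≤ ∑ j ∈ J, 2 * (n : ℝ) := by
          apply sum_le_sum
          intro k hk
          rw [abs_div, hr]
          simp only
          rw [abs_div, abs_of_pos (show (0 : ℝ) < 2 * n by positivity), div_div_eq_mul_div]
          have h5 := hkn1 k hk
          rw [div_le_iff₀ (by linarith)]
          have h6 := h1 k
          have h7 := abs_nonneg (ν k)
          nlinarith
      _ = 4 * (n : ℝ) ^ 2 := by
          rw [sum_const, hJc, nsmul_eq_mul]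
          push_cast
          ring
  · intro s
    have hB : (0 : ℝ) ≤ 2 * n * (4 ^ n)⁻¹ := by positivity
    rcases Nat.eq_zero_or_pos s with rfl | hs
    · -- antisymmetry
      have hz : ∑ j ∈ J, ν j / r j * r j ^ 0 = 0 := by
        have hinv : ∑ j ∈ J, ν j / r j = ∑ j ∈ J, -(ν j / r j) := by
          apply sum_nbij' (fun j => 2 * n - j) (fun j => 2 * n - j)
          · intro j hj
            rw [hJm] at hj ⊢
            omega
          · intro j hj
            rw [hJm] at hj ⊢
            omega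
          · intro j hj
            rw [hJm] at hj
            omega
          · intro j hj
            rw [hJm] at hj
            omega
          · intro j hj
            have hj' := (hJm j).1 hj
            have h4 : j ≤ 2 * n := by omega
            rw [h2 j h4, hr]
            simp only
            rw [Nat.cast_sub h4]
            push_cast
            have h5 : (2 * (n : ℝ) - j - n) = -((j : ℝ) - n) := by ring
            rw [h5, neg_div, div_neg, neg_neg]
        rw [sum_neg_distrib] at hinv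
        simp only [pow_zero, mul_one]
        linarith
      rw [hz, if_neg (by norm_num), sub_zero, abs_zero]
      exact hB
    · have hexp : ∀ j ∈ J, ν j / r j * r j ^ s = ν j * r j ^ (s - 1) := by
        intro j hj
        have h4 := hr0 j hj
        obtain ⟨t, rfl⟩ : ∃ t, s = t + 1 := ⟨s - 1, by omega⟩
        rw [Nat.add_sub_cancel, pow_succ]
        field_simp
      rw [sum_congr rfl hexp]
      by_cases hs2 : s - 1 < 2 * n
      · have h4 : ∑ j ∈ J, ν j * r j ^ (s - 1) = if s = 1 then 1 else 0 := by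
          have h5 : ∀ j ∈ J, ν j * r j ^ (s - 1) =
              ((2 * (n : ℝ)) ^ (s - 1))⁻¹ * (ν j * ((j : ℝ) - n) ^ (s - 1)) := by
            intro j _
            rw [hr]
            simp only
            rw [div_pow]
            field_simp
          rw [sum_congr rfl h5, ← mul_sum, h3 _ hs2]
          by_cases h6 : s = 1
          · subst h6
            simp
          · rw [if_neg (by omega), if_neg h6, mul_zero]
        rw [h4, sub_self, abs_zero]
        exact hB
      · have hs1 : s ≠ 1 := by omega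
        rw [if_neg hs1, sub_zero]
        calc |∑ j ∈ J, ν j * r j ^ (s - 1)| ≤ ∑ j ∈ J, |ν j * r j ^ (s - 1)| :=
              abs_sum_le_sum_abs _ _
          _ ≤ ∑ j ∈ J, (4 ^ n)⁻¹ := by
              apply sum_le_sum
              intro j hj
              rw [abs_mul, abs_pow]
              have h4 := hrhalf j hj
              have h5 : |r j| ^ (s - 1) ≤ (1 / 2) ^ (s - 1) :=
                pow_le_pow_left₀ (abs_nonneg _) h4 _
              have h6 : ((1 : ℝ) / 2) ^ (s - 1) ≤ (1 / 2) ^ (2 * n) :=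
                pow_le_pow_of_le_one (by norm_num) (by norm_num) (by omega)
              have h7 : ((1 : ℝ) / 2) ^ (2 * n) = (4 ^ n)⁻¹ := by
                rw [pow_mul, ← inv_pow]
                norm_num
              calc |ν j| * |r j| ^ (s - 1) ≤ 1 * |r j| ^ (s - 1) :=
                    mul_le_mul_of_nonneg_right (h1 j) (by positivity)
                _ ≤ (4 ^ n)⁻¹ := by
                    rw [one_mul, ← h7]
                    exact h5.trans h6
          _ = _ := by
              rw [sum_const, hJc, nsmul_eq_mul]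
              push_cast
              ring

/-! ### Walsh functions -/

section walsh
variable {I : Type*} [Fintype I] [DecidableEq I]

private lemma kc_cavg_prod (f : I → Bool → ℝ) :
    cavg (fun w : I → Bool => ∏ i, f i (w i)) = ∏ i, ((f i true + f i false) / 2) := by
  unfold cavg
  rw [← Fintype.prod_sum, smul_eq_mul, prod_div_distrib, prod_const, card_univ, div_eq_inv_mul]
  simp

private noncomputable def kcW (S : Finset I) (w : I → Bool) : ℝ := ∏ i ∈ S, sg (w i)

private lemma kc_ortho (S T : Finset I) :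
    cavg (fun w : I → Bool => kcW S w * kcW T w) = if S = T then 1 else 0 := by
  have h : ∀ w : I → Bool, kcW S w * kcW T w =
      ∏ i, ((if i ∈ S then sg (w i) else 1) * (if i ∈ T then sg (w i) else 1)) := by
    intro w
    rw [prod_mul_distrib, prod_ite_mem, prod_ite_mem, univ_inter, univ_inter]
    rfl
  simp only [h]
  rw [kc_cavg_prod (fun i b => (if i ∈ S then sg b else 1) * (if i ∈ T then sg b else 1))]
  by_cases hST : S = T
  · subst hST
    rw [if_pos rfl]
    apply prod_eq_one
    intro i _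
    by_cases hi : i ∈ S <;> simp [hi]
  · rw [if_neg hST]
    have : ∃ i, ¬ (i ∈ S ↔ i ∈ T) := by
      by_contra hcon
      push Not at hcon
      exact hST (Finset.ext hcon)
    obtain ⟨i, hi⟩ := this
    apply prod_eq_zero (mem_univ i)
    by_cases h1 : i ∈ S
    · have h2 : i ∉ T := fun h2 => hi ⟨fun _ => h2, fun _ => h1⟩
      simp [h1, h2]
    · have h2 : i ∈ T := by
        by_contra h2
        exact hi ⟨fun h => absurd h h1, fun h => absurd h h2⟩
      simp [h1, h2]

private lemma kc_expand {m : ℕ} (G : Finset I → E m) :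
    cavg (fun w : I → Bool => ‖∑ S, kcW S w • G S‖ ^ 2) = ∑ S, ‖G S‖ ^ 2 := by
  have h : ∀ w : I → Bool, ‖∑ S, kcW S w • G S‖ ^ 2 =
      ∑ S, ∑ T, ⟪G S, G T⟫ • (kcW S w * kcW T w) := by
    intro w
    rw [← real_inner_self_eq_norm_sq, sum_inner]
    apply sum_congr rfl
    intro S _
    rw [inner_sum]
    apply sum_congr rfl
    intro T _
    rw [real_inner_smul_left, real_inner_smul_right, smul_eq_mul]
    ring
  simp only [h]
  rw [cavg_sum]
  apply sum_congr rfl
  intro S _
  rw [cavg_sum]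
  simp only [cavg_smul, kc_ortho]
  rw [sum_eq_single S]
  · rw [if_pos rfl, smul_eq_mul, mul_one, real_inner_self_eq_norm_sq]
  · intro T _ hT
    rw [if_neg (Ne.symm hT), smul_zero]
  · intro hS
    exact absurd (mem_univ S) hS

private noncomputable def kcH {m : ℕ} (F : (I → Bool) → E m) (S : Finset I) : E m :=
  cavg (fun y : I → Bool => kcW S y • F y)

private lemma kc_bessel {m : ℕ} (F : (I → Bool) → E m) :
    ∑ S, ‖kcH F S‖ ^ 2 ≤ cavg (fun w => ‖F w‖ ^ 2) := by
  have h0 : 0 ≤ cavg (fun w => ‖F w - ∑ S, kcW S w • kcH F S‖ ^ 2) :=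
    cavg_nonneg fun w => by positivity
  have h1 : ∀ w : I → Bool, ‖F w - ∑ S, kcW S w • kcH F S‖ ^ 2 =
      (‖F w‖ ^ 2 + ‖∑ S, kcW S w • kcH F S‖ ^ 2) -
        ∑ S, (2 : ℝ) • ⟪kcH F S, kcW S w • F w⟫ := by
    intro w
    rw [norm_sub_sq_real, inner_sum]
    have : ∑ S, (2 : ℝ) • ⟪kcH F S, kcW S w • F w⟫ = 2 * ∑ S, ⟪F w, kcW S w • kcH F S⟫ := by
      rw [mul_sum]
      apply sum_congr rfl
      intro S _
      rw [real_inner_smul_right, real_inner_smul_right, real_inner_comm, smul_eq_mul]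
    rw [this]
    ring
  simp only [h1] at h0
  rw [cavg_sub, cavg_add, kc_expand, cavg_sum] at h0
  have h2 : ∀ S : Finset I, cavg (fun w : I → Bool => (2 : ℝ) • ⟪kcH F S, kcW S w • F w⟫) =
      2 * ‖kcH F S‖ ^ 2 := by
    intro S
    rw [cavg_smul, smul_eq_mul]
    congr 1
    have h3 := cavg_map (innerₛₗ ℝ (kcH F S)) (fun w : I → Bool => kcW S w • F w)
    simp only [innerₛₗ_apply_apply] at h3
    rw [← h3, ← real_inner_self_eq_norm_sq]
    rfl
  simp only [h2] at h0
  rw [← mul_sum] at h0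
  linarith

private noncomputable def kcT {m : ℕ} (r : ℝ) (F : (I → Bool) → E m) (x : I → Bool) : E m :=
  cavg (fun y : I → Bool => (∏ i, (1 + r * (sg (x i) * sg (y i)))) • F y)

private lemma kc_T_le {m : ℕ} (N : Seminorm ℝ (E m)) (r : ℝ) (hr : |r| ≤ 1)
    (F : (I → Bool) → E m) (hF : ∀ w, N (F w) ≤ 1) (x : I → Bool) : N (kcT r F x) ≤ 1 := by
  have hnn : ∀ y : I → Bool, 0 ≤ ∏ i, (1 + r * (sg (x i) * sg (y i))) := by
    intro y
    apply prod_nonneg
    intro i _
    have h1 : |r * (sg (x i) * sg (y i))| ≤ 1 := by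
      rw [abs_mul, abs_mul, abs_sg, abs_sg, mul_one, mul_one]
      exact hr
    have := (abs_le.1 h1).1
    linarith
  calc N (kcT r F x) ≤ cavg (fun y : I → Bool =>
        N ((∏ i, (1 + r * (sg (x i) * sg (y i)))) • F y)) := seminorm_cavg_le _ _
    _ ≤ cavg (fun y : I → Bool => ∏ i, (1 + r * (sg (x i) * sg (y i)))) := by
        apply cavg_mono
        intro y
        rw [map_smul_eq_mul, Real.norm_of_nonneg (hnn y)]
        exact mul_le_of_le_one_right (hnn y) (hF y)
    _ = 1 := by
        rw [kc_cavg_prod (fun i b => 1 + r * (sg (x i) * sg b))]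
        apply prod_eq_one
        intro i _
        rw [sg_true, sg_false]
        ring

private lemma kc_T_eq {m : ℕ} (r : ℝ) (F : (I → Bool) → E m) (x : I → Bool) :
    kcT r F x = ∑ S, (r ^ S.card * kcW S x) • kcH F S := by
  have h : ∀ y : I → Bool, (∏ i, (1 + r * (sg (x i) * sg (y i)))) • F y =
      ∑ S : Finset I, (r ^ S.card * kcW S x) • (kcW S y • F y) := by
    intro y
    rw [prod_one_add, powerset_univ, sum_smul]
    apply sum_congr rfl
    intro S _
    rw [prod_mul_distrib, prod_const, prod_mul_distrib, smul_smul]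
    congr 1
    unfold kcW
    ring
  unfold kcT kcH
  simp only [h]
  rw [cavg_sum]
  simp only [cavg_smul]

private lemma kc_P_eq {m : ℕ} (F : (I → Bool) → E m) (x : I → Bool) :
    ∑ i, sg (x i) • cavg (fun w' : I → Bool => sg (w' i) • F w') =
      ∑ S : Finset I, ((if S.card = 1 then (1 : ℝ) else 0) * kcW S x) • kcH F S := by
  have h1 : ∀ S : Finset I, ((if S.card = 1 then (1 : ℝ) else 0) * kcW S x) • kcH F S =
      if S.card = 1 then kcW S x • kcH F S else 0 := by
    intro S
    split_ifs <;> simp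
  simp only [h1]
  rw [← sum_filter]
  have h2 : filter (fun S : Finset I => S.card = 1) univ = powersetCard 1 univ := by
    ext S
    simp
  rw [h2, powersetCard_one, sum_map]
  apply sum_congr rfl
  intro i _
  simp [kcW, kcH]

/-- K-convexity of the Rademacher projection on the cube, elementary version. -/
theorem kconv {m : ℕ} {I : Type*} [Fintype I] [DecidableEq I] (n : ℕ) (hn : 1 ≤ n)
    (N : Seminorm ℝ (E m)) (h1 : ∀ x, ‖x‖ ≤ N x) (h2 : ∀ x, N x ≤ 4 ^ n * ‖x‖)
    (F : (I → Bool) → E m) (hF : ∀ w, N (F w) ≤ 1) :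
    cavg (fun w : I → Bool => N (∑ i, sg (w i) • cavg (fun w' : I → Bool => sg (w' i) • F w')))
      ≤ 6 * (n:ℝ) ^ 2 := by
  obtain ⟨J, μ, r, hr, hμ, hs⟩ := kc_measure n hn
  set b : ℕ → ℝ := fun s => ∑ j ∈ J, μ j * r j ^ s - if s = 1 then 1 else 0 with hb
  set Q : (I → Bool) → E m := fun x => ∑ S : Finset I, kcW S x • (b S.card • kcH F S) with hQ
  have hn1 : (1 : ℝ) ≤ n := by exact_mod_cast hn
  -- decomposition
  have hdec : ∀ x : I → Bool, ∑ i, sg (x i) • cavg (fun w' : I → Bool => sg (w' i) • F w') =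
      ∑ j ∈ J, μ j • kcT (r j) F x + -(Q x) := by
    intro x
    rw [kc_P_eq, hQ]
    simp only [kc_T_eq, smul_sum]
    rw [sum_comm, ← sum_neg_distrib, ← sum_add_distrib]
    apply sum_congr rfl
    intro S _
    have e1 : ∑ j ∈ J, μ j • (r j ^ S.card * kcW S x) • kcH F S =
        ((∑ j ∈ J, μ j * r j ^ S.card) * kcW S x) • kcH F S := by
      rw [sum_mul, sum_smul]
      apply sum_congr rfl
      intro j _
      rw [smul_smul, mul_assoc]
    rw [e1, smul_smul, ← neg_smul, ← add_smul]
    congr 1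
    rw [hb]
    simp only
    ring
  -- the first part
  have hA : ∀ x : I → Bool, N (∑ j ∈ J, μ j • kcT (r j) F x) ≤ 4 * (n : ℝ) ^ 2 := by
    intro x
    calc N (∑ j ∈ J, μ j • kcT (r j) F x) ≤ ∑ j ∈ J, N (μ j • kcT (r j) F x) :=
          seminorm_sum_le N _ _
      _ ≤ ∑ j ∈ J, |μ j| := by
          apply sum_le_sum
          intro j hj
          rw [map_smul_eq_mul, Real.norm_eq_abs]
          exact mul_le_of_le_one_right (abs_nonneg _) (kc_T_le N (r j) (hr j hj) F hF x)
      _ ≤ _ := hμ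
  -- the second part
  set B : ℝ := 2 * n * (4 ^ n)⁻¹ with hB
  have hB0 : 0 ≤ B := by positivity
  have hQ2 : cavg (fun x : I → Bool => ‖Q x‖ ^ 2) ≤ B ^ 2 := by
    rw [hQ]
    simp only
    rw [kc_expand (fun S => b S.card • kcH F S)]
    calc ∑ S : Finset I, ‖b S.card • kcH F S‖ ^ 2 ≤ ∑ S : Finset I, B ^ 2 * ‖kcH F S‖ ^ 2 := by
          apply sum_le_sum
          intro S _
          rw [norm_smul, mul_pow, Real.norm_eq_abs]
          apply mul_le_mul_of_nonneg_right _ (by positivity)
          exact pow_le_pow_left₀ (abs_nonneg _) (hs S.card) 2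
      _ = B ^ 2 * ∑ S : Finset I, ‖kcH F S‖ ^ 2 := by rw [mul_sum]
      _ ≤ B ^ 2 * cavg (fun w => ‖F w‖ ^ 2) :=
          mul_le_mul_of_nonneg_left (kc_bessel F) (by positivity)
      _ ≤ B ^ 2 * 1 := by
          apply mul_le_mul_of_nonneg_left _ (by positivity)
          calc cavg (fun w : I → Bool => ‖F w‖ ^ 2) ≤ cavg (fun _ : I → Bool => (1 : ℝ)) := by
                apply cavg_mono
                intro w
                have h3 : ‖F w‖ ≤ 1 := (h1 _).trans (hF w)
                exact pow_le_one₀ (norm_nonneg _) h3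
            _ = 1 := cavg_const 1
      _ = B ^ 2 := mul_one _
  have hQ1 : cavg (fun x : I → Bool => ‖Q x‖) ≤ B := by
    -- `‖Q‖ ≤ (‖Q‖² + B²)/(2B)`, or directly by nonnegativity of the variance
    have hBpos : 0 < B := by positivity
    have h3 : ∀ x : I → Bool, ‖Q x‖ ≤ (2 * B)⁻¹ • (‖Q x‖ ^ 2 + B ^ 2) := by
      intro x
      rw [smul_eq_mul, inv_mul_eq_div, le_div_iff₀ (by positivity)]
      nlinarith [sq_nonneg (‖Q x‖ - B)]
    calc cavg (fun x : I → Bool => ‖Q x‖)
        ≤ cavg (fun x : I → Bool => (2 * B)⁻¹ • (‖Q x‖ ^ 2 + B ^ 2)) := cavg_mono h3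
      _ = (2 * B)⁻¹ • (cavg (fun x : I → Bool => ‖Q x‖ ^ 2) + B ^ 2) := by
          rw [cavg_smul, cavg_add, cavg_const]
      _ ≤ (2 * B)⁻¹ • (B ^ 2 + B ^ 2) := by
          rw [smul_eq_mul, smul_eq_mul]
          apply mul_le_mul_of_nonneg_left _ (by positivity)
          linarith
      _ = B := by
          rw [smul_eq_mul]
          field_simp
          ring
  have hQN : cavg (fun x : I → Bool => N (Q x)) ≤ 2 * n := by
    calc cavg (fun x : I → Bool => N (Q x)) ≤ cavg (fun x : I → Bool => (4 : ℝ) ^ n • ‖Q x‖) :=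
          cavg_mono fun x => h2 (Q x)
      _ = (4 : ℝ) ^ n * cavg (fun x : I → Bool => ‖Q x‖) := by rw [cavg_smul, smul_eq_mul]
      _ ≤ (4 : ℝ) ^ n * B := mul_le_mul_of_nonneg_left hQ1 (by positivity)
      _ = 2 * n := by
          rw [hB]
          field_simp
  calc cavg (fun w : I → Bool => N (∑ i, sg (w i) • cavg (fun w' : I → Bool => sg (w' i) • F w')))
      ≤ cavg (fun w : I → Bool => 4 * (n : ℝ) ^ 2 + N (Q w)) := by
        apply cavg_mono
        intro w
        rw [hdec w]
        refine (map_add_le_add N _ _).trans ?_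
        rw [map_neg_eq_map]
        have := hA w
        linarith
    _ = 4 * (n : ℝ) ^ 2 + cavg (fun w : I → Bool => N (Q w)) := by
        rw [cavg_add, cavg_const]
    _ ≤ 6 * (n : ℝ) ^ 2 := by nlinarith

end walsh

end D546neg
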