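/-
MP_d546a0_lc, negation S15426: the cube position lemma (helper70, for helper18's blueprint).
-/
import Pool.Agent.H.MP_d546a0_lc.neg.Cube
import Pool.Agent.H.MP_d546a0_lc.neg.KConv

set_option autoImplicit false

namespace D546neg

open MeasureTheory ProbabilityTheory
open scoped RealInnerProductSpace BigOperators

namespace Lewis

section cube
variable {I : Type*} [Fintype I] [DecidableEq I] {V : Type*} [AddCommGroup V] [Module ℝ V]

lemma cavg_comp_equiv (e : (I → Bool) ≃ (I → Bool)) (f : (I → Bool) → V) :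
    cavg (fun w => f (e w)) = cavg f := by
  simp only [cavg]
  rw [Equiv.sum_comp e f]

/-- flipping one coordinate -/
def flipEquiv (j : I) : (I → Bool) ≃ (I → Bool) where
  toFun w := Function.update w j (!(w j))
  invFun w := Function.update w j (!(w j))
  left_inv w := by
    ext i
    by_cases h : i = j
    · subst h; simp
    · simp [h]
  right_inv w := by
    ext i
    by_cases h : i = j
    · subst h; simp
    · simp [h]

lemma cavg_odd (j : I) (g : (I → Bool) → ℝ)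
    (hg : ∀ w, g (Function.update w j (!(w j))) = g w) :
    cavg (fun w => sg (w j) * g w) = 0 := by
  have h := cavg_comp_equiv (flipEquiv j) (fun w => sg (w j) * g w)
  have h2 : (fun w => sg ((flipEquiv j w) j) * g (flipEquiv j w))
      = fun w => (-1 : ℝ) • (sg (w j) * g w) := by
    funext w
    simp [flipEquiv, hg]
  rw [h2, cavg_smul] at h
  simp only [smul_eq_mul] at h
  linarith

lemma moments (a : I → ℝ) (s : Finset I) :
    cavg (fun w : I → Bool => (∑ i ∈ s, sg (w i) * a i) ^ 2) = ∑ i ∈ s, a i ^ 2 ∧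
    cavg (fun w : I → Bool => (∑ i ∈ s, sg (w i) * a i) ^ 4) ≤ 3 * (∑ i ∈ s, a i ^ 2) ^ 2 := by
  induction s using Finset.induction_on with
  | empty =>
    simp only [Finset.sum_empty]
    constructor
    · simpa using cavg_const (I := I) (0 : ℝ)
    · have := cavg_const (I := I) (0 : ℝ)
      simp [this]
  | insert j s hj ih =>
    obtain ⟨ih2, ih4⟩ := ih
    set X : (I → Bool) → ℝ := fun w => ∑ i ∈ s, sg (w i) * a i with hX
    have ih2' : cavg (fun w : I → Bool => X w ^ 2) = ∑ i ∈ s, a i ^ 2 := ih2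
    have ih4' : cavg (fun w : I → Bool => X w ^ 4) ≤ 3 * (∑ i ∈ s, a i ^ 2) ^ 2 := ih4
    have hXj : ∀ w, X (Function.update w j (!(w j))) = X w := by
      intro w
      simp only [hX]
      refine Finset.sum_congr rfl fun i hi => ?_
      have : i ≠ j := fun h => hj (h ▸ hi)
      simp [Function.update_of_ne this]
    have hs : ∀ w : I → Bool, ∑ i ∈ insert j s, sg (w i) * a i = sg (w j) * a j + X w := by
      intro w
      rw [Finset.sum_insert hj]
    have o1 : cavg (fun w : I → Bool => sg (w j) * X w) = 0 := cavg_odd j X hXj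
    have o3 : cavg (fun w : I → Bool => sg (w j) * (X w) ^ 3) = 0 :=
      cavg_odd j (fun w => (X w) ^ 3) (fun w => by simp only [hXj])
    have e2 : ∀ w : I → Bool, (∑ i ∈ insert j s, sg (w i) * a i) ^ 2
        = (X w) ^ 2 + (2 * a j) • (sg (w j) * X w) + a j ^ 2 := by
      intro w
      rw [hs, smul_eq_mul]
      have h1 : sg (w j) ^ 2 = 1 := sg_sq _
      linear_combination a j ^ 2 * h1
    have e4 : ∀ w : I → Bool, (∑ i ∈ insert j s, sg (w i) * a i) ^ 4
        = (X w) ^ 4 + (4 * a j) • (sg (w j) * X w ^ 3) + (6 * a j ^ 2) • (X w) ^ 2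
          + (4 * a j ^ 3) • (sg (w j) * X w) + a j ^ 4 := by
      intro w
      rw [hs]
      simp only [smul_eq_mul]
      have h1 : sg (w j) ^ 2 = 1 := sg_sq _
      linear_combination (a j ^ 4 * (sg (w j) ^ 2 + 1) + 4 * a j ^ 3 * sg (w j) * X w
        + 6 * a j ^ 2 * X w ^ 2) * h1
    have c2 : cavg (fun w : I → Bool => (∑ i ∈ insert j s, sg (w i) * a i) ^ 2)
        = ∑ i ∈ s, a i ^ 2 + a j ^ 2 := by
      simp only [e2, cavg_add, cavg_smul, cavg_const, o1, ih2', smul_zero, add_zero]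
    have c4 : cavg (fun w : I → Bool => (∑ i ∈ insert j s, sg (w i) * a i) ^ 4)
        ≤ 3 * (∑ i ∈ s, a i ^ 2) ^ 2 + 6 * a j ^ 2 * (∑ i ∈ s, a i ^ 2) + a j ^ 4 := by
      simp only [e4, cavg_add, cavg_smul, cavg_const, o1, o3, ih2', smul_zero, add_zero]
      simp only [smul_eq_mul]
      linarith
    refine ⟨?_, ?_⟩
    · rw [c2, Finset.sum_insert hj, add_comm]
    · rw [Finset.sum_insert hj]
      refine c4.trans ?_
      nlinarith [sq_nonneg (a j ^ 2)]

/-- the Khintchine inequality (constant `√3`) for Rademacher sums -/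
lemma khinchine (a : I → ℝ) :
    √(∑ i, a i ^ 2) ≤ √3 * cavg (fun w : I → Bool => |∑ i, sg (w i) * a i|) := by
  obtain ⟨m2, m4⟩ := moments a Finset.univ
  set σ := √(∑ i, a i ^ 2) with hσ
  have hσ2 : σ ^ 2 = ∑ i, a i ^ 2 := Real.sq_sqrt (Finset.sum_nonneg fun i _ => sq_nonneg _)
  rw [← hσ2] at m2 m4
  have hnn : 0 ≤ cavg (fun w : I → Bool => |∑ i, sg (w i) * a i|) :=
    cavg_nonneg fun w => abs_nonneg _
  rcases (Real.sqrt_nonneg (∑ i, a i ^ 2)).eq_or_lt with h0 | h0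
  · rw [hσ, ← h0]
    positivity
  · rw [← hσ] at h0
    have h3 : √3 ^ 2 = (3:ℝ) := Real.sq_sqrt (by norm_num)
    have h3p : (0:ℝ) < √3 := Real.sqrt_pos.mpr (by norm_num)
    set A := √3 * σ with hA
    have hAp : 0 < A := by positivity
    have pw : ∀ v : ℝ, (3 / (2 * A)) • v ^ 2 - (1 / (2 * A ^ 3)) • v ^ 4 ≤ |v| := by
      intro v
      simp only [smul_eq_mul]
      have hv : 0 ≤ |v| := abs_nonneg v
      have e2 : v ^ 2 = |v| ^ 2 := (sq_abs v).symm
      have e4 : v ^ 4 = |v| ^ 4 := by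
        have : v ^ 4 = (v ^ 2) ^ 2 := by ring
        rw [this, e2]; ring
      rw [e2, e4]
      have key : 0 ≤ |v| * ((|v| - A) ^ 2 * (|v| + 2 * A)) / (2 * A ^ 3) := by positivity
      have e : |v| * ((|v| - A) ^ 2 * (|v| + 2 * A)) / (2 * A ^ 3)
          = |v| - (3 / (2 * A) * |v| ^ 2 - 1 / (2 * A ^ 3) * |v| ^ 4) := by
        field_simp
        ring
      rw [e] at key
      linarith
    have h1 := cavg_mono (I := I) (fun w => pw (∑ i, sg (w i) * a i))
    rw [cavg_sub, cavg_smul, cavg_smul] at h1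
    simp only [smul_eq_mul] at h1
    rw [m2] at h1
    have h2 : 1 / (2 * A ^ 3) * cavg (fun w : I → Bool => (∑ i, sg (w i) * a i) ^ 4)
        ≤ 1 / (2 * A ^ 3) * (3 * (σ ^ 2) ^ 2) :=
      mul_le_mul_of_nonneg_left m4 (by positivity)
    have h4 : 3 / (2 * A) * σ ^ 2 - 1 / (2 * A ^ 3) * (3 * (σ ^ 2) ^ 2) = σ / √3 := by
      rw [hA]
      have h33 : √3 ^ 3 = 3 * √3 := by
        rw [pow_succ, h3]
      field_simp
      rw [h3]
      ring
    have h5 : σ / √3 ≤ cavg (fun w : I → Bool => |∑ i, sg (w i) * a i|) := by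
      rw [← h4]; linarith
    rw [div_le_iff₀ h3p] at h5
    linarith

end cube

section sv
variable {m M : ℕ}

lemma Sv_apply (w : Fin m × Fin M → Bool) (i : Fin m) :
    Sv w i = (√(M:ℝ))⁻¹ * ∑ j, sg (w (i, j)) := by
  simp [Sv]

lemma inner_Sv (w : Fin m × Fin M → Bool) (t : E m) :
    ⟪Sv w, t⟫ = ∑ p : Fin m × Fin M, sg (w p) * (t p.1 * (√(M:ℝ))⁻¹) := by
  rw [PiLp.inner_apply, Fintype.sum_prod_type]
  refine Finset.sum_congr rfl fun i _ => ?_
  rw [Sv_apply, RCLike.inner_apply]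
  simp only [conj_trivial]
  rw [← Finset.sum_mul]
  ring

lemma norm_eq (hM : 1 ≤ M) (t : E m) :
    ‖t‖ = √(∑ p : Fin m × Fin M, (t p.1 * (√(M:ℝ))⁻¹) ^ 2) := by
  rw [EuclideanSpace.norm_eq, Fintype.sum_prod_type]
  congr 1
  refine Finset.sum_congr rfl fun i _ => ?_
  have hM' : (0:ℝ) < M := by exact_mod_cast hM
  have : (√(M:ℝ)) ^ 2 = M := Real.sq_sqrt hM'.le
  simp only [Finset.sum_const, Finset.card_univ, Fintype.card_fin, nsmul_eq_mul, Real.norm_eq_abs,
    sq_abs, mul_pow, inv_pow, this]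
  field_simp

lemma norm_le_khin (hM : 1 ≤ M) (t : E m) :
    ‖t‖ ≤ √3 * cavg (fun w : Fin m × Fin M → Bool => |⟪Sv w, t⟫|) := by
  have h := khinchine (I := Fin m × Fin M) (fun p => t p.1 * (√(M:ℝ))⁻¹)
  rw [← norm_eq hM] at h
  simpa only [inner_Sv] using h

/-- the ell-norm of an operator -/
noncomputable def ell (M : ℕ) (N : Seminorm ℝ (E m)) (A : E m →L[ℝ] E m) : ℝ :=
  cavg (fun w : Fin m × Fin M → Bool => N (A (Sv w)))

variable {N : Seminorm ℝ (E m)}

lemma ell_nonneg (A : E m →L[ℝ] E m) : 0 ≤ ell M N A := cavg_nonneg fun _ => apply_nonneg _ _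

lemma ell_add_le (A B : E m →L[ℝ] E m) : ell M N (A + B) ≤ ell M N A + ell M N B := by
  unfold ell
  rw [← cavg_add]
  refine cavg_mono fun w => ?_
  simpa using map_add_le_add N (A (Sv w)) (B (Sv w))

lemma ell_smul (c : ℝ) (A : E m →L[ℝ] E m) : ell M N (c • A) = |c| * ell M N A := by
  unfold ell
  rw [← smul_eq_mul, ← cavg_smul]
  congr 1
  funext w
  simp [map_smul_eq_mul]

lemma ell_continuous : Continuous (ell M N) := by
  have h0 : Continuous fun A : E m →L[ℝ] E m =>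
      ∑ w : Fin m × Fin M → Bool, N (A (Sv w)) := by
    refine continuous_finsetSum _ fun w _ => ?_
    have h : Continuous fun A : E m →L[ℝ] E m => A (Sv w : E m) :=
      (ContinuousLinearMap.apply ℝ (E m) (Sv w : E m)).continuous
    exact (seminorm_continuous N).comp h
  exact (continuous_const (y := ((2:ℝ) ^ Fintype.card (Fin m × Fin M))⁻¹)).mul h0

lemma norm_le_ell (hM : 1 ≤ M) (h1 : ∀ x, ‖x‖ ≤ N x) (A : E m →L[ℝ] E m) :
    ‖A‖ ≤ √3 * ell M N A := by
  rw [← (ContinuousLinearMap.adjoint (𝕜 := ℝ) (E := E m) (F := E m)).norm_map A]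
  refine ContinuousLinearMap.opNorm_le_bound _ (mul_nonneg (by positivity) (ell_nonneg A)) ?_
  intro e
  refine (norm_le_khin hM _).trans ?_
  rw [mul_assoc]
  refine mul_le_mul_of_nonneg_left ?_ (by positivity)
  rw [mul_comm, ← smul_eq_mul]
  unfold ell
  rw [← cavg_smul]
  refine cavg_mono fun w => ?_
  rw [ContinuousLinearMap.adjoint_inner_right, smul_eq_mul, mul_comm]
  exact (abs_real_inner_le_norm _ _).trans (mul_le_mul_of_nonneg_right (h1 _) (norm_nonneg _))

lemma det_smul_clm (c : ℝ) (A : E m →L[ℝ] E m) : (c • A).det = c ^ m * A.det := by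
  have := LinearMap.det_smul c (A : E m →ₗ[ℝ] E m)
  rw [finrank_euclideanSpace, Fintype.card_fin] at this
  exact this

lemma exists_max (hm : 1 ≤ m) (hM : 1 ≤ M) (h1 : ∀ x, ‖x‖ ≤ N x) :
    ∃ U : E m →L[ℝ] E m, ell M N U ≤ 1 ∧ 0 < U.det ∧
      ∀ A : E m →L[ℝ] E m, A.det ≤ U.det * ell M N A ^ m := by
  have hcomp : IsCompact {A : E m →L[ℝ] E m | ell M N A ≤ 1} := by
    refine Metric.isCompact_of_isClosed_isBounded ?_ ?_
    · exact isClosed_le ell_continuous continuous_const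
    · refine (Metric.isBounded_closedBall (x := (0 : E m →L[ℝ] E m)) (r := √3)).subset ?_
      intro A hA
      have hA' : ell M N A ≤ 1 := hA
      have := norm_le_ell hM h1 A
      have h3 : (0:ℝ) ≤ √3 := by positivity
      simp only [mem_closedBall_zero_iff]
      nlinarith
  obtain ⟨U, hU, hmax⟩ := hcomp.exists_isMaxOn ⟨0, by simp [ell, cavg]⟩
    (f := fun A : E m →L[ℝ] E m => A.det) ContinuousLinearMap.continuous_det.continuousOn
  have hmax' : ∀ A : E m →L[ℝ] E m, ell M N A ≤ 1 → A.det ≤ U.det := fun A hA => hmax hA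
  have hpos : 0 < U.det := by
    set c : ℝ := (1 + ell M N (ContinuousLinearMap.id ℝ (E m)))⁻¹ with hc
    have hl := ell_nonneg (M := M) (N := N) (ContinuousLinearMap.id ℝ (E m))
    have hcp : 0 < c := by positivity
    have h2 : ell M N (c • ContinuousLinearMap.id ℝ (E m)) ≤ 1 := by
      rw [ell_smul, abs_of_pos hcp, hc, inv_mul_le_iff₀ (by positivity)]
      linarith
    refine lt_of_lt_of_le ?_ (hmax' _ h2)
    rw [det_smul_clm]
    have : (ContinuousLinearMap.id ℝ (E m)).det = 1 := by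
      simp [ContinuousLinearMap.det]
    rw [this]
    positivity
  refine ⟨U, hU, hpos, fun A => ?_⟩
  rcases (ell_nonneg (M := M) (N := N) A).eq_or_lt with h0 | h0
  · have hA0 : A = 0 := by
      have := norm_le_ell hM h1 A
      rw [← h0, mul_zero] at this
      exact norm_le_zero_iff.mp this
    have h3 : A.det = 0 := by
      have := det_smul_clm (m := m) 0 A
      rw [show ((0:ℝ) • A) = 0 from zero_smul ℝ A, zero_pow (by omega), zero_mul] at this
      rw [hA0]; exact this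
    rw [h3, ← h0, zero_pow (by omega), mul_zero]
  · have h2 : ell M N ((ell M N A)⁻¹ • A) ≤ 1 := by
      rw [ell_smul, abs_of_pos (inv_pos.mpr h0), inv_mul_cancel₀ h0.ne']
    have h3 := hmax' _ h2
    rw [det_smul_clm, inv_pow, inv_mul_le_iff₀ (by positivity)] at h3
    linarith

lemma det_one_add (T : E m →ₗ[ℝ] E m) :
    ∃ p : Polynomial ℝ, ∀ t : ℝ, LinearMap.det (1 + t • T)
      = 1 + LinearMap.trace ℝ (E m) T * t + p.eval t * t ^ 2 := by
  classical
  let b := (EuclideanSpace.basisFun (Fin m) ℝ).toBasis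
  refine ⟨(Matrix.det (1 + (Polynomial.X : Polynomial ℝ) •
    (LinearMap.toMatrix b b T).map Polynomial.C)).divX.divX, fun t => ?_⟩
  rw [← LinearMap.det_toMatrix b, LinearMap.trace_eq_matrix_trace ℝ b]
  rw [← Matrix.det_one_add_smul]
  congr 1
  simp [LinearMap.toMatrix_one]

/-- one sided derivative comparison -/
lemma le_of_poly {a l : ℝ} {m : ℕ} {p : Polynomial ℝ}
    (h : ∀ t : ℝ, 0 < t → 1 + a * t + p.eval t * t ^ 2 ≤ (1 + t * l) ^ m) : a ≤ m * l := by
  have hd : HasDerivAt (fun t : ℝ => (1 + t * l) ^ m - (1 + a * t + p.eval t * t ^ 2))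
      (m * l - a) 0 := by
    have h1 : HasDerivAt (fun t : ℝ => (1 + t * l) ^ m) (m * (1 + 0 * l) ^ (m - 1) * (1 * l)) 0 :=
      (((hasDerivAt_id (0:ℝ)).mul_const l).const_add 1).pow m
    have h2 : HasDerivAt (fun t : ℝ => 1 + a * t) (a * 1) 0 :=
      ((hasDerivAt_id (0:ℝ)).const_mul a).const_add 1
    have h3 : HasDerivAt (fun t : ℝ => p.eval t * t ^ 2)
        (p.derivative.eval 0 * 0 ^ 2 + p.eval 0 * (2 * 0 ^ 1)) 0 :=
      (p.hasDerivAt 0).mul (by simpa using hasDerivAt_pow 2 (0:ℝ))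
    refine (h1.sub (h2.add h3)).congr_deriv ?_
    simp
  have hsl := hd.tendsto_slope_zero_right
  have hge : (0:ℝ) ≤ m * l - a := by
    refine ge_of_tendsto hsl ?_
    filter_upwards [self_mem_nhdsWithin] with t ht
    have ht' : (0:ℝ) < t := ht
    have := h t ht'
    have h0 : (1 + (0:ℝ) * l) ^ m - (1 + a * 0 + p.eval 0 * 0 ^ 2) = 0 := by simp
    rw [zero_add, h0, sub_zero, smul_eq_mul]
    have : 0 ≤ (1 + t * l) ^ m - (1 + a * t + p.eval t * t ^ 2) := by linarith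
    positivity
  linarith

/-- Lewis' inequality -/
lemma lewis {u : E m ≃L[ℝ] E m} (hu1 : ell M N (u : E m →L[ℝ] E m) ≤ 1)
    (hpos : 0 < (u : E m →L[ℝ] E m).det)
    (hmax : ∀ A : E m →L[ℝ] E m, A.det ≤ (u : E m →L[ℝ] E m).det * ell M N A ^ m)
    (W : E m →L[ℝ] E m) :
    LinearMap.trace ℝ (E m) (((u.symm : E m →L[ℝ] E m).comp W : E m →L[ℝ] E m) : E m →ₗ[ℝ] E m)
      ≤ m * ell M N W := by
  obtain ⟨p, hp⟩ := det_one_add
    ((((u.symm : E m →L[ℝ] E m).comp W : E m →L[ℝ] E m) : E m →ₗ[ℝ] E m))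
  refine le_of_poly (p := p) fun t ht => ?_
  rw [← hp t]
  have h1 : ((u : E m →L[ℝ] E m) + t • W).det = (u : E m →L[ℝ] E m).det *
      LinearMap.det (1 + t • (((u.symm : E m →L[ℝ] E m).comp W : E m →L[ℝ] E m) :
        E m →ₗ[ℝ] E m)) := by
    have : ((((u : E m →L[ℝ] E m) + t • W : E m →L[ℝ] E m)) : E m →ₗ[ℝ] E m)
        = ((u : E m →L[ℝ] E m) : E m →ₗ[ℝ] E m) *
          (1 + t • (((u.symm : E m →L[ℝ] E m).comp W : E m →L[ℝ] E m) : E m →ₗ[ℝ] E m)) := by
      ext x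
      simp
    rw [ContinuousLinearMap.det, this, map_mul]
  have h2 := hmax ((u : E m →L[ℝ] E m) + t • W)
  rw [h1] at h2
  have h3 := le_of_mul_le_mul_left h2 hpos
  refine h3.trans ?_
  have h4 : ell M N ((u : E m →L[ℝ] E m) + t • W) ≤ 1 + t * ell M N W := by
    refine (ell_add_le _ _).trans ?_
    rw [ell_smul, abs_of_pos ht]
    linarith
  exact pow_le_pow_left₀ (ell_nonneg _) h4 m

/-- the coefficients `avg (w_{ij} F)` do not depend on `j` when `F` is a function of `Sv w` -/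
lemma coeff_eq (Φ : E m → E m) (i : Fin m) (j j' : Fin M) :
    cavg (fun w : Fin m × Fin M → Bool => sg (w (i, j)) • Φ (Sv w))
      = cavg (fun w : Fin m × Fin M → Bool => sg (w (i, j')) • Φ (Sv w)) := by
  set e : (Fin m × Fin M → Bool) ≃ (Fin m × Fin M → Bool) :=
    Equiv.arrowCongr (Equiv.swap (i, j) (i, j')) (Equiv.refl Bool) with he
  have hS : ∀ w, (Sv (e w) : E m) = Sv w := by
    intro w
    ext i'
    rw [Sv_apply, Sv_apply]
    congr 1
    by_cases hi : i' = i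
    · subst hi
      have : ∀ q, e w (i', q) = w (i', Equiv.swap j j' q) := by
        intro q
        simp only [he, Equiv.arrowCongr_apply, Function.comp, Equiv.coe_refl, id]
        congr 1
        rw [Equiv.symm_swap]
        by_cases h1 : q = j
        · subst h1; simp
        · by_cases h2 : q = j'
          · subst h2; simp
          · rw [Equiv.swap_apply_of_ne_of_ne, Equiv.swap_apply_of_ne_of_ne h1 h2]
            · simpa using h1
            · simpa using h2
      simp only [this]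
      exact Equiv.sum_comp (Equiv.swap j j') (fun q => sg (w (i', q)))
    · refine Finset.sum_congr rfl fun q _ => ?_
      simp only [he, Equiv.arrowCongr_apply, Function.comp, Equiv.coe_refl, id]
      rw [Equiv.symm_swap, Equiv.swap_apply_of_ne_of_ne]
      · simp [hi]
      · simp [hi]
  rw [← cavg_comp_equiv e (fun w => sg (w (i, j)) • Φ (Sv w))]
  congr 1
  funext w
  rw [hS]
  congr 2
  simp [he]

lemma coeff_sum (hM : 1 ≤ M) (Φ : E m → E m) (i : Fin m) (j : Fin M) :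
    cavg (fun w : Fin m × Fin M → Bool => sg (w (i, j)) • Φ (Sv w))
      = (√(M:ℝ))⁻¹ • cavg (fun w : Fin m × Fin M → Bool => (Sv w : E m) i • Φ (Sv w)) := by
  have hM' : (0:ℝ) < M := by exact_mod_cast hM
  have hs : (√(M:ℝ)) * √(M:ℝ) = M := Real.mul_self_sqrt hM'.le
  have hs0 : √(M:ℝ) ≠ 0 := (Real.sqrt_pos.mpr hM').ne'
  have h1 : cavg (fun w : Fin m × Fin M → Bool => (Sv w : E m) i • Φ (Sv w))
      = (√(M:ℝ))⁻¹ • ∑ j', cavg (fun w : Fin m × Fin M → Bool => sg (w (i, j')) • Φ (Sv w)) := by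
    rw [← cavg_sum, ← cavg_smul]
    congr 1
    funext w
    rw [Sv_apply, ← Finset.sum_smul, smul_smul]
  rw [h1, Finset.sum_congr rfl (fun j' _ => coeff_eq Φ i j' j), Finset.sum_const,
    Finset.card_univ, Fintype.card_fin, ← Nat.cast_smul_eq_nsmul ℝ, smul_smul, smul_smul]
  have : (√(M:ℝ))⁻¹ * (√(M:ℝ))⁻¹ * (M:ℝ) = 1 := by
    rw [← mul_inv, hs, inv_mul_cancel₀ hM'.ne']
  rw [this, one_smul]

/-- the operator `x ↦ avg ⟪Sv w, x⟫ Φ (Sv w)` -/
noncomputable def Wop (M : ℕ) (Φ : E m → E m) : E m →L[ℝ] E m :=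
  cavg (fun w : Fin m × Fin M → Bool => (innerSL ℝ (Sv w : E m)).smulRight (Φ (Sv w)))

lemma Wop_apply (Φ : E m → E m) (x : E m) :
    Wop M Φ x = cavg (fun w : Fin m × Fin M → Bool => ⟪(Sv w : E m), x⟫ • Φ (Sv w)) := by
  simp [Wop, cavg]

lemma Wop_Sv (hM : 1 ≤ M) (Φ : E m → E m) (v : Fin m × Fin M → Bool) :
    Wop M Φ (Sv v) = ∑ p : Fin m × Fin M, sg (v p) •
      cavg (fun w : Fin m × Fin M → Bool => sg (w p) • Φ (Sv w)) := by
  rw [Wop_apply, Fintype.sum_prod_type]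
  simp only [coeff_sum hM]
  have h1 : ∀ w : Fin m × Fin M → Bool, ⟪(Sv w : E m), Sv v⟫ • Φ (Sv w)
      = ∑ i, (Sv v : E m) i • ((Sv w : E m) i • Φ (Sv w)) := by
    intro w
    rw [PiLp.inner_apply, Finset.sum_smul]
    refine Finset.sum_congr rfl fun i _ => ?_
    rw [RCLike.inner_apply, smul_smul]
    simp
  simp only [h1]
  rw [cavg_sum]
  refine Finset.sum_congr rfl fun i _ => ?_
  rw [cavg_smul, ← Finset.sum_smul, smul_smul, Sv_apply, mul_comm]

lemma trace_comp_Wop (u : E m →L[ℝ] E m) (Φ : E m → E m) :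
    LinearMap.trace ℝ (E m) ((u.comp (Wop M Φ) : E m →L[ℝ] E m) : E m →ₗ[ℝ] E m)
      = cavg (fun w : Fin m × Fin M → Bool => ⟪(Sv w : E m), u (Φ (Sv w))⟫) := by
  have h : ((u.comp (Wop M Φ) : E m →L[ℝ] E m) : E m →ₗ[ℝ] E m)
      = cavg (fun w : Fin m × Fin M → Bool =>
        (innerₛₗ ℝ (Sv w : E m)).smulRight (u (Φ (Sv w)))) := by
    ext x : 1
    simp [Wop_apply, cavg, map_sum]
  rw [h, cavg_map]
  simp

end sv

end Lewis

open Lewis in
theorem cube_position_of_kconv (m n M : ℕ) (hm : 1 ≤ m) (hM : 1 ≤ M)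
    (N : Seminorm ℝ (E m)) (d : ℝ)
    (hk : ∀ F : (Fin m × Fin M → Bool) → E m, (∀ w, N (F w) ≤ 1) →
      cavg (fun w : Fin m × Fin M → Bool =>
        N (∑ i, sg (w i) • cavg (fun w' : Fin m × Fin M → Bool => sg (w' i) • F w')))
      ≤ 6 * (n:ℝ) ^ 2)
    (h1 : ∀ x, ‖x‖ ≤ N x) (h2 : ∀ x, N x ≤ d * ‖x‖) :
    ∃ u : E m ≃L[ℝ] E m,
      cavg (fun w : Fin m × Fin M → Bool => N (u (Sv w))) ≤ 1 ∧
      cavg (fun w : Fin m × Fin M → Bool =>
        dualN N (ContinuousLinearMap.adjoint (u.symm : E m →L[ℝ] E m) (Sv w)))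
          ≤ m * (6 * (n:ℝ) ^ 2) ∧
      (∀ x, ‖u x‖ ≤ √3 * ‖x‖) ∧
      (∀ x, ‖u.symm x‖ ≤ √3 * d * (m * (6 * (n:ℝ) ^ 2)) * ‖x‖) := by
  have hdef : Definite N := ⟨1, one_pos, fun x => by simpa using h1 x⟩
  have hd0 : 0 ≤ d := by
    have := (h1 (EuclideanSpace.single ⟨0, hm⟩ (1:ℝ))).trans (h2 _)
    rw [PiLp.norm_single] at this
    simp at this
    linarith
  obtain ⟨U, hU1, hU2, hU3⟩ := exists_max (N := N) hm hM h1
  set u : E m ≃L[ℝ] E m := U.toContinuousLinearEquivOfDetNeZero hU2.ne' with hu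
  have huU : (u : E m →L[ℝ] E m) = U := by
    rw [hu]; exact ContinuousLinearMap.coe_toContinuousLinearEquivOfDetNeZero _ _
  have key : cavg (fun w : Fin m × Fin M → Bool =>
        dualN N (ContinuousLinearMap.adjoint (u.symm : E m →L[ℝ] E m) (Sv w)))
          ≤ m * (6 * (n:ℝ) ^ 2) := by
    choose Φ hΦ1 hΦ2 using fun s : E m =>
      exists_dualN hdef (ContinuousLinearMap.adjoint (u.symm : E m →L[ℝ] E m) s)
    have hl := lewis (u := u) (N := N) (M := M) (by rw [huU]; exact hU1) (by rw [huU]; exact hU2)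
      (by rw [huU]; exact hU3) (Wop M Φ)
    rw [trace_comp_Wop] at hl
    have e1 : (fun w : Fin m × Fin M → Bool =>
        ⟪(Sv w : E m), (u.symm : E m →L[ℝ] E m) (Φ (Sv w))⟫) = fun w =>
        dualN N (ContinuousLinearMap.adjoint (u.symm : E m →L[ℝ] E m) (Sv w)) := by
      funext w
      rw [← hΦ2, ContinuousLinearMap.adjoint_inner_right, real_inner_comm]
    rw [e1] at hl
    refine hl.trans (mul_le_mul_of_nonneg_left ?_ (by positivity))
    have := hk (fun w => Φ (Sv w)) (fun w => hΦ1 _)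
    refine le_trans (le_of_eq ?_) this
    unfold ell
    congr 1
    funext w
    rw [Wop_Sv hM]
  refine ⟨u, ?_, key, ?_, ?_⟩
  · have : ell M N (u : E m →L[ℝ] E m) ≤ 1 := by rw [huU]; exact hU1
    exact this
  · intro x
    have h3 : ‖(u : E m →L[ℝ] E m)‖ ≤ √3 := by
      have := norm_le_ell hM h1 (u : E m →L[ℝ] E m)
      rw [huU] at this ⊢
      have h3 : (0:ℝ) ≤ √3 := by positivity
      nlinarith
    exact ((u : E m →L[ℝ] E m).le_opNorm x).trans
      (mul_le_mul_of_nonneg_right h3 (norm_nonneg _))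
  · intro x
    refine (norm_le_khin hM _).trans ?_
    have h4 : cavg (fun w : Fin m × Fin M → Bool => |⟪(Sv w : E m), u.symm x⟫|)
        ≤ (‖x‖ * d) * cavg (fun w : Fin m × Fin M → Bool =>
        dualN N (ContinuousLinearMap.adjoint (u.symm : E m →L[ℝ] E m) (Sv w))) := by
      rw [← smul_eq_mul (‖x‖ * d), ← cavg_smul]
      refine cavg_mono fun w => ?_
      have h5 : ⟪(Sv w : E m), u.symm x⟫
          = ⟪ContinuousLinearMap.adjoint (u.symm : E m →L[ℝ] E m) (Sv w), x⟫ := by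
        rw [ContinuousLinearMap.adjoint_inner_left]; rfl
      rw [h5, smul_eq_mul]
      have h6 := norm_le_dualN hdef h2
        (ContinuousLinearMap.adjoint (u.symm : E m →L[ℝ] E m) (Sv w))
      refine (abs_real_inner_le_norm _ _).trans ?_
      have := norm_nonneg x
      nlinarith
    have h7 : cavg (fun w : Fin m × Fin M → Bool => |⟪(Sv w : E m), u.symm x⟫|)
        ≤ (‖x‖ * d) * (m * (6 * (n:ℝ) ^ 2)) :=
      h4.trans (mul_le_mul_of_nonneg_left key (by positivity))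
    calc √3 * cavg (fun w : Fin m × Fin M → Bool => |⟪(Sv w : E m), u.symm x⟫|)
        ≤ √3 * ((‖x‖ * d) * (m * (6 * (n:ℝ) ^ 2))) := mul_le_mul_of_nonneg_left h7 (by positivity)
      _ = _ := by ring

theorem cube_position (m n M : ℕ) (hm : 1 ≤ m) (hn : 1 ≤ n) (hM : 1 ≤ M)
    (N : Seminorm ℝ (E m)) (d : ℝ) (hd : d ≤ 4 ^ n)
    (h1 : ∀ x, ‖x‖ ≤ N x) (h2 : ∀ x, N x ≤ d * ‖x‖) :
    ∃ u : E m ≃L[ℝ] E m,
      cavg (fun w : Fin m × Fin M → Bool => N (u (Sv w))) ≤ 1 ∧
      cavg (fun w : Fin m × Fin M → Bool =>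
        dualN N (ContinuousLinearMap.adjoint (u.symm : E m →L[ℝ] E m) (Sv w)))
          ≤ m * (6 * (n:ℝ) ^ 2) ∧
      (∀ x, ‖u x‖ ≤ √3 * ‖x‖) ∧
      (∀ x, ‖u.symm x‖ ≤ √3 * d * (m * (6 * (n:ℝ) ^ 2)) * ‖x‖) :=
  cube_position_of_kconv m n M hm hM N d
    (fun F hF => kconv n hn N h1
      (fun x => (h2 x).trans (mul_le_mul_of_nonneg_right hd (norm_nonneg x))) F hF) h1 h2

end D546neg
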