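/-
MP_d546a0_lc, negation S15426, lemma A: the Gaussian position lemma, from the cube position
lemma (helper70) and the limit argument (helper74).
-/
import Pool.Agent.H.MP_d546a0_lc.neg.GaussPos
import Pool.Agent.H.MP_d546a0_lc.neg.Lewis

set_option autoImplicit false

namespace D546neg

open MeasureTheory ProbabilityTheory
open scoped RealInnerProductSpace BigOperators

/-- LEMMA A of the blueprint. -/
theorem gauss_position (m n : ℕ) (hm : 1 ≤ m) (hn : 1 ≤ n)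
    (N : Seminorm ℝ (E m)) (d : ℝ) (hd : d ≤ 4 ^ n)
    (h1 : ∀ x, ‖x‖ ≤ N x) (h2 : ∀ x, N x ≤ d * ‖x‖) :
    ∃ u : E m ≃L[ℝ] E m,
      ∫ g, N (u g) ∂(γ m) ≤ 6 * (n:ℝ) ^ 2 ∧
      ∫ g, dualN N (ContinuousLinearMap.adjoint (u.symm : E m →L[ℝ] E m) g) ∂(γ m) ≤ m ∧
      (∀ x, ‖u x‖ ≤ √3 * (6 * (n:ℝ) ^ 2) * ‖x‖) :=
  gauss_position_of_cube m n hn N d h1 h2
    (fun M hM => cube_position m n M hm hn hM N d hd h1 h2)

end D546neg
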