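/-
MP_d546a0_lc, negation S15426: the growth step (helper18).
-/
import Pool.Agent.H.MP_d546a0_lc.neg.Block

set_option autoImplicit false

namespace D546neg

open MeasureTheory ProbabilityTheory Real
open scoped RealInnerProductSpace BigOperators ENNReal

variable {m : ℕ}

/-- the infimal convolution with a multiple of the norm is attained. -/
lemma exists_inf_eq (p : Seminorm ℝ (E m)) (c : ℝ) (hc : 0 < c) (x : E m) :
    ∃ v, (p ⊓ nrm m c) x = p v + c * ‖x - v‖ := by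
  have hcont : Continuous fun v : E m => p v + c * ‖x - v‖ := by
    have := seminorm_continuous p
    fun_prop
  have hlim : Filter.Tendsto (fun v : E m => p v + c * ‖x - v‖) (Filter.cocompact (E m))
      Filter.atTop := by
    have h1 : Filter.Tendsto (fun v : E m => ‖v‖) (Filter.cocompact (E m)) Filter.atTop :=
      tendsto_norm_cocompact_atTop
    have h2 : Filter.Tendsto (fun v : E m => c * (‖v‖ - ‖x‖)) (Filter.cocompact (E m))
        Filter.atTop :=
      (Filter.tendsto_atTop_add_const_right _ _ h1).const_mul_atTop hc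
    refine Filter.tendsto_atTop_mono (fun v => ?_) h2
    have h3 : ‖v‖ - ‖x‖ ≤ ‖x - v‖ := by
      rw [norm_sub_rev]
      exact norm_sub_norm_le v x
    have h4 := mul_le_mul_of_nonneg_left h3 hc.le
    have h5 := apply_nonneg p v
    linarith
  obtain ⟨v, hv⟩ := hcont.exists_forall_le hlim
  refine ⟨v, ?_⟩
  rw [Seminorm.inf_apply]
  have h6 : ∀ w : E m, p w + nrm m c (x - w) = p w + c * ‖x - w‖ := by
    intro w
    rw [nrm_apply, abs_of_pos hc]
  simp_rw [h6]
  refine le_antisymm ?_ (le_ciInf hv)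
  refine ciInf_le ⟨0, ?_⟩ v
  rintro _ ⟨w, rfl⟩
  have := apply_nonneg p w
  positivity

/-- the width seminorm of the group of `T` consecutive leaves starting at `base`. -/
noncomputable def grp (a : ℕ → E m) (base T : ℕ) : Seminorm ℝ (E m) :=
  NK (fun rr : Fin T × Fin T => a (base + rr.1) - a (base + rr.2))

lemma grp_ge (a : ℕ → E m) (base T r r' : ℕ) (hr : r < T) (hr' : r' < T) (x : E m) :
    ⟪a (base + r), x⟫ - ⟪a (base + r'), x⟫ ≤ grp a base T x := by
  have := le_NK (fun rr : Fin T × Fin T => a (base + rr.1) - a (base + rr.2)) x (⟨r, hr⟩, ⟨r', hr'⟩)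
  simp only at this
  rw [inner_sub_left] at this
  exact (le_abs_self _).trans this

lemma grp_attained (a : ℕ → E m) (base T : ℕ) (hT : 1 ≤ T) (x : E m) :
    ∃ rr : Fin T × Fin T, grp a base T x = ⟪a (base + rr.1) - a (base + rr.2), x⟫ := by
  have hne : (Finset.univ : Finset (Fin T × Fin T)).Nonempty :=
    ⟨(⟨0, by omega⟩, ⟨0, by omega⟩), Finset.mem_univ _⟩
  obtain ⟨rr, -, hrr⟩ := Seminorm.exists_apply_eq_finset_sup
    (fun rr : Fin T × Fin T => (innerₛₗ ℝ (a (base + rr.1) - a (base + rr.2))).toSeminorm) hne x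
  have h1 : grp a base T x = |⟪a (base + rr.1) - a (base + rr.2), x⟫| := by
    unfold grp NK
    rw [hrr]
    rfl
  rcases abs_cases ⟪a (base + rr.1) - a (base + rr.2), x⟫ with ⟨h, _⟩ | ⟨h, _⟩
  · exact ⟨rr, by rw [h1, h]⟩
  · refine ⟨(rr.2, rr.1), ?_⟩
    rw [h1, h, ← inner_neg_left, neg_sub]

/-- average width seminorm at a given height. -/
noncomputable def Osem (a : ℕ → E m) (n T : ℕ) : Seminorm ℝ (E m) :=
  Seminorm.of (fun x => (n:ℝ)⁻¹ * ∑ u ∈ Finset.range n, grp a (u * T) T x)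
    (fun x y => by
      rw [← mul_add, ← Finset.sum_add_distrib]
      exact mul_le_mul_of_nonneg_left (Finset.sum_le_sum fun u _ => map_add_le_add _ _ _)
        (by positivity))
    (fun c x => by
      simp only [map_smul_eq_mul]
      rw [← Finset.mul_sum]
      ring)

lemma Osem_apply (a : ℕ → E m) (n T : ℕ) (x : E m) :
    Osem a n T x = (n:ℝ)⁻¹ * ∑ u ∈ Finset.range n, grp a (u * T) T x := rfl

lemma Osem_le (a : ℕ → E m) (n T : ℕ) (K : Seminorm ℝ (E m)) (ha : ∀ v x, |⟪a v, x⟫| ≤ K x)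
    (x : E m) : Osem a n T x ≤ 2 * K x := by
  rw [Osem_apply]
  have h1 : ∀ u ∈ Finset.range n, grp a (u * T) T x ≤ 2 * K x := by
    intro u _
    have h0 : (0:ℝ) ≤ 2 * K x := by
      have := apply_nonneg K x
      positivity
    refine (NK_le_iff h0).2 fun rr => ?_
    rw [inner_sub_left]
    have h2 := ha (u * T + rr.1) x
    have h3 := ha (u * T + rr.2) x
    have := abs_sub ⟪a (u * T + rr.1), x⟫ ⟪a (u * T + rr.2), x⟫
    linarith
  rcases Nat.eq_zero_or_pos n with rfl | hn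
  · simp only [CharP.cast_eq_zero, inv_zero, zero_mul]
    have := apply_nonneg K x
    positivity
  · have hn' : 0 < (n:ℝ) := by exact_mod_cast hn
    rw [inv_mul_le_iff₀ hn']
    refine (Finset.sum_le_sum h1).trans ?_
    simp

/-- reindexing the groups. -/
lemma sum_groups {V : Type*} [AddCommMonoid V] (n' nb S : ℕ) (F : ℕ → V) :
    ∑ u ∈ Finset.range (n' * (nb * S)), F u
      = ∑ p ∈ Finset.range n', ∑ b : Fin nb, ∑ s : Fin S, F ((p * nb + b) * S + s) := by
  have h : ∀ (q r : ℕ) (G : ℕ → V), ∑ u ∈ Finset.range (q * r), G u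
      = ∑ p ∈ Finset.range q, ∑ i ∈ Finset.range r, G (p * r + i) := by
    intro q r G
    induction q with
    | zero => simp
    | succ q ih =>
      rw [Nat.succ_mul, Finset.sum_range_add, ih, Finset.sum_range_succ]
  rw [h]
  refine Finset.sum_congr rfl fun p _ => ?_
  rw [h]
  rw [Finset.sum_range fun b => ∑ i ∈ Finset.range S, F (p * (nb * S) + (b * S + i))]
  refine Finset.sum_congr rfl fun b _ => ?_
  rw [Finset.sum_range]
  refine Finset.sum_congr rfl fun s _ => ?_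
  congr 1
  ring

/-- lower bound of the coarse width by variation plus the average of the fine widths. -/
lemma coarse_ge (a : ℕ → E m) (base nb S T : ℕ) (hnb : 1 ≤ nb) (hS : 1 ≤ S)
    (v v' : Fin nb → Fin S → ℕ)
    (hv : ∀ b s, ∃ r < nb * S * T, v b s = base + r)
    (hv' : ∀ b s, ∃ r < nb * S * T, v' b s = base + r)
    (x : E m) (j : Fin nb → Fin S) :
    ⟪yv (fun b s => a (v b s)) j, x⟫
      + ((nb:ℝ) * S)⁻¹ * ∑ b, ∑ s, ⟪a (v b s) - a (v' b s), x⟫
      ≤ grp a base (nb * S * T) x := by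
  set N : ℝ := grp a base (nb * S * T) x with hN
  have h1 : ∀ b b' s', ⟪a (v b (j b)), x⟫ - ⟪a (v' b' s'), x⟫ ≤ N := by
    intro b b' s'
    obtain ⟨r, hr, hr2⟩ := hv b (j b)
    obtain ⟨r', hr', hr2'⟩ := hv' b' s'
    rw [hr2, hr2']
    exact grp_ge a base _ r r' hr hr' x
  have hnb' : 0 < (nb:ℝ) := by exact_mod_cast hnb
  have hS' : 0 < (S:ℝ) := by exact_mod_cast hS
  have h2 : ∑ b, ∑ b', ∑ s' : Fin S, (⟪a (v b (j b)), x⟫ - ⟪a (v' b' s'), x⟫)
      ≤ ∑ _b : Fin nb, ∑ _b' : Fin nb, ∑ _s' : Fin S, N :=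
    Finset.sum_le_sum fun b _ => Finset.sum_le_sum fun b' _ => Finset.sum_le_sum fun s' _ =>
      h1 b b' s'
  have h3 : ∑ b, ∑ b' : Fin nb, ∑ s' : Fin S, (⟪a (v b (j b)), x⟫ - ⟪a (v' b' s'), x⟫)
      = (nb:ℝ) * S * ∑ b, ⟪a (v b (j b)), x⟫ - nb * ∑ b, ∑ s, ⟪a (v' b s), x⟫ := by
    simp only [Finset.sum_sub_distrib, Finset.sum_const, Finset.card_univ, Fintype.card_fin,
      nsmul_eq_mul]
    rw [← Finset.mul_sum, ← Finset.mul_sum]
    ring
  rw [h3] at h2
  simp only [Finset.sum_const, Finset.card_univ, Fintype.card_fin, nsmul_eq_mul] at h2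
  have h4 : ⟪yv (fun b s => a (v b s)) j, x⟫
      = (nb:ℝ)⁻¹ * ∑ b, ⟪a (v b (j b)), x⟫ - ((nb:ℝ) * S)⁻¹ * ∑ b, ∑ s, ⟪a (v b s), x⟫ := by
    unfold yv
    rw [real_inner_smul_left, sum_inner]
    simp only [inner_sub_left, real_inner_smul_left, sum_inner]
    rw [Finset.sum_sub_distrib, ← Finset.mul_sum (s := (Finset.univ : Finset (Fin nb))), mul_sub, mul_inv, mul_assoc]
  have h5 : ∑ b, ∑ s, ⟪a (v b s) - a (v' b s), x⟫
      = ∑ b, ∑ s, ⟪a (v b s), x⟫ - ∑ b, ∑ s, ⟪a (v' b s), x⟫ := by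
    simp only [inner_sub_left, Finset.sum_sub_distrib]
  rw [h4, h5]
  have h6 : (nb:ℝ)⁻¹ * ∑ b, ⟪a (v b (j b)), x⟫ - ((nb:ℝ) * S)⁻¹ * ∑ b, ∑ s, ⟪a (v b s), x⟫
      + ((nb:ℝ) * S)⁻¹ * (∑ b, ∑ s, ⟪a (v b s), x⟫ - ∑ b, ∑ s, ⟪a (v' b s), x⟫)
      = ((nb:ℝ) * (nb * S))⁻¹ * ((nb:ℝ) * S * ∑ b, ⟪a (v b (j b)), x⟫
        - nb * ∑ b, ∑ s, ⟪a (v' b s), x⟫) := by
    field_simp
    ring
  rw [h6, inv_mul_le_iff₀ (by positivity)]
  refine h2.trans (le_of_eq ?_)
  ring

end D546neg
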