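/-
MP_d546a0_lc, negation S15426: the growth step, pointwise and integrated (helper18).
-/
import Pool.Agent.H.MP_d546a0_lc.neg.Growth

set_option autoImplicit false

namespace D546neg

open MeasureTheory ProbabilityTheory Real
open scoped RealInnerProductSpace BigOperators ENNReal

variable {m : ℕ}

lemma leaf_index (p nb S T b s r : ℕ) (hb : b < nb) (hs : s < S) (hr : r < T) :
    ∃ r' < nb * S * T, ((p * nb + b) * S + s) * T + r = p * (nb * S * T) + r' := by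
  refine ⟨(b * S + s) * T + r, ?_, by ring⟩
  have h1 : b * S + s + 1 ≤ nb * S := by
    have : (b + 1) * S ≤ nb * S := Nat.mul_le_mul_right _ hb
    nlinarith
  calc (b * S + s) * T + r < (b * S + s) * T + T := by omega
    _ = (b * S + s + 1) * T := by ring
    _ ≤ nb * S * T := Nat.mul_le_mul_right _ h1

lemma exists_yv_nonneg {n S : ℕ} (w : Fin n → Fin S → E m) (hS : 1 ≤ S) (x : E m) :
    ∃ j, 0 ≤ ⟪yv w j, x⟫ := by
  by_contra hcon
  push Not at hcon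
  have h1 : ∑ j, ⟪yv w j, x⟫ < 0 := by
    refine Finset.sum_neg (fun j _ => hcon j) ⟨fun _ => ⟨0, by omega⟩, Finset.mem_univ _⟩
  rw [← sum_inner, sum_yv w hS, inner_zero_left] at h1
  exact lt_irrefl _ h1

theorem growth_point (a : ℕ → E m) (R0 : ℝ) (hR0 : ∀ v, ‖a v‖ ≤ R0)
    (u : E m ≃L[ℝ] E m) (n' nb S T : ℕ) (hn' : 1 ≤ n') (hnb : 1 ≤ nb) (hS : 1 ≤ S) (hT : 1 ≤ T)
    (β B θ c A lam : ℝ) (hβ : 0 < β) (hθ : 0 < θ) (hA : 0 < A) (hlam : β * B / 2 = θ * lam)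
    (hev : ∀ p < n', ∀ v : Fin nb → Fin S → ℕ,
      (∀ b s, ∃ r < T, v b s = ((p * nb + b) * S + s) * T + r) → ∀ Sh : E m,
      ∃ Ω : Set (E m), MeasurableSet Ω ∧ 7 / 8 ≤ (γ m).real Ω ∧
        ∀ g ∈ Ω, ∀ h, ‖h‖ ≤ lam → ∃ j, A / 2 ≤ ⟪yv (fun b s => a (v b s)) j, u g + Sh - h⟫)
    (x : E m) :
    ∃ ρ : E m, ⟪ρ, x⟫ = (Osem a (n' * (nb * S)) T ⊓ nrm m (2 / β)) x ∧
      ∃ Ω : ℕ → Set (E m), (∀ p < n', MeasurableSet (Ω p) ∧ 7 / 8 ≤ (γ m).real (Ω p)) ∧
      ∀ g, ⟪ρ, c • x + θ • u g⟫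
          + (θ * A / 2) * ((n':ℝ)⁻¹ * ∑ p ∈ Finset.range n', (Ω p).indicator (fun _ => (1:ℝ)) g)
        ≤ (Osem a n' (nb * S * T) ⊓ nrm m (2 / β)) (c • x + θ • u g)
          + (θ * A / 2) * (if B ≤ (Osem a n' (nb * S * T) ⊓ nrm m (2 / β)) (c • x + θ • u g)
              then 1 else 0)
          + (4 * R0 / √(2 * ((n' * (nb * S) : ℕ) : ℝ))) * (‖c • x + θ • u g‖
              + (β / 2) * (Osem a n' (nb * S * T) ⊓ nrm m (2 / β)) (c • x + θ • u g)) := by
  classical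
  set n : ℕ := n' * (nb * S) with hn
  have hn1 : 1 ≤ n := Nat.mul_pos hn' (Nat.mul_pos hnb hS)
  set Ψ := Osem a n T ⊓ nrm m (2 / β) with hΨ
  set Ψ' := Osem a n' (nb * S * T) ⊓ nrm m (2 / β) with hΨ'
  set δ : ℝ := 4 * R0 / √(2 * (n : ℝ)) with hδ
  have hβ2 : 0 < 2 / β := by positivity
  obtain ⟨ρ, hρ1, hρ2⟩ := hb_seminorm Ψ x
  refine ⟨ρ, hρ2, ?_⟩
  have hρO : ∀ y, ⟪ρ, y⟫ ≤ Osem a n T y := fun y =>
    (hρ1 y).trans ((inf_le_left : Osem a n T ⊓ nrm m (2 / β) ≤ Osem a n T) y)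
  have hρn : ∀ y, ⟪ρ, y⟫ ≤ 2 / β * ‖y‖ := fun y => by
    refine (hρ1 y).trans (((inf_le_right : Osem a n T ⊓ nrm m (2 / β) ≤ nrm m (2 / β)) y).trans ?_)
    rw [nrm_apply, abs_of_pos hβ2]
  have : Nonempty (Fin n) := ⟨⟨0, hn1⟩⟩
  have : Nonempty (Fin T) := ⟨⟨0, hT⟩⟩
  -- rounding
  obtain ⟨sel, hsel⟩ := rounding (U := Fin n) (J := Fin T × Fin T)
    (fun w rr => a (w * T + rr.1) - a (w * T + rr.2)) (4 * R0) (by
      intro w i j
      have h1 := hR0 (w * T + i.1)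
      have h2 := hR0 (w * T + i.2)
      have h3 := hR0 (w * T + j.1)
      have h4 := hR0 (w * T + j.2)
      calc _ ≤ ‖a (w * T + i.1) - a (w * T + i.2)‖ + ‖a (w * T + j.1) - a (w * T + j.2)‖ :=
            norm_sub_le _ _
        _ ≤ (‖a (w * T + i.1)‖ + ‖a (w * T + i.2)‖) + (‖a (w * T + j.1)‖ + ‖a (w * T + j.2)‖) :=
            add_le_add (norm_sub_le _ _) (norm_sub_le _ _)
        _ ≤ 4 * R0 := by linarith) ρ (by
      intro y
      choose rr hrr using fun w : Fin n => grp_attained a (w * T) T hT y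
      refine ⟨rr, (hρO y).trans (le_of_eq ?_)⟩
      rw [Osem_apply, Fintype.card_fin, Finset.sum_range]
      congr 1
      exact Finset.sum_congr rfl fun w _ => hrr w)
  rw [Fintype.card_fin] at hsel
  set sel' : ℕ → Fin T × Fin T := fun w => if h : w < n then sel ⟨w, h⟩ else (⟨0, hT⟩, ⟨0, hT⟩)
    with hsel'
  set idx : ℕ → Fin nb → Fin S → ℕ := fun p b s => (p * nb + b) * S + s with hidx
  set v : ℕ → Fin nb → Fin S → ℕ := fun p b s => idx p b s * T + (sel' (idx p b s)).1 with hv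
  set v' : ℕ → Fin nb → Fin S → ℕ := fun p b s => idx p b s * T + (sel' (idx p b s)).2 with hv'
  have hvr : ∀ p b s, ∃ r < nb * S * T, v p b s = p * (nb * S * T) + r := fun p b s =>
    leaf_index p nb S T b s _ b.2 s.2 (sel' (idx p b s)).1.2
  have hvr' : ∀ p b s, ∃ r < nb * S * T, v' p b s = p * (nb * S * T) + r := fun p b s =>
    leaf_index p nb S T b s _ b.2 s.2 (sel' (idx p b s)).2.2
  have hev2 : ∀ p, ∃ Ω : Set (E m), p < n' → (MeasurableSet Ω ∧ 7 / 8 ≤ (γ m).real Ω ∧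
        ∀ g ∈ Ω, ∀ h, ‖h‖ ≤ lam → ∃ j, A / 2 ≤
          ⟪yv (fun b s => a (v p b s)) j, u g + (c / θ) • x - h⟫) := by
    intro p
    by_cases hp : p < n'
    · obtain ⟨Ω, hΩ⟩ := hev p hp (v p) (fun b s => ⟨_, (sel' (idx p b s)).1.2, rfl⟩) ((c / θ) • x)
      exact ⟨Ω, fun _ => hΩ⟩
    · exact ⟨∅, fun h => absurd h hp⟩
  choose Ω hΩ using hev2
  refine ⟨Ω, fun p hp => ⟨(hΩ p hp).1, (hΩ p hp).2.1⟩, fun g => ?_⟩
  set x' : E m := c • x + θ • u g with hx'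
  obtain ⟨v0, hv0⟩ := exists_inf_eq (Osem a n' (nb * S * T)) (2 / β) hβ2 x'
  rw [← hΨ'] at hv0
  set h0 : E m := x' - v0 with hh0
  have hO'nn : 0 ≤ Osem a n' (nb * S * T) v0 := apply_nonneg _ _
  have hh0n : ‖h0‖ ≤ β / 2 * Ψ' x' := by
    have h1 : 2 / β * ‖h0‖ ≤ Ψ' x' := by linarith
    have h2 := mul_le_mul_of_nonneg_left h1 (show 0 ≤ β / 2 by positivity)
    have h3 : β / 2 * (2 / β * ‖h0‖) = ‖h0‖ := by field_simp
    linarith
  -- one group
  have hgrp : ∀ p ∈ Finset.range n',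
      (θ * A / 2) * ((Ω p).indicator (fun _ => (1:ℝ)) g * (if B ≤ Ψ' x' then 0 else 1))
        + ((nb:ℝ) * S)⁻¹ * ∑ b, ∑ s, ⟪a (v p b s) - a (v' p b s), v0⟫
        ≤ grp a (p * (nb * S * T)) (nb * S * T) v0 := by
    intro p hp
    rw [Finset.mem_range] at hp
    have hc := coarse_ge a (p * (nb * S * T)) nb S T hnb hS (v p) (v' p) (hvr p) (hvr' p) v0
    obtain ⟨j0, hj0⟩ := exists_yv_nonneg (fun b s => a (v p b s)) hS v0
    by_cases hB : B ≤ Ψ' x'
    · rw [if_pos hB]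
      have := hc j0
      simp only [mul_zero]
      linarith
    · rw [if_neg hB]
      by_cases hg : g ∈ Ω p
      · rw [Set.indicator_of_mem hg]
        push Not at hB
        have h1 : ‖θ⁻¹ • h0‖ ≤ lam := by
          rw [norm_smul, norm_inv, Real.norm_of_nonneg hθ.le, inv_mul_le_iff₀ hθ, ← hlam]
          refine hh0n.trans ?_
          have : β / 2 * Ψ' x' ≤ β / 2 * B := mul_le_mul_of_nonneg_left hB.le (by positivity)
          linarith
        obtain ⟨j, hj⟩ := (hΩ p hp).2.2 g hg (θ⁻¹ • h0) h1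
        have h2 : v0 = θ • (u g + (c / θ) • x - θ⁻¹ • h0) := by
          rw [smul_sub, smul_add, smul_smul, smul_smul, mul_div_cancel₀ _ hθ.ne',
            mul_inv_cancel₀ hθ.ne', one_smul, hh0, hx']
          abel
        have h3 : θ * A / 2 ≤ ⟪yv (fun b s => a (v p b s)) j, v0⟫ := by
          rw [h2, real_inner_smul_right]
          have := mul_le_mul_of_nonneg_left hj hθ.le
          linarith
        have := hc j
        simp only [mul_one]
        linarith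
      · rw [Set.indicator_of_notMem hg]
        have := hc j0
        simp only [zero_mul, mul_zero]
        linarith
  have hn'pos : 0 < (n':ℝ) := by exact_mod_cast hn'
  have hsumgrp : (θ * A / 2) * ((n':ℝ)⁻¹ * ∑ p ∈ Finset.range n', (Ω p).indicator (fun _ => (1:ℝ)) g)
        * (if B ≤ Ψ' x' then 0 else 1)
        + ⟪(n:ℝ)⁻¹ • ∑ w : Fin n, (a (w * T + (sel w).1) - a (w * T + (sel w).2)), v0⟫
      ≤ Osem a n' (nb * S * T) v0 := by
    rw [Osem_apply]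
    have h1 := mul_le_mul_of_nonneg_left (Finset.sum_le_sum hgrp) (inv_nonneg.2 hn'pos.le)
    refine le_trans (le_of_eq ?_) h1
    rw [Finset.sum_add_distrib, mul_add, ← Finset.mul_sum, ← Finset.sum_mul, ← Finset.mul_sum]
    congr 1
    · ring
    · rw [real_inner_smul_left, sum_inner]
      have h2 : ∑ w : Fin n, ⟪a (w * T + (sel w).1) - a (w * T + (sel w).2), v0⟫
          = ∑ w ∈ Finset.range n, ⟪a (w * T + (sel' w).1) - a (w * T + (sel' w).2), v0⟫ := by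
        rw [Finset.sum_range]
        refine Finset.sum_congr rfl fun w _ => ?_
        have : sel' w = sel w := by
          simp only [hsel', w.2, dite_true]
        rw [this]
      have h3 : (n:ℝ)⁻¹ = (n':ℝ)⁻¹ * ((nb:ℝ) * S)⁻¹ := by
        rw [← mul_inv, hn]
        push_cast
        rfl
      rw [h2, h3, hn, sum_groups n' nb S, mul_assoc]
  have hsel2 : ⟪ρ, v0⟫ - δ * ‖v0‖ ≤
      ⟪(n:ℝ)⁻¹ • ∑ w : Fin n, (a (w * T + (sel w).1) - a (w * T + (sel w).2)), v0⟫ := by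
    have h1 := abs_real_inner_le_norm
      ((n:ℝ)⁻¹ • ∑ w : Fin n, (a (w * T + (sel w).1) - a (w * T + (sel w).2)) - ρ) v0
    rw [inner_sub_left] at h1
    have h2 := neg_abs_le (⟪(n:ℝ)⁻¹ • ∑ w : Fin n, (a (w * T + (sel w).1) - a (w * T + (sel w).2)), v0⟫
      - ⟪ρ, v0⟫)
    have h3 := mul_le_mul_of_nonneg_right hsel (norm_nonneg v0)
    linarith
  have hv0x : v0 = x' - h0 := by rw [hh0]; abel
  have hρv0 : ⟪ρ, x'⟫ - 2 / β * ‖h0‖ ≤ ⟪ρ, v0⟫ := by
    rw [hv0x, inner_sub_right]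
    have := hρn h0
    linarith
  have hδ0 : 0 ≤ δ := by
    have := (norm_nonneg (a 0)).trans (hR0 0)
    positivity
  have hv0n : δ * ‖v0‖ ≤ δ * (‖x'‖ + β / 2 * Ψ' x') := by
    refine mul_le_mul_of_nonneg_left ?_ hδ0
    rw [hv0x]
    exact (norm_sub_le _ _).trans (by linarith)
  have hind : (n':ℝ)⁻¹ * ∑ p ∈ Finset.range n', (Ω p).indicator (fun _ => (1:ℝ)) g ≤ 1 := by
    rw [inv_mul_le_iff₀ hn'pos]
    have : ∑ p ∈ Finset.range n', (Ω p).indicator (fun _ => (1:ℝ)) g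
        ≤ ∑ _p ∈ Finset.range n', (1:ℝ) := by
      refine Finset.sum_le_sum fun p _ => ?_
      exact Set.indicator_le_self' (fun _ _ => zero_le_one) g |>.trans (le_refl _)
    simpa using this
  have hθA : 0 < θ * A / 2 := by positivity
  by_cases hB : B ≤ Ψ' x'
  · rw [if_pos hB] at hsumgrp ⊢
    have := mul_le_mul_of_nonneg_left hind hθA.le
    linarith
  · rw [if_neg hB] at hsumgrp ⊢
    linarith

end D546neg
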