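/-
MP_d546a0_lc, negation S15426: the growth step, integrated (helper18).
-/
import Pool.Agent.H.MP_d546a0_lc.neg.Growth2

set_option autoImplicit false

namespace D546neg

open MeasureTheory ProbabilityTheory Real
open scoped RealInnerProductSpace BigOperators ENNReal

variable {m : ℕ}

lemma integrable_norm_comp (u : E m →L[ℝ] E m) : Integrable (fun g => ‖u g‖) (γ m) := by
  have h : Integrable (fun g : E m => g) (γ m) := IsGaussian.integrable_fun_id
  exact (u.integrable_comp h).norm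

/-- Ornstein–Uhlenbeck invariance for integrals. -/
lemma integral_ou (c θ : ℝ) (h : c ^ 2 + θ ^ 2 = 1) (F : E m → ℝ)
    (hF : Integrable F (γ m)) (hFm : Measurable F) :
    Integrable (fun p : E m × E m => F (c • p.1 + θ • p.2)) ((γ m).prod (γ m)) ∧
    ∫ g, ∫ g', F (c • g + θ • g') ∂(γ m) ∂(γ m) = ∫ g, F g ∂(γ m) := by
  have hm : Measurable (fun p : E m × E m => c • p.1 + θ • p.2) := by fun_prop
  have h1 : Integrable (fun p : E m × E m => F (c • p.1 + θ • p.2)) ((γ m).prod (γ m)) := by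
    have h2 : Integrable F (((γ m).prod (γ m)).map (fun p : E m × E m => c • p.1 + θ • p.2)) := by
      rw [map_ou c θ h]; exact hF
    exact (integrable_map_measure hFm.aestronglyMeasurable hm.aemeasurable).1 h2
  refine ⟨h1, ?_⟩
  rw [← integral_prod (fun p : E m × E m => F (c • p.1 + θ • p.2)) h1]
  conv_rhs => rw [← map_ou (m := m) c θ h]
  rw [integral_map hm.aemeasurable hFm.aestronglyMeasurable]

theorem growth_int (a : ℕ → E m) (R0 : ℝ) (hR0 : ∀ v, ‖a v‖ ≤ R0)
    (u : E m ≃L[ℝ] E m) (n' nb S T : ℕ) (hn' : 1 ≤ n') (hnb : 1 ≤ nb) (hS : 1 ≤ S) (hT : 1 ≤ T)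
    (β B θ c A lam : ℝ) (hβ : 0 < β) (hθ : 0 < θ) (hcθ : c ^ 2 + θ ^ 2 = 1)
    (hA : 0 < A) (hlam : β * B / 2 = θ * lam)
    (hev : ∀ p < n', ∀ v : Fin nb → Fin S → ℕ,
      (∀ b s, ∃ r < T, v b s = ((p * nb + b) * S + s) * T + r) → ∀ Sh : E m,
      ∃ Ω : Set (E m), MeasurableSet Ω ∧ 7 / 8 ≤ (γ m).real Ω ∧
        ∀ g ∈ Ω, ∀ h, ‖h‖ ≤ lam → ∃ j, A / 2 ≤ ⟪yv (fun b s => a (v b s)) j, u g + Sh - h⟫) :
    c * ∫ g, (Osem a (n' * (nb * S)) T ⊓ nrm m (2 / β)) (u g) ∂(γ m) + (θ * A / 2) * (7 / 8)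
      ≤ ∫ g, (Osem a n' (nb * S * T) ⊓ nrm m (2 / β)) (u g) ∂(γ m)
        + (θ * A / 2) * (γ m).real {g | B ≤ (Osem a n' (nb * S * T) ⊓ nrm m (2 / β)) (u g)}
        + (4 * R0 / √(2 * ((n' * (nb * S) : ℕ) : ℝ))) * (∫ g, ‖u g‖ ∂(γ m)
          + (β / 2) * ∫ g, (Osem a n' (nb * S * T) ⊓ nrm m (2 / β)) (u g) ∂(γ m)) := by
  classical
  set Ψ := Osem a (n' * (nb * S)) T ⊓ nrm m (2 / β) with hΨ
  set Ψ' := Osem a n' (nb * S * T) ⊓ nrm m (2 / β) with hΨ'
  set δ : ℝ := 4 * R0 / √(2 * ((n' * (nb * S) : ℕ) : ℝ)) with hδ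
  have hδ0 : 0 ≤ δ := by
    have := (norm_nonneg (a 0)).trans (hR0 0)
    positivity
  have hθA : 0 < θ * A / 2 := by positivity
  have hn'pos : 0 < (n':ℝ) := by exact_mod_cast hn'
  have hΨ'c : Continuous Ψ' := seminorm_continuous Ψ'
  set f : E m → ℝ := fun y => Ψ' y + (θ * A / 2) * (if B ≤ Ψ' y then 1 else 0)
    + δ * (‖y‖ + (β / 2) * Ψ' y) with hf
  have hsetm : MeasurableSet {y : E m | B ≤ Ψ' y} :=
    (isClosed_le continuous_const hΨ'c).measurableSet
  have hfm : Measurable f := by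
    rw [hf]
    refine Measurable.add (Measurable.add hΨ'c.measurable ?_) ?_
    · exact (Measurable.ite hsetm measurable_const measurable_const).const_mul _
    · exact (measurable_norm.add (hΨ'c.measurable.const_mul _)).const_mul _
  obtain ⟨d, hd, hdle⟩ := seminorm_le_norm Ψ'
  have hfbound : ∀ y, ‖f y‖ ≤ θ * A / 2 + (d + δ * (1 + β / 2 * d)) * ‖y‖ := by
    intro y
    have h1 := hdle y
    have h2 := apply_nonneg Ψ' y
    have h3 := norm_nonneg y
    have h4 : (0:ℝ) ≤ (if B ≤ Ψ' y then 1 else 0) := by split_ifs <;> norm_num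
    have h5 : (if B ≤ Ψ' y then (1:ℝ) else 0) ≤ 1 := by split_ifs <;> norm_num
    have h6 : 0 ≤ f y := by
      simp only [hf]
      positivity
    rw [Real.norm_of_nonneg h6]
    simp only [hf]
    have h7 : θ * A / 2 * (if B ≤ Ψ' y then (1:ℝ) else 0) ≤ θ * A / 2 * 1 :=
      mul_le_mul_of_nonneg_left h5 hθA.le
    have h8 : β / 2 * Ψ' y ≤ β / 2 * (d * ‖y‖) := mul_le_mul_of_nonneg_left h1 (by positivity)
    have h9 : δ * (‖y‖ + β / 2 * Ψ' y) ≤ δ * (‖y‖ + β / 2 * (d * ‖y‖)) :=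
      mul_le_mul_of_nonneg_left (by linarith) hδ0
    nlinarith
  have hnormint := integrable_norm_comp (u : E m →L[ℝ] E m)
  -- integrability of `f (c x + θ u g)`
  have hint : ∀ x : E m, Integrable (fun g => f (c • x + θ • u g)) (γ m) := by
    intro x
    have hb : Integrable (fun g => θ * A / 2 + (d + δ * (1 + β / 2 * d)) *
        (|c| * ‖x‖ + |θ| * ‖u g‖)) (γ m) :=
      (integrable_const _).add (((integrable_const _).add (hnormint.const_mul _)).const_mul _)
    refine hb.mono' (hfm.comp (by fun_prop)).aestronglyMeasurable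
      (Filter.Eventually.of_forall fun g => ?_)
    refine (hfbound _).trans ?_
    have h1 : ‖c • x + θ • u g‖ ≤ |c| * ‖x‖ + |θ| * ‖u g‖ := by
      refine (norm_add_le _ _).trans ?_
      rw [norm_smul, norm_smul]
      rfl
    have h2 := mul_le_mul_of_nonneg_left h1
      (show 0 ≤ d + δ * (1 + β / 2 * d) by positivity)
    linarith
  have hfu : Integrable (fun g => f (u g)) (γ m) := by
    have := (integral_ou (m := m) 0 1 (by norm_num) (fun g => (0:ℝ)) (integrable_zero _ _ _)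
      measurable_const)
    have hb : Integrable (fun g => θ * A / 2 + (d + δ * (1 + β / 2 * d)) * ‖u g‖) (γ m) :=
      (integrable_const _).add (hnormint.const_mul _)
    exact hb.mono' (hfm.comp (by fun_prop)).aestronglyMeasurable
      (Filter.Eventually.of_forall fun g => hfbound _)
  -- inner inequality
  have hinner : ∀ g0 : E m, c * Ψ (u g0) + (θ * A / 2) * (7 / 8)
      ≤ ∫ g, f (c • u g0 + θ • u g) ∂(γ m) := by
    intro g0
    obtain ⟨ρ, hρ, Ω, hΩ, hpt⟩ := growth_point a R0 hR0 u n' nb S T hn' hnb hS hT β B θ c A lam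
      hβ hθ hA hlam hev (u g0)
    rw [← hΨ] at hρ
    have hIint : ∀ p ∈ Finset.range n', Integrable ((Ω p).indicator (fun _ => (1:ℝ))) (γ m) := by
      intro p hp
      exact (integrable_const 1).indicator (hΩ p (Finset.mem_range.1 hp)).1
    have hLint : Integrable (fun g => ⟪ρ, c • u g0 + θ • u g⟫) (γ m) := by
      have h1 : Integrable (fun g => u g) (γ m) :=
        (u : E m →L[ℝ] E m).integrable_comp IsGaussian.integrable_fun_id
      exact ((integrable_const _).add (h1.smul θ)).const_inner ρ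
    have hSint : Integrable (fun g => (θ * A / 2) * ((n':ℝ)⁻¹ * ∑ p ∈ Finset.range n',
        (Ω p).indicator (fun _ => (1:ℝ)) g)) (γ m) :=
      ((integrable_finsetSum _ hIint).const_mul _).const_mul _
    have h1 : ∫ g, (⟪ρ, c • u g0 + θ • u g⟫ + (θ * A / 2) * ((n':ℝ)⁻¹ * ∑ p ∈ Finset.range n',
        (Ω p).indicator (fun _ => (1:ℝ)) g)) ∂(γ m) ≤ ∫ g, f (c • u g0 + θ • u g) ∂(γ m) :=
      integral_mono (hLint.add hSint) (hint (u g0)) hpt
    rw [integral_add hLint hSint] at h1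
    have h2 : ∫ g, ⟪ρ, c • u g0 + θ • u g⟫ ∂(γ m) = c * Ψ (u g0) := by
      have h3 : ∀ g, ⟪ρ, c • u g0 + θ • u g⟫ = c * Ψ (u g0)
          + θ * ⟪ContinuousLinearMap.adjoint (u : E m →L[ℝ] E m) ρ, g⟫ := by
        intro g
        rw [inner_add_right, real_inner_smul_right, real_inner_smul_right, hρ,
          ContinuousLinearMap.adjoint_inner_left]
        rfl
      simp_rw [h3]
      rw [integral_add (integrable_const _) ((integrable_inner _).const_mul _),
        integral_const, integral_const_mul, integral_inner]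
      simp
    have h4 : (7:ℝ) / 8 ≤ ∫ g, ((n':ℝ)⁻¹ * ∑ p ∈ Finset.range n',
        (Ω p).indicator (fun _ => (1:ℝ)) g) ∂(γ m) := by
      rw [integral_const_mul, integral_finsetSum _ hIint]
      have h5 : ∀ p ∈ Finset.range n', (7:ℝ) / 8 ≤ ∫ g, (Ω p).indicator (fun _ => (1:ℝ)) g ∂(γ m) := by
        intro p hp
        rw [integral_indicator_const _ (hΩ p (Finset.mem_range.1 hp)).1]
        simpa using (hΩ p (Finset.mem_range.1 hp)).2
      have h6 := Finset.sum_le_sum h5
      rw [Finset.sum_const, Finset.card_range, nsmul_eq_mul] at h6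
      have h7 := mul_le_mul_of_nonneg_left h6 (inv_nonneg.2 hn'pos.le)
      rw [← mul_assoc, inv_mul_cancel₀ hn'pos.ne', one_mul] at h7
      exact h7
    rw [h2, integral_const_mul] at h1
    have h5 := mul_le_mul_of_nonneg_left h4 hθA.le
    linarith
  -- outer integral
  obtain ⟨hou1, hou2⟩ := integral_ou c θ hcθ (fun g => f (u g)) hfu (hfm.comp (by fun_prop))
  have hF : ∀ g g' : E m, f (u (c • g + θ • g')) = f (c • u g + θ • u g') := by
    intro g g'
    rw [map_add, map_smul, map_smul]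
  simp_rw [hF] at hou1 hou2
  have hΨint : Integrable (fun g => Ψ (u g)) (γ m) :=
    integrable_seminorm_comp Ψ (u : E m →L[ℝ] E m)
  have hΨ'int : Integrable (fun g => Ψ' (u g)) (γ m) :=
    integrable_seminorm_comp Ψ' (u : E m →L[ℝ] E m)
  have hout : ∫ g, (c * Ψ (u g) + (θ * A / 2) * (7 / 8)) ∂(γ m)
      ≤ ∫ g, ∫ g', f (c • u g + θ • u g') ∂(γ m) ∂(γ m) :=
    integral_mono ((hΨint.const_mul c).add (integrable_const _)) hou1.integral_prod_left hinner
  rw [hou2, integral_add (hΨint.const_mul c) (integrable_const _), integral_const_mul,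
    integral_const] at hout
  have hindint : Integrable (fun g => (if B ≤ Ψ' (u g) then (1:ℝ) else 0)) (γ m) := by
    have h1 : MeasurableSet {g : E m | B ≤ Ψ' (u g)} := hsetm.preimage (by fun_prop)
    exact (integrable_const (1:ℝ)).indicator h1
  have hindval : ∫ g, (if B ≤ Ψ' (u g) then (1:ℝ) else 0) ∂(γ m)
      = (γ m).real {g | B ≤ Ψ' (u g)} := by
    have h1 : MeasurableSet {g : E m | B ≤ Ψ' (u g)} := hsetm.preimage (by fun_prop)
    have h2 := integral_indicator_const (μ := γ m) (1:ℝ) h1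
    rw [smul_eq_mul, mul_one] at h2
    exact h2
  have hfval : ∫ g, f (u g) ∂(γ m) = ∫ g, Ψ' (u g) ∂(γ m)
      + (θ * A / 2) * (γ m).real {g | B ≤ Ψ' (u g)}
      + δ * (∫ g, ‖u g‖ ∂(γ m) + (β / 2) * ∫ g, Ψ' (u g) ∂(γ m)) := by
    have i1 : Integrable (fun g => (θ * A / 2) * (if B ≤ Ψ' (u g) then (1:ℝ) else 0)) (γ m) :=
      hindint.const_mul _
    have i2 : Integrable (fun g => Ψ' (u g)
        + (θ * A / 2) * (if B ≤ Ψ' (u g) then (1:ℝ) else 0)) (γ m) := hΨ'int.add i1
    have i3 : Integrable (fun g => ‖u g‖ + (β / 2) * Ψ' (u g)) (γ m) :=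
      hnormint.add (hΨ'int.const_mul _)
    have i4 : Integrable (fun g => δ * (‖u g‖ + (β / 2) * Ψ' (u g))) (γ m) := i3.const_mul δ
    have i5 : Integrable (fun g => ‖u g‖) (γ m) := hnormint
    simp only [hf]
    rw [integral_add i2 i4, integral_add hΨ'int i1, integral_const_mul, integral_const_mul,
      integral_add i5 (hΨ'int.const_mul _), integral_const_mul, hindval]
  rw [hfval] at hout
  simpa using hout

end D546neg
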