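/-
MP_d546a0_lc, negation S15426: the parameters (helper18). `q` is the free large parameter.
-/
import Mathlib

set_option autoImplicit false

namespace D546neg

namespace P

open Real

/-- `ζ = 1/(160 D C)`. -/
noncomputable def zeta (C : ℝ) (D : ℕ) : ℝ := 1 / (160 * D * C)
/-- the variation threshold. -/
noncomputable def A (C : ℝ) (D : ℕ) : ℝ := zeta C D / 1000
/-- `κ = 2^q`. -/
def kap (q : ℕ) : ℕ := 2 ^ q
/-- the sparsity `k = 2^κ`. -/
def k (q : ℕ) : ℕ := 2 ^ kap q
/-- first position constant. -/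
noncomputable def k0 (D q : ℕ) : ℝ := 6 * ((kap q + D : ℕ) : ℝ) ^ 2
/-- second position constant. -/
noncomputable def k1 (q : ℕ) : ℝ := 6 * ((2 * q : ℕ) : ℝ) ^ 2
/-- truncation level. -/
noncomputable def B (q : ℕ) : ℝ := 16 * k1 q
/-- OU parameter. -/
noncomputable def θ (C : ℝ) (D q : ℕ) : ℝ := A C D / (16 * k1 q)
/-- number of scales. -/
def I (q : ℕ) : ℕ := 2 * kap q
/-- net radius. -/
noncomputable def lam (C : ℝ) (D q : ℕ) : ℝ := A C D * √(k q : ℝ) / (453 * k0 D q * (I q : ℝ))
/-- inf-convolution parameter. -/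
noncomputable def β (C : ℝ) (D q : ℕ) : ℝ := 2 * θ C D q * lam C D q / B q
/-- second position regularisation. -/
noncomputable def α (D q : ℕ) : ℝ := 20 * D * √(k q : ℝ)
/-- entropy parameter. -/
noncomputable def E0 (q : ℕ) : ℝ := (k q : ℝ) / 100
/-- smallest radius. -/
noncomputable def r0 (C : ℝ) (D q : ℕ) : ℝ := zeta C D / √(k q : ℝ)
/-- bound for the number of rows. -/
noncomputable def M (D q : ℕ) : ℝ := D * (k q : ℝ)
/-- bound for the norms of the leaf vectors. -/
noncomputable def R0 (D q : ℕ) : ℝ := √3 * k0 D q * M D q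
/-- log of the number of choices per block, at level `i`. -/
def s (q i : ℕ) : ℕ := 2 ^ (i + 1 + 2 * q)
/-- log of the number of blocks, at level `i`. -/
def b (q i : ℕ) : ℕ := kap q - 5 - i - 2 * q
/-- number of levels. -/
def J (q : ℕ) : ℕ := kap q - 4 - 2 * q
/-- heights of the levels. -/
def t (q i : ℕ) : ℕ := ∑ i' ∈ Finset.range i, (s q i' + b q i')
/-- total height. -/
def H (q : ℕ) : ℕ := t q (J q)

end P

end D546neg
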