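/-
MP_d546a0_lc, negation S15426: the two positions (helper18).
-/
import Pool.Agent.H.MP_d546a0_lc.neg.GaussPos
import Pool.Agent.H.MP_d546a0_lc.neg.Lewis
import Pool.Agent.H.MP_d546a0_lc.neg.Growth3

set_option autoImplicit false

namespace D546neg

open MeasureTheory ProbabilityTheory Real
open scoped RealInnerProductSpace BigOperators ENNReal

variable {m : ℕ}

/-- nonnegative multiples of seminorms. -/
noncomputable def sscale (c : ℝ) (hc : 0 ≤ c) (p : Seminorm ℝ (E m)) : Seminorm ℝ (E m) :=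
  Seminorm.of (fun x => c * p x) (fun x y => by
    rw [← mul_add]
    exact mul_le_mul_of_nonneg_left (map_add_le_add p x y) hc) (fun a x => by
    rw [map_smul_eq_mul]; ring)

lemma sscale_apply (c : ℝ) (hc : 0 ≤ c) (p : Seminorm ℝ (E m)) (x : E m) :
    sscale c hc p x = c * p x := rfl

lemma definite_of_le {P : Seminorm ℝ (E m)} {α : ℝ} (hα : 0 < α) (h1 : ∀ x, ‖x‖ ≤ α * P x) :
    Definite P := by
  refine ⟨α⁻¹, inv_pos.2 hα, fun x => ?_⟩
  rw [inv_mul_le_iff₀ hα]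
  exact h1 x

lemma integrable_dualN_comp {P : Seminorm ℝ (E m)} (hP : Definite P) (L : E m →L[ℝ] E m) :
    Integrable (fun g => dualN P (L g)) (γ m) :=
  integrable_seminorm_comp (dualS P hP) L

/-- scaled position lemma. -/
theorem position_scaled (n : ℕ) (hm : 1 ≤ m) (hn : 1 ≤ n) (P : Seminorm ℝ (E m)) (α d : ℝ)
    (hα : 0 < α) (hd : d ≤ 4 ^ n) (h1 : ∀ x, ‖x‖ ≤ α * P x) (h2 : ∀ x, α * P x ≤ d * ‖x‖) :
    ∃ u : E m ≃L[ℝ] E m,
      ∫ g, P (u g) ∂(γ m) ≤ 6 * (n:ℝ) ^ 2 ∧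
      ∫ g, dualN P (ContinuousLinearMap.adjoint (u.symm : E m →L[ℝ] E m) g) ∂(γ m) ≤ m ∧
      (∀ x, ‖u x‖ ≤ √3 * (6 * (n:ℝ) ^ 2) * α * ‖x‖) := by
  set N := sscale α hα.le P with hN
  have hN1 : ∀ x, ‖x‖ ≤ N x := h1
  have hN2 : ∀ x, N x ≤ d * ‖x‖ := h2
  have hPdef : Definite P := definite_of_le hα h1
  have hNdef : Definite N := ⟨1, one_pos, fun x => by rw [one_mul]; exact hN1 x⟩
  obtain ⟨u0, hu1, hu2, hu3⟩ := gauss_position_of_cube m n hn N d hN1 hN2
    (fun M hM => cube_position m n M hm hn hM N d hd hN1 hN2)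
  set S : E m ≃L[ℝ] E m := (LinearEquiv.smulOfNeZero ℝ (E m) α hα.ne').toContinuousLinearEquiv
    with hS
  have hSapp : ∀ x, S x = α • x := fun x => rfl
  set u : E m ≃L[ℝ] E m := u0.trans S with hu
  have huapp : ∀ x, u x = α • u0 x := fun x => rfl
  have husymm : ∀ x, u.symm x = u0.symm (α⁻¹ • x) := by
    intro x
    rw [ContinuousLinearEquiv.symm_apply_eq, huapp, ContinuousLinearEquiv.apply_symm_apply,
      smul_smul, mul_inv_cancel₀ hα.ne', one_smul]
  refine ⟨u, ?_, ?_, ?_⟩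
  · refine le_trans (le_of_eq ?_) hu1
    refine integral_congr_ae (Filter.Eventually.of_forall fun g => ?_)
    show P (u g) = α * P (u0 g)
    rw [huapp, map_smul_eq_mul, Real.norm_of_nonneg hα.le]
  · refine le_trans (integral_mono (integrable_dualN_comp hPdef _)
      (integrable_dualN_comp hNdef _) fun g => ?_) hu2
    refine dualN_le fun x hx => ?_
    rw [ContinuousLinearMap.adjoint_inner_right]
    have h3 : (u.symm : E m →L[ℝ] E m) x = (u0.symm : E m →L[ℝ] E m) (α⁻¹ • x) := husymm x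
    rw [h3, ← ContinuousLinearMap.adjoint_inner_right]
    refine le_dualN hNdef ?_
    show α * P (α⁻¹ • x) ≤ 1
    rw [map_smul_eq_mul, norm_inv, Real.norm_of_nonneg hα.le, ← mul_assoc,
      mul_inv_cancel₀ hα.ne', one_mul]
    exact hx
  · intro x
    rw [huapp, norm_smul, Real.norm_of_nonneg hα.le]
    have := mul_le_mul_of_nonneg_left (hu3 x) hα.le
    linarith

/-- change of coordinates for the dual norm. -/
lemma dualN_comp_symm (P K : Seminorm ℝ (E m)) (hP : Definite P) (u : E m ≃L[ℝ] E m)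
    (hK : ∀ x, K x = P (u x)) (g : E m) :
    dualN K g ≤ dualN P (ContinuousLinearMap.adjoint (u.symm : E m →L[ℝ] E m) g) := by
  refine dualN_le fun x hx => ?_
  have h1 : x = (u.symm : E m →L[ℝ] E m) (u x) := by simp
  rw [h1, ← ContinuousLinearMap.adjoint_inner_right]
  exact le_dualN hP (by rw [← hK]; exact hx)

lemma dualN_comp_adjoint (P K : Seminorm ℝ (E m)) (hKd : Definite K) (u : E m ≃L[ℝ] E m)
    (hK : ∀ x, K x = P (u x)) (y : E m) :
    dualN P y ≤ dualN K (ContinuousLinearMap.adjoint (u : E m →L[ℝ] E m) y) := by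
  refine dualN_le fun x hx => ?_
  have h1 : x = (u : E m →L[ℝ] E m) (u.symm x) := by simp
  rw [h1, ← ContinuousLinearMap.adjoint_inner_right]
  refine le_dualN hKd ?_
  rw [hK]
  simpa using hx

lemma definite_comp (P K : Seminorm ℝ (E m)) (hP : Definite P) (u : E m ≃L[ℝ] E m)
    (hK : ∀ x, K x = P (u x)) : Definite K := by
  obtain ⟨c, hc, h⟩ := hP
  have h1 : ∀ x, ‖x‖ ≤ ‖(u.symm : E m →L[ℝ] E m)‖ * ‖u x‖ := by
    intro x
    have := (u.symm : E m →L[ℝ] E m).le_opNorm (u x)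
    simpa using this
  refine ⟨c / (‖(u.symm : E m →L[ℝ] E m)‖ + 1), by positivity, fun x => ?_⟩
  rw [hK, div_mul_eq_mul_div, div_le_iff₀ (by positivity)]
  have h2 := h (u x)
  have h3 := h1 x
  have h4 := norm_nonneg (u x)
  have h5 := norm_nonneg (u.symm : E m →L[ℝ] E m)
  nlinarith [mul_le_mul_of_nonneg_left h3 hc.le, mul_le_mul_of_nonneg_right h2 h5]

/-- the regularised seminorm. -/
noncomputable def N1 (K : Seminorm ℝ (E m)) (α β : ℝ) : Seminorm ℝ (E m) :=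
  (K ⊓ nrm m (1 / β)) + nrm m (1 / α)

section N1
variable (K : Seminorm ℝ (E m)) {α β : ℝ} (hα : 0 < α) (hβ : 0 < β)
include hα hβ

lemma N1_apply (x : E m) : N1 K α β x = (K ⊓ nrm m (1 / β)) x + ‖x‖ / α := by
  show (K ⊓ nrm m (1 / β)) x + nrm m (1 / α) x = _
  rw [nrm_apply, abs_of_pos (by positivity)]
  ring

lemma N1_le (x : E m) : N1 K α β x ≤ K x + ‖x‖ / α := by
  rw [N1_apply K hα hβ]
  have := (inf_le_left : K ⊓ nrm m (1 / β) ≤ K) x
  linarith

lemma le_N1 (x : E m) : ‖x‖ ≤ α * N1 K α β x := by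
  rw [N1_apply K hα hβ, mul_add, mul_div_cancel₀ _ hα.ne']
  have := mul_nonneg hα.le (apply_nonneg (K ⊓ nrm m (1 / β)) x)
  linarith

lemma N1_le_norm (x : E m) : α * N1 K α β x ≤ (1 + α / β) * ‖x‖ := by
  rw [N1_apply K hα hβ, mul_add, mul_div_cancel₀ _ hα.ne']
  have h1 := (inf_le_right : K ⊓ nrm m (1 / β) ≤ nrm m (1 / β)) x
  rw [nrm_apply, abs_of_pos (by positivity)] at h1
  have h2 := mul_le_mul_of_nonneg_left h1 hα.le
  have h3 : α * (1 / β * ‖x‖) = α / β * ‖x‖ := by ring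
  rw [h3] at h2
  linarith

lemma Psi_le_N1 (a : ℕ → E m) (n T : ℕ) (ha : ∀ v x, |⟪a v, x⟫| ≤ K x) (x : E m) :
    (Osem a n T ⊓ nrm m (2 / β)) x ≤ 2 * N1 K α β x := by
  obtain ⟨v, hv⟩ := exists_inf_eq K (1 / β) (by positivity) x
  have h1 : (Osem a n T ⊓ nrm m (2 / β)) x ≤ Osem a n T v + nrm m (2 / β) (x - v) := by
    rw [Seminorm.inf_apply]
    exact ciInf_le Seminorm.bddBelow_range_add v
  have h2 := Osem_le a n T K ha v
  rw [nrm_apply, abs_of_pos (by positivity)] at h1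
  rw [N1_apply K hα hβ, hv]
  have h3 : 2 / β * ‖x - v‖ = 2 * (1 / β * ‖x - v‖) := by ring
  have h4 : 0 ≤ ‖x‖ / α := by positivity
  linarith

end N1

end D546neg
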