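/-
MP_d546a0_lc, negation S15426: assembly (helper18).
-/
import Pool.Agent.H.MP_d546a0_lc.neg.Positions
import Pool.Agent.H.MP_d546a0_lc.neg.BlockNSP
import Pool.Agent.H.MP_d546a0_lc.neg.Params

set_option autoImplicit false

namespace D546neg

open MeasureTheory ProbabilityTheory Real
open scoped RealInnerProductSpace BigOperators ENNReal

variable {m : ℕ}

lemma NK_adjoint {ι : Type*} [Fintype ι] (a : ι → E m) (u : E m ≃L[ℝ] E m) (x : E m) :
    NK (fun i => ContinuousLinearMap.adjoint (u : E m →L[ℝ] E m) (a i)) x = NK a (u x) := by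
  refine le_antisymm ?_ ?_
  · refine (NK_le_iff (apply_nonneg _ _)).2 fun i => ?_
    rw [ContinuousLinearMap.adjoint_inner_left]
    exact le_NK a (u x) i
  · refine (NK_le_iff (apply_nonneg _ _)).2 fun i => ?_
    have := le_NK (fun i => ContinuousLinearMap.adjoint (u : E m →L[ℝ] E m) (a i)) x i
    rw [ContinuousLinearMap.adjoint_inner_left] at this
    exact this

lemma norm_le_of_inner_le {y : E m} {R : ℝ} (hR : 0 ≤ R) (h : ∀ x, ⟪y, x⟫ ≤ R * ‖x‖) :
    ‖y‖ ≤ R := by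
  have h1 := h y
  rw [real_inner_self_eq_norm_sq] at h1
  rcases eq_or_lt_of_le (norm_nonneg y) with h0 | h0
  · rw [← h0]; exact hR
  · have : ‖y‖ * ‖y‖ ≤ R * ‖y‖ := by rw [← sq]; exact h1
    exact le_of_mul_le_mul_right this h0

lemma norm_yv_le {n S : ℕ} (w : Fin n → Fin S → E m) {R : ℝ} (hR : 0 ≤ R)
    (hw : ∀ b s, ‖w b s‖ ≤ R) (j : Fin n → Fin S) : ‖yv w j‖ ≤ 2 * R := by
  have h1 := abs_inner_yv_le w (nrm m R) (fun b s x => by
    rw [nrm_apply, abs_of_nonneg hR]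
    exact (abs_real_inner_le_norm _ _).trans
      (mul_le_mul_of_nonneg_right (hw b s) (norm_nonneg _))) j (yv w j)
  rw [real_inner_self_eq_norm_sq, nrm_apply, abs_of_nonneg hR,
    abs_of_nonneg (sq_nonneg _)] at h1
  rcases eq_or_lt_of_le (norm_nonneg (yv w j)) with h0 | h0
  · rw [← h0]; positivity
  · have : ‖yv w j‖ * ‖yv w j‖ ≤ (2 * R) * ‖yv w j‖ := by nlinarith
    exact le_of_mul_le_mul_right this h0

lemma leafvec_norm_le {H : ℕ} (a : Fin (2 ^ (H + 1) - 1) → E m) {R : ℝ} (hR : 0 ≤ R)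
    (ha : ∀ i, ‖a i‖ ≤ R) (v : ℕ) : ‖leafvec a v‖ ≤ R := by
  unfold leafvec
  split_ifs with h
  · exact ha _
  · simpa using hR

lemma leafvec_inner_le {H : ℕ} (a : Fin (2 ^ (H + 1) - 1) → E m) (v : ℕ) (x : E m) :
    |⟪leafvec a v, x⟫| ≤ NK a x := by
  unfold leafvec
  split_ifs with h
  · exact le_NK a x _
  · simp

/-- digits of a leaf index. -/
lemma digits_inj {nb S T p b s r b' s' r' : ℕ} (hS : 0 < S) (hT : 0 < T)
    (hs : s < S) (hs' : s' < S) (hr : r < T) (hr' : r' < T)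
    (h : ((p * nb + b) * S + s) * T + r = ((p * nb + b') * S + s') * T + r') :
    b = b' ∧ s = s' := by
  have h1 : (p * nb + b) * S + s = (p * nb + b') * S + s' := by
    have h2 : (((p * nb + b) * S + s) * T + r) / T = (((p * nb + b') * S + s') * T + r') / T := by
      rw [h]
    rw [Nat.add_div_of_dvd_right (Dvd.intro_left _ rfl), Nat.mul_div_cancel _ hT,
      Nat.div_eq_of_lt hr, add_zero, Nat.add_div_of_dvd_right (Dvd.intro_left _ rfl),
      Nat.mul_div_cancel _ hT, Nat.div_eq_of_lt hr', add_zero] at h2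
    exact h2
  have h3 : p * nb + b = p * nb + b' := by
    have h2 : ((p * nb + b) * S + s) / S = ((p * nb + b') * S + s') / S := by rw [h1]
    rw [Nat.add_div_of_dvd_right (Dvd.intro_left _ rfl), Nat.mul_div_cancel _ hS,
      Nat.div_eq_of_lt hs, add_zero, Nat.add_div_of_dvd_right (Dvd.intro_left _ rfl),
      Nat.mul_div_cancel _ hS, Nat.div_eq_of_lt hs', add_zero] at h2
    exact h2
  have h4 : b = b' := by omega
  subst h4
  exact ⟨rfl, by omega⟩

/-- the arithmetic of one growth step. -/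
lemma growth_arith (X X' c θ A k1 B P δ nrmX β α : ℝ) (hk1 : 0 < k1)
    (hθ : θ = A / (16 * k1)) (hB : B = 16 * k1) (hθ1 : θ ≤ 1) (hA : 0 < A)
    (hc : c = √(1 - θ ^ 2)) (hX : X ≤ 2 * k1) (hX0 : 0 ≤ X) (hX' : X' ≤ 2 * k1)
    (hP : B * P ≤ X') (hnrm : nrmX ≤ α * k1) (hδ0 : 0 ≤ δ) (hβ : 0 ≤ β)
    (hδ : δ * ((α + β) * k1) ≤ A ^ 2 / (128 * k1))
    (h : c * X + (θ * A / 2) * (7 / 8) ≤ X' + (θ * A / 2) * P + δ * (nrmX + β / 2 * X')) :
    X + A ^ 2 / (128 * k1) ≤ X' := by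
  have hθ0 : 0 < θ := by rw [hθ]; positivity
  have hc1 : 1 - θ ^ 2 ≤ c := by
    rw [hc]
    apply Real.le_sqrt_of_sq_le
    have h0 : 0 ≤ θ ^ 2 := sq_nonneg _
    have h1 : θ ^ 2 ≤ 1 := by nlinarith
    generalize θ ^ 2 = x at h0 h1
    nlinarith
  have h1 : X - θ ^ 2 * (2 * k1) ≤ c * X := by
    have h2 := mul_le_mul_of_nonneg_right hc1 hX0
    have h3 := mul_le_mul_of_nonneg_left hX (sq_nonneg θ)
    nlinarith
  have hP1 : P ≤ 1 / 8 := by
    rw [hB] at hP
    have : 16 * k1 * P ≤ 2 * k1 := hP.trans hX'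
    by_contra hcon
    push Not at hcon
    nlinarith
  have h2 : δ * (nrmX + β / 2 * X') ≤ δ * ((α + β) * k1) := by
    refine mul_le_mul_of_nonneg_left ?_ hδ0
    have := mul_le_mul_of_nonneg_left hX' (show 0 ≤ β / 2 by positivity)
    nlinarith
  have h3 : (θ * A / 2) * P ≤ (θ * A / 2) * (1 / 8) :=
    mul_le_mul_of_nonneg_left hP1 (by positivity)
  have h4 : θ * A = 8 * (A ^ 2 / (128 * k1)) := by
    rw [hθ]; field_simp; ring
  have h5 : θ ^ 2 * (2 * k1) = A ^ 2 / (128 * k1) := by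
    rw [hθ]; field_simp; ring
  rw [h5] at h1
  have h6 : θ * A / 2 = 4 * (A ^ 2 / (128 * k1)) := by linarith
  rw [h6] at h h3
  linarith

end D546neg
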