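/-
MP_d546a0_lc, negation S15426: main contradiction (helper18).
-/
import Pool.Agent.H.MP_d546a0_lc.neg.Main

set_option autoImplicit false

namespace D546neg

open MeasureTheory ProbabilityTheory Real
open scoped RealInnerProductSpace BigOperators ENNReal

variable {m : ℕ}

lemma P.t_succ (q i : ℕ) : P.t q (i + 1) = P.t q i + (P.s q i + P.b q i) := by
  unfold P.t
  rw [Finset.sum_range_succ]

lemma P.t_mono (q : ℕ) {i j : ℕ} (h : i ≤ j) : P.t q i ≤ P.t q j := by
  unfold P.t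
  exact Finset.sum_le_sum_of_subset (Finset.range_subset_range.2 h)

theorem no_system (C : ℝ) (D q : ℕ) (hC : 1 ≤ C) (hD : 1 ≤ D)
    (e_levels : 256 * P.k1 q ^ 2 < (P.J q : ℝ) * P.A C D ^ 2)
    (e_delta : ∀ i < P.J q,
      4 * P.R0 D q / √(2 * ((2 ^ (P.H q - P.t q i) : ℕ) : ℝ)) * ((P.α D q + P.β C D q) * P.k1 q)
        ≤ P.A C D ^ 2 / (128 * P.k1 q))
    (e_num : ∀ i < P.J q,
      (2 * exp (8 * (4 * C * P.M D q * P.r0 C D q) ^ 2))
        * (2 * exp (8 * (P.M D q / (2 * P.α D q)) ^ 2))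
        * (2 ^ (2 ^ P.b q i) * ((2 ^ P.s q i : ℕ) : ℝ) ^ (2 ^ P.b q i / 2))
        ≤ exp (-P.E0 q) * ((2 ^ P.s q i : ℕ) : ℝ) ^ (2 ^ P.b q i))
    (e_net : 2 * exp (8 * (P.k0 D q * P.lam C D q / (P.A C D / 4)) ^ 2)
        * (2 * exp (-(P.E0 q / (8 * (P.I q : ℝ) ^ 2)))) ≤ 1 / 8)
    (e_radius : √3 * P.k1 q * P.α D q * (2 * P.R0 D q) < 4 ^ P.I q * P.r0 C D q)
    (e_d1 : 1 + P.α D q / P.β C D q ≤ 4 ^ (2 * q))
    (e_closure : ∀ i < P.J q,
      P.H q + 1 + 2 * 2 ^ P.b q i + 2 * 2 ^ P.b q i * (P.s q i + P.t q i) ≤ P.k q)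
    (e_I : 8 ≤ P.I q) (e_E0 : 2 ≤ P.E0 q) (e_q : 1 ≤ q)
    (e_M : P.M D q ≤ 4 ^ (P.kap q + D))
    (e_A : P.A C D ≤ P.r0 C D q * √(P.E0 q) / 100)
    (e_θ : P.θ C D q < 1)
    (hm : 1 ≤ m) (hmM : (m:ℝ) ≤ P.M D q)
    (a' : Fin (2 ^ (P.H q + 1) - 1) → E m)
    (h1 : ∀ x, ‖x‖ ≤ √(m:ℝ) * NK a' x) (h2 : ∀ x, NK a' x ≤ √(m:ℝ) * ‖x‖)
    (hNSP : ∀ (T : Finset (Fin (2 ^ (P.H q + 1) - 1))), T.card ≤ P.k q →
        (∀ i ∈ T, i.val ≠ 0 → ∃ j ∈ T, j.val + 1 = (i.val + 1) / 2) →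
        ∀ t : Fin (2 ^ (P.H q + 1) - 1) → ℝ, (∀ i, i ∉ T → t i = 0) →
          ∑ i, |t i| ≤ C * dualN (NK a') (∑ i, t i • a' i)) : False := by
  -- positivity of the parameters
  have hCpos : 0 < C := by linarith
  have hDpos : (0:ℝ) < D := by exact_mod_cast hD
  have hqpos : (0:ℝ) < q := by exact_mod_cast e_q
  have hkpos : (0:ℝ) < (P.k q : ℝ) := by
    unfold P.k; positivity
  have hzeta : 0 < P.zeta C D := by unfold P.zeta; positivity
  have hA : 0 < P.A C D := by unfold P.A; positivity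
  have hk0 : 0 < P.k0 D q := by unfold P.k0; positivity
  have hk1 : 0 < P.k1 q := by unfold P.k1; positivity
  have hB : 0 < P.B q := by unfold P.B; positivity
  have hθ : 0 < P.θ C D q := by unfold P.θ; positivity
  have hIpos : (0:ℝ) < (P.I q : ℝ) := by
    have : 0 < P.I q := by omega
    exact_mod_cast this
  have hlam : 0 < P.lam C D q := by unfold P.lam; positivity
  have hβ : 0 < P.β C D q := by unfold P.β; positivity
  have hα : 0 < P.α D q := by unfold P.α; positivity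
  have hMpos : 0 < P.M D q := by unfold P.M; positivity
  have hR0 : 0 < P.R0 D q := by unfold P.R0; positivity
  have hr0 : 0 < P.r0 C D q := by unfold P.r0; positivity
  have hmpos : (0:ℝ) < m := by exact_mod_cast hm
  have hsqm : 0 < √(m:ℝ) := by positivity
  -- first position
  obtain ⟨u0, hu01, hu02, hu03⟩ := position_scaled (P.kap q + D) hm (by omega) (NK a')
    (√(m:ℝ)) (m:ℝ) hsqm (hmM.trans e_M) h1 (fun x => by
      have := mul_le_mul_of_nonneg_left (h2 x) hsqm.le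
      rw [← mul_assoc, Real.mul_self_sqrt hmpos.le] at this
      exact this)
  have hPdef : Definite (NK a') := definite_of_le hsqm h1
  set ah : Fin (2 ^ (P.H q + 1) - 1) → E m :=
    fun i => ContinuousLinearMap.adjoint (u0 : E m →L[ℝ] E m) (a' i) with hah
  set K : Seminorm ℝ (E m) := NK ah with hK
  have hKu : ∀ x, K x = NK a' (u0 x) := fun x => NK_adjoint a' u0 x
  have hKdef : Definite K := definite_comp (NK a') K hPdef u0 hKu
  have hKint : ∫ g, K g ∂(γ m) ≤ P.k0 D q := by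
    refine le_trans (le_of_eq ?_) hu01
    exact integral_congr_ae (Filter.Eventually.of_forall fun g => hKu g)
  have hKd : ∫ g, dualN K g ∂(γ m) ≤ P.M D q := by
    refine le_trans ?_ (hu02.trans hmM)
    exact integral_mono (integrable_dualN_comp hKdef (ContinuousLinearMap.id ℝ (E m)))
      (integrable_dualN_comp hPdef _) fun g => dualN_comp_symm (NK a') K hPdef u0 hKu g
  have hahn : ∀ i, ‖ah i‖ ≤ P.R0 D q := by
    intro i
    refine norm_le_of_inner_le hR0.le fun x => ?_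
    rw [hah, ContinuousLinearMap.adjoint_inner_left]
    have h3 : ⟪a' i, (u0 : E m →L[ℝ] E m) x⟫ ≤ NK a' (u0 x) :=
      (le_abs_self _).trans (le_NK a' (u0 x) i)
    refine h3.trans ((h2 (u0 x)).trans ?_)
    have h4 := mul_le_mul_of_nonneg_left (hu03 x) hsqm.le
    refine h4.trans ?_
    have h5 : √(m:ℝ) * (√3 * (6 * ((P.kap q + D : ℕ) : ℝ) ^ 2) * √(m:ℝ) * ‖x‖)
        = √3 * P.k0 D q * m * ‖x‖ := by
      unfold P.k0
      have : √(m:ℝ) * √(m:ℝ) = m := Real.mul_self_sqrt hmpos.le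
      linear_combination (√3 * (6 * ((P.kap q + D : ℕ) : ℝ) ^ 2) * ‖x‖) * this
    rw [h5]
    unfold P.R0
    have h6 : 0 ≤ √3 * P.k0 D q := by positivity
    have h7 := mul_le_mul_of_nonneg_left hmM h6
    exact mul_le_mul_of_nonneg_right h7 (norm_nonneg x)
  have hNSPK : ∀ (T : Finset (Fin (2 ^ (P.H q + 1) - 1))), T.card ≤ P.k q →
        (∀ i ∈ T, i.val ≠ 0 → ∃ j ∈ T, j.val + 1 = (i.val + 1) / 2) →
        ∀ t : Fin (2 ^ (P.H q + 1) - 1) → ℝ, (∀ i, i ∉ T → t i = 0) →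
          ∑ i, |t i| ≤ C * dualN K (∑ i, t i • ah i) := by
    intro T hT1 hT2 t ht
    refine (hNSP T hT1 hT2 t ht).trans (mul_le_mul_of_nonneg_left ?_ hCpos.le)
    have h3 := dualN_comp_adjoint (NK a') K hKdef u0 hKu (∑ i, t i • a' i)
    rw [map_sum] at h3
    simp only [map_smul] at h3
    exact h3
  -- leaves
  set a : ℕ → E m := leafvec ah with ha
  have haR : ∀ v, ‖a v‖ ≤ P.R0 D q := leafvec_norm_le ah hR0.le hahn
  have haK : ∀ v x, |⟪a v, x⟫| ≤ K x := leafvec_inner_le ah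
  -- second position
  set N := N1 K (P.α D q) (P.β C D q) with hN
  have hN1le : ∀ x, N x ≤ K x + ‖x‖ / P.α D q := N1_le K hα hβ
  have hN1ge : ∀ x, ‖x‖ ≤ P.α D q * N x := le_N1 K hα hβ
  obtain ⟨u, hu1, hu2, hu3⟩ := position_scaled (2 * q) hm (by omega) N
    (P.α D q) (1 + P.α D q / P.β C D q) hα e_d1 hN1ge (N1_le_norm K hα hβ)
  have hNdef : Definite N := definite_of_le hα hN1ge
  have hu1' : ∫ g, N (u g) ∂(γ m) ≤ P.k1 q := hu1
  have hu2' := hu2.trans hmM
  have huadj : ∀ y, ‖ContinuousLinearMap.adjoint (u : E m →L[ℝ] E m) y‖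
      ≤ √3 * P.k1 q * P.α D q * ‖y‖ := by
    intro y
    have h3 : ‖(u : E m →L[ℝ] E m)‖ ≤ √3 * P.k1 q * P.α D q := by
      refine ContinuousLinearMap.opNorm_le_bound _ (by positivity) fun x => ?_
      exact hu3 x
    have h4 : ‖ContinuousLinearMap.adjoint (u : E m →L[ℝ] E m)‖ = ‖(u : E m →L[ℝ] E m)‖ :=
      ContinuousLinearMap.adjoint.norm_map _
    refine (ContinuousLinearMap.le_opNorm _ y).trans ?_
    rw [h4]
    exact mul_le_mul_of_nonneg_right h3 (norm_nonneg y)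
  -- the potential
  set Ψ : ℕ → Seminorm ℝ (E m) := fun i =>
    Osem a (2 ^ (P.H q - P.t q i)) (2 ^ P.t q i) ⊓ nrm m (2 / P.β C D q) with hΨ
  set X : ℕ → ℝ := fun i => ∫ g, Ψ i (u g) ∂(γ m) with hX
  have hΨN : ∀ i x, Ψ i x ≤ 2 * N x := fun i x => Psi_le_N1 K hα hβ a _ _ haK x
  have hNint : Integrable (fun g => N (u g)) (γ m) :=
    integrable_seminorm_comp N (u : E m →L[ℝ] E m)
  have hΨint : ∀ i, Integrable (fun g => Ψ i (u g)) (γ m) := fun i =>
    integrable_seminorm_comp (Ψ i) (u : E m →L[ℝ] E m)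
  have hXle : ∀ i, X i ≤ 2 * P.k1 q := by
    intro i
    have h3 : X i ≤ ∫ g, 2 * N (u g) ∂(γ m) :=
      integral_mono (hΨint i) (hNint.const_mul 2) fun g => hΨN i (u g)
    rw [integral_const_mul] at h3
    linarith
  have hX0 : ∀ i, 0 ≤ X i := fun i => integral_nonneg fun g => apply_nonneg _ _
  have hnrmX : ∫ g, ‖u g‖ ∂(γ m) ≤ P.α D q * P.k1 q := by
    have h3 : ∫ g, ‖u g‖ ∂(γ m) ≤ ∫ g, P.α D q * N (u g) ∂(γ m) :=
      integral_mono (integrable_norm_comp (u : E m →L[ℝ] E m)) (hNint.const_mul _)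
        fun g => hN1ge (u g)
    rw [integral_const_mul] at h3
    exact h3.trans (mul_le_mul_of_nonneg_left hu1' hα.le)
  -- the growth
  have hgrow : ∀ i < P.J q, X i + P.A C D ^ 2 / (128 * P.k1 q) ≤ X (i + 1) := by
    intro i hi
    have htH : P.t q (i + 1) ≤ P.H q := P.t_mono q hi
    have hts := P.t_succ q i
    have hpow1 : 2 ^ (P.H q - P.t q (i + 1)) * (2 ^ P.b q i * 2 ^ P.s q i)
        = 2 ^ (P.H q - P.t q i) := by
      rw [← pow_add, ← pow_add]
      congr 1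
      omega
    have hpow2 : 2 ^ P.b q i * 2 ^ P.s q i * 2 ^ P.t q i = 2 ^ P.t q (i + 1) := by
      rw [← pow_add, ← pow_add]
      congr 1
      omega
    have hpow3 : 2 ^ (P.H q - P.t q (i + 1)) * 2 ^ P.t q (i + 1) = 2 ^ P.H q := by
      rw [← pow_add]
      congr 1
      omega
    have hg := growth_int a (P.R0 D q) haR u (2 ^ (P.H q - P.t q (i + 1))) (2 ^ P.b q i)
      (2 ^ P.s q i) (2 ^ P.t q i) Nat.one_le_two_pow Nat.one_le_two_pow Nat.one_le_two_pow
      Nat.one_le_two_pow (P.β C D q) (P.B q) (P.θ C D q) (√(1 - P.θ C D q ^ 2)) (P.A C D)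
      (P.lam C D q) hβ hθ (by
        rw [Real.sq_sqrt (by nlinarith)]
        ring) hA (by
        unfold P.β
        field_simp) (by
      intro p hp v hv Sh
      refine block_event K N hKdef hNdef (P.M D q) (P.α D q) C (P.r0 C D q) (P.k0 D q) (P.E0 q)
        (P.A C D) (P.lam C D q) (P.I q) hMpos hα hCpos hk0 hKint hKd hN1le u hu2'
        Nat.one_le_two_pow Nat.one_le_two_pow (fun b s => a (v b s)) (fun b s x => haK _ x) ?_
        (√3 * P.k1 q * P.α D q * (2 * P.R0 D q)) ?_ hr0 e_radius e_I e_E0 hA e_A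
        (e_num i hi) e_net Sh
      · -- separation from the null space property
        intro j j' hj
        have hval : ∀ b s, ∃ r' < 2 ^ P.b q i * 2 ^ P.s q i * 2 ^ P.t q i,
            v b s = p * (2 ^ P.b q i * 2 ^ P.s q i * 2 ^ P.t q i) + r' := by
          intro b s
          obtain ⟨r, hr, hr2⟩ := hv b s
          rw [hr2]
          exact leaf_index p _ _ _ b s r b.2 s.2 hr
        refine block_nsp (P.H q) (P.s q i + P.t q i) (P.b q i) p (P.k q) (by omega) C hCpos K ah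
          hNSPK (e_closure i hi) (2 ^ P.s q i) v ?_ ?_ ?_ j j' hj
        · intro b s
          obtain ⟨r', hr', hr2⟩ := hval b s
          rw [hr2, hpow2]
          rw [hpow2] at hr'
          calc p * 2 ^ P.t q (i + 1) + r' < p * 2 ^ P.t q (i + 1) + 2 ^ P.t q (i + 1) := by omega
            _ = (p + 1) * 2 ^ P.t q (i + 1) := by ring
            _ ≤ 2 ^ (P.H q - P.t q (i + 1)) * 2 ^ P.t q (i + 1) := Nat.mul_le_mul_right _ hp
            _ = 2 ^ P.H q := hpow3
        · intro b s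
          obtain ⟨r', hr', hr2⟩ := hval b s
          rw [hpow2] at hr' hr2
          have : P.s q i + P.t q i + P.b q i = P.t q (i + 1) := by omega
          rw [this, hr2, Nat.mul_comm p, Nat.mul_add_div (by positivity), Nat.div_eq_of_lt hr',
            add_zero]
        · intro b s b' s' hvv
          obtain ⟨r, hr, hr2⟩ := hv b s
          obtain ⟨r', hr', hr2'⟩ := hv b' s'
          rw [hr2, hr2'] at hvv
          obtain ⟨h3, h4⟩ := digits_inj (by positivity) (by positivity) s.2 s'.2 hr hr' hvv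
          exact ⟨Fin.ext h3, Fin.ext h4⟩
      · intro j
        refine (huadj _).trans (mul_le_mul_of_nonneg_left ?_ (by positivity))
        exact norm_yv_le _ hR0.le (fun b s => haR _) j)
    rw [hpow1, hpow2] at hg
    refine growth_arith (X i) (X (i + 1)) _ (P.θ C D q) (P.A C D) (P.k1 q) (P.B q)
      ((γ m).real {g | P.B q ≤ Ψ (i + 1) (u g)})
      (4 * P.R0 D q / √(2 * ((2 ^ (P.H q - P.t q i) : ℕ) : ℝ)))
      (∫ g, ‖u g‖ ∂(γ m)) (P.β C D q) (P.α D q) hk1 rfl rfl e_θ.le hA rfl (hXle i) (hX0 i)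
      (hXle (i + 1)) ?_ hnrmX (by positivity) hβ.le (e_delta i hi) ?_
    · exact mul_meas_ge_le_integral_of_nonneg
        (Filter.Eventually.of_forall fun g => apply_nonneg _ _) (hΨint (i + 1)) _
    · exact hg
  -- telescoping
  have htel : ∀ i ≤ P.J q, (i:ℝ) * (P.A C D ^ 2 / (128 * P.k1 q)) ≤ X i := by
    intro i
    induction i with
    | zero => intro _; simpa using hX0 0
    | succ i ih =>
      intro hi
      have h3 := ih (by omega)
      have h4 := hgrow i (by omega)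
      push_cast
      linarith
  have hfin := (htel (P.J q) le_rfl).trans (hXle (P.J q))
  rw [← mul_div_assoc, div_le_iff₀ (by positivity)] at hfin
  nlinarith

end D546neg
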