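/-
MP_d546a0_lc, negation S15426: numeric lemmas `ev_levels`, `ev_d1` (helper20).
-/
import Pool.Agent.H.MP_d546a0_lc.neg.Params

set_option autoImplicit false

namespace D546neg

namespace P

open Real Filter

theorem A_pos (C : ℝ) (D : ℕ) (hC : 1 ≤ C) (hD : 1 ≤ D) : 0 < A C D := by
  have hD' : (1 : ℝ) ≤ D := by exact_mod_cast hD
  unfold A zeta
  positivity

/-- `q^4 ≤ ε 2^q` eventually. -/
theorem ev_pow4 (ε : ℝ) (hε : 0 < ε) : ∀ᶠ q : ℕ in atTop, (q : ℝ) ^ 4 < ε * 2 ^ q := by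
  have h := tendsto_pow_const_div_const_pow_of_one_lt 4 (r := (2 : ℝ)) (by norm_num)
  have h2 := (h.eventually (gt_mem_nhds hε))
  filter_upwards [h2] with q hq
  have h2q : (0 : ℝ) < 2 ^ q := by positivity
  rwa [div_lt_iff₀ h2q] at hq

theorem ev_J : ∀ᶠ q : ℕ in atTop, (2 : ℝ) ^ q / 2 ≤ (J q : ℝ) := by
  have h := ev_pow4 (1 / 12) (by norm_num)
  filter_upwards [h, eventually_ge_atTop 1] with q hq h1
  have hq1 : (1 : ℝ) ≤ q := by exact_mod_cast h1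
  have hq4 : (q : ℝ) ≤ (q : ℝ) ^ 4 := by
    have : (q : ℝ) ^ 1 ≤ (q : ℝ) ^ 4 := pow_le_pow_right₀ hq1 (by norm_num)
    simpa using this
  have hsub : ((2 : ℝ) ^ q - 4 - 2 * q) ≤ (J q : ℝ) := by
    have hnat : 2 ^ q ≤ J q + (4 + 2 * q) := by
      unfold J kap
      omega
    have : ((2 ^ q : ℕ) : ℝ) ≤ ((J q + (4 + 2 * q) : ℕ) : ℝ) := by exact_mod_cast hnat
    push_cast at this
    linarith
  linarith

theorem ev_levels (C : ℝ) (D : ℕ) (hC : 1 ≤ C) (hD : 1 ≤ D) :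
    ∀ᶠ q : ℕ in atTop, 256 * k1 q ^ 2 < (J q : ℝ) * A C D ^ 2 := by
  have hA := A_pos C D hC hD
  have h := ev_pow4 (A C D ^ 2 / (2 * 147456)) (by positivity)
  filter_upwards [h, ev_J] with q hq hJ
  have h1 : 256 * k1 q ^ 2 = 147456 * (q : ℝ) ^ 4 := by
    unfold k1
    push_cast
    ring
  rw [h1]
  have h2 : (2 : ℝ) ^ q / 2 * A C D ^ 2 ≤ (J q : ℝ) * A C D ^ 2 :=
    mul_le_mul_of_nonneg_right hJ (by positivity)
  have h3 : 147456 * (A C D ^ 2 / (2 * 147456) * 2 ^ q) = (2 : ℝ) ^ q / 2 * A C D ^ 2 := by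
    ring
  have h4 : 147456 * (q : ℝ) ^ 4 < 147456 * (A C D ^ 2 / (2 * 147456) * 2 ^ q) :=
    mul_lt_mul_of_pos_left hq (by norm_num)
  linarith

theorem ev_d1 (C : ℝ) (D : ℕ) (hC : 1 ≤ C) (hD : 1 ≤ D) :
    ∀ᶠ q : ℕ in atTop, 1 + α D q / β C D q ≤ 4 ^ (2 * q) := by
  have hA := A_pos C D hC hD
  have hD' : (1 : ℝ) ≤ D := by exact_mod_cast hD
  -- the constant
  set W : ℝ := 1159680 * 576 * 12 * D * (1 + D) ^ 2 / A C D ^ 2 with hW
  have hWpos : 0 < W := by positivity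
  have h := ev_pow4 (1 / (2 * W)) (by positivity)
  filter_upwards [h, eventually_ge_atTop 1] with q hq h1
  have hq1 : (1 : ℝ) ≤ q := by exact_mod_cast h1
  have hk : 0 < √(k q : ℝ) := by
    apply Real.sqrt_pos.mpr
    unfold k
    positivity
  have hk1 : 0 < k1 q := by
    unfold k1
    push_cast
    positivity
  have hk0 : 0 < k0 D q := by
    unfold k0
    push_cast
    positivity
  have hI : 0 < (I q : ℝ) := by
    unfold I kap
    push_cast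
    positivity
  have hfrac : α D q / β C D q = 1159680 * D * k1 q ^ 2 * k0 D q * (I q : ℝ) / A C D ^ 2 := by
    unfold α β θ lam B
    have hA' : A C D ≠ 0 := hA.ne'
    field_simp
    ring
  have hk1' : k1 q ^ 2 = 576 * (q : ℝ) ^ 4 := by
    unfold k1
    push_cast
    ring
  have h2q : (1 : ℝ) ≤ 2 ^ q := one_le_pow₀ (by norm_num)
  have hk0' : k0 D q ≤ 6 * ((1 + D) ^ 2 * (2 ^ q) ^ 2) := by
    unfold k0 kap
    push_cast
    have : (2 : ℝ) ^ q + D ≤ (1 + D) * 2 ^ q := by nlinarith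
    have h0 : (0 : ℝ) ≤ (2 : ℝ) ^ q + D := by positivity
    have : ((2 : ℝ) ^ q + D) ^ 2 ≤ ((1 + D) * 2 ^ q) ^ 2 := pow_le_pow_left₀ h0 this 2
    rw [mul_pow] at this
    linarith
  have hI' : (I q : ℝ) = 2 * 2 ^ q := by
    unfold I kap
    push_cast
    ring
  have hbound : α D q / β C D q ≤ W * ((q : ℝ) ^ 4 * (2 ^ q) ^ 3) := by
    rw [hfrac, hk1', hI']
    have hstep : 1159680 * D * (576 * (q : ℝ) ^ 4) * k0 D q * (2 * 2 ^ q)
        ≤ 1159680 * D * (576 * (q : ℝ) ^ 4) * (6 * ((1 + D) ^ 2 * (2 ^ q) ^ 2)) * (2 * 2 ^ q) := by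
      apply mul_le_mul_of_nonneg_right _ (by positivity)
      exact mul_le_mul_of_nonneg_left hk0' (by positivity)
    calc 1159680 * D * (576 * (q : ℝ) ^ 4) * k0 D q * (2 * 2 ^ q) / A C D ^ 2
        ≤ 1159680 * D * (576 * (q : ℝ) ^ 4) * (6 * ((1 + D) ^ 2 * (2 ^ q) ^ 2)) * (2 * 2 ^ q)
            / A C D ^ 2 := div_le_div_of_nonneg_right hstep (by positivity)
      _ = W * ((q : ℝ) ^ 4 * (2 ^ q) ^ 3) := by
          rw [hW]
          ring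
  have hmul : W * ((q : ℝ) ^ 4 * (2 ^ q) ^ 3) ≤ (2 ^ q) ^ 4 / 2 := by
    have h3 : W * (q : ℝ) ^ 4 ≤ 2 ^ q / 2 := by
      have := mul_le_mul_of_nonneg_left hq.le hWpos.le
      have h5 : W * (1 / (2 * W) * 2 ^ q) = (2 : ℝ) ^ q / 2 := by
        field_simp
      linarith
    calc W * ((q : ℝ) ^ 4 * (2 ^ q) ^ 3) = (W * (q : ℝ) ^ 4) * (2 ^ q) ^ 3 := by ring
      _ ≤ (2 ^ q / 2) * (2 ^ q) ^ 3 := mul_le_mul_of_nonneg_right h3 (by positivity)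
      _ = (2 ^ q) ^ 4 / 2 := by ring
  have hfin : (4 : ℝ) ^ (2 * q) = (2 ^ q) ^ 4 := by
    rw [← pow_mul, show (4 : ℝ) = 2 ^ 2 by norm_num, ← pow_mul]
    congr 1
    ring
  rw [hfin]
  have h2' : (2 : ℝ) ≤ 2 ^ q := by
    calc (2 : ℝ) = 2 ^ 1 := by norm_num
      _ ≤ 2 ^ q := pow_le_pow_right₀ (by norm_num) h1
  have h16 : (2 : ℝ) ≤ (2 ^ q) ^ 4 := by
    calc (2 : ℝ) ≤ 2 ^ q := h2'
      _ = (2 ^ q) ^ 1 := by ring
      _ ≤ (2 ^ q) ^ 4 := pow_le_pow_right₀ h2q (by norm_num)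
  linarith

end P

end D546neg
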