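/-
MP_d546a0_lc, negation S15426: numeric lemmas `ev_delta`, `ev_radius` (helper17, job 72).
-/
import Pool.Agent.H.MP_d546a0_lc.neg.Params

set_option autoImplicit false

namespace D546neg

namespace P

open Real Filter

namespace Num2

lemma kap_ge (q : ℕ) : q + 1 ≤ kap q := by
  unfold kap
  exact Nat.lt_two_pow_self

lemma kap_tendsto : Tendsto kap atTop atTop :=
  tendsto_atTop_mono (fun q => (Nat.le_succ q).trans (kap_ge q)) tendsto_id

lemma kap_le_k (q : ℕ) : (kap q : ℝ) ≤ k q := by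
  unfold k
  exact_mod_cast Nat.lt_two_pow_self.le

lemma ev_poly (W : ℝ) (m : ℕ) (r : ℝ) (hr : 1 < r) (ε : ℝ) (hε : 0 < ε) :
    ∀ᶠ n : ℕ in atTop, W * (n : ℝ) ^ m < ε * r ^ n := by
  have h := tendsto_pow_const_div_const_pow_of_one_lt m hr
  have h2 : Tendsto (fun n : ℕ => W * ((n : ℝ) ^ m / r ^ n)) atTop (nhds (W * 0)) :=
    h.const_mul W
  rw [mul_zero] at h2
  have h3 := h2.eventually (gt_mem_nhds hε)
  filter_upwards [h3] with n hn
  have hpos : 0 < r ^ n := by positivity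
  have := (mul_lt_mul_of_pos_right hn hpos)
  calc W * (n : ℝ) ^ m = W * ((n : ℝ) ^ m / r ^ n) * r ^ n := by
        field_simp
    _ < ε * r ^ n := this

/-- eventually `4 + 2 q + 1 ≤ kap q`. -/
lemma ev_kap : ∀ᶠ q : ℕ in atTop, 5 + 2 * q ≤ kap q := by
  filter_upwards [eventually_ge_atTop 4] with q hq
  unfold kap
  induction q, hq using Nat.le_induction with
  | base => norm_num
  | succ n hn ih =>
    rw [pow_succ]; omega

lemma H_sub (q i : ℕ) (hi : i < J q) : 2 ^ (kap q - 4) ≤ H q - t q i := by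
  have hJ : 4 + 2 * q ≤ kap q := by
    unfold J at hi; omega
  have h1 : t q i ≤ t q (J q - 1) := by
    unfold t
    exact Finset.sum_le_sum_of_subset (Finset.range_mono (by omega))
  have h2 : H q = t q (J q - 1) + (s q (J q - 1) + b q (J q - 1)) := by
    unfold H
    conv_lhs => rw [show J q = (J q - 1) + 1 by omega]
    unfold t
    rw [Finset.sum_range_succ]
  have h3 : s q (J q - 1) = 2 ^ (kap q - 4) := by
    unfold s
    congr 1
    unfold J at hi ⊢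
    omega
  omega

lemma zeta_pos (C : ℝ) (D : ℕ) (hC : 1 ≤ C) (hD : 1 ≤ D) : 0 < zeta C D := by
  unfold zeta
  have : (1 : ℝ) ≤ D := by exact_mod_cast hD
  positivity

lemma zeta_le (C : ℝ) (D : ℕ) (hC : 1 ≤ C) (hD : 1 ≤ D) : zeta C D ≤ 1 := by
  unfold zeta
  have h : (1 : ℝ) ≤ D := by exact_mod_cast hD
  rw [div_le_one (by positivity)]
  nlinarith [mul_le_mul h hC (by norm_num) (by linarith)]

lemma A_pos (C : ℝ) (D : ℕ) (hC : 1 ≤ C) (hD : 1 ≤ D) : 0 < A C D := by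
  unfold A
  have := zeta_pos C D hC hD
  positivity

lemma A_le_one (C : ℝ) (D : ℕ) (hC : 1 ≤ C) (hD : 1 ≤ D) : A C D ≤ 1 := by
  unfold A
  have := zeta_le C D hC hD
  linarith [zeta_pos C D hC hD]

lemma k1_eq (q : ℕ) : k1 q = 24 * (q : ℝ) ^ 2 := by
  unfold k1; push_cast; ring

lemma k1_ge (q : ℕ) (hq : 1 ≤ q) : 1 ≤ k1 q := by
  rw [k1_eq]
  have : (1 : ℝ) ≤ q := by exact_mod_cast hq
  nlinarith

lemma k_ge_one (q : ℕ) : (1 : ℝ) ≤ k q := by
  unfold k
  exact_mod_cast Nat.one_le_two_pow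

lemma sqrt_k_le (q : ℕ) : √(k q : ℝ) ≤ k q := by
  rw [Real.sqrt_le_left (by linarith [k_ge_one q])]
  have := k_ge_one q
  nlinarith

lemma kap_ge_one (q : ℕ) : (1 : ℝ) ≤ kap q := by
  unfold kap
  exact_mod_cast Nat.one_le_two_pow

lemma k0_ge_one (D q : ℕ) : 1 ≤ k0 D q := by
  unfold k0
  push_cast
  have h1 := kap_ge_one q
  have h2 : (0 : ℝ) ≤ D := Nat.cast_nonneg D
  nlinarith

lemma theta_nonneg (C : ℝ) (D q : ℕ) (hC : 1 ≤ C) (hD : 1 ≤ D) (hq : 1 ≤ q) : 0 ≤ θ C D q := by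
  unfold θ
  have := A_pos C D hC hD
  have := k1_ge q hq
  positivity

lemma theta_le (C : ℝ) (D q : ℕ) (hC : 1 ≤ C) (hD : 1 ≤ D) (hq : 1 ≤ q) : θ C D q ≤ 1 := by
  unfold θ
  have h1 := A_pos C D hC hD
  have h2 := k1_ge q hq
  have h3 := A_le_one C D hC hD
  rw [div_le_one (by positivity)]
  linarith

lemma lam_nonneg (C : ℝ) (D q : ℕ) (hC : 1 ≤ C) (hD : 1 ≤ D) : 0 ≤ lam C D q := by
  unfold lam
  have h1 := A_pos C D hC hD
  have h2 := k0_ge_one D q
  positivity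

lemma lam_le (C : ℝ) (D q : ℕ) (hC : 1 ≤ C) (hD : 1 ≤ D) : lam C D q ≤ k q := by
  unfold lam
  have h1 := A_pos C D hC hD
  have h2 := k0_ge_one D q
  have h3 := A_le_one C D hC hD
  have hI : (1 : ℝ) ≤ (I q : ℝ) := by
    unfold I; push_cast; linarith [kap_ge_one q]
  have hk := sqrt_k_le q
  have hk0 : 0 ≤ √(k q : ℝ) := Real.sqrt_nonneg _
  have hden : 1 ≤ 453 * k0 D q * (I q : ℝ) := by
    nlinarith [mul_le_mul h2 hI (by norm_num) (by linarith)]
  calc A C D * √(k q : ℝ) / (453 * k0 D q * (I q : ℝ)) ≤ A C D * √(k q : ℝ) / 1 := by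
        apply div_le_div_of_nonneg_left (by positivity) (by norm_num) hden
    _ = A C D * √(k q : ℝ) := by ring
    _ ≤ 1 * √(k q : ℝ) := mul_le_mul_of_nonneg_right h3 hk0
    _ ≤ k q := by linarith

lemma beta_le (C : ℝ) (D q : ℕ) (hC : 1 ≤ C) (hD : 1 ≤ D) (hq : 1 ≤ q) :
    β C D q ≤ k q := by
  unfold β
  have h1 := k1_ge q hq
  have hB : 2 ≤ B q := by unfold B; linarith
  have ht0 := theta_nonneg C D q hC hD hq
  have ht1 := theta_le C D q hC hD hq
  have hl0 := lam_nonneg C D q hC hD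
  have hl1 := lam_le C D q hC hD
  rw [div_le_iff₀ (by linarith)]
  have hk := k_ge_one q
  calc 2 * θ C D q * lam C D q ≤ 2 * 1 * k q := by
        apply mul_le_mul _ hl1 hl0 (by norm_num)
        linarith
    _ = (k q : ℝ) * 2 := by ring
    _ ≤ k q * B q := by
        apply mul_le_mul_of_nonneg_left hB (by linarith)

lemma beta_nonneg (C : ℝ) (D q : ℕ) (hC : 1 ≤ C) (hD : 1 ≤ D) (hq : 1 ≤ q) :
    0 ≤ β C D q := by
  unfold β
  have h1 := k1_ge q hq
  have hB : 2 ≤ B q := by unfold B; linarith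
  have ht0 := theta_nonneg C D q hC hD hq
  have hl0 := lam_nonneg C D q hC hD
  positivity

lemma R0_le (D q : ℕ) : R0 D q ≤ 12 * (1 + D) ^ 2 * (D : ℝ) * (k q : ℝ) ^ 3 := by
  unfold R0 k0 M
  have h3 : √3 ≤ 2 := by
    rw [Real.sqrt_le_left (by norm_num)]; norm_num
  have h30 : 0 ≤ √3 := Real.sqrt_nonneg _
  have hD : (0 : ℝ) ≤ D := Nat.cast_nonneg D
  have hk := k_ge_one q
  have hkk := kap_le_k q
  have hk1 := kap_ge_one q
  push_cast
  have hs : (kap q : ℝ) + D ≤ (1 + D) * k q := by nlinarith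
  have hs2 : ((kap q : ℝ) + D) ^ 2 ≤ ((1 + D) * k q) ^ 2 := by
    apply pow_le_pow_left₀ (by positivity) hs
  calc √3 * (6 * ((kap q : ℝ) + D) ^ 2) * (D * (k q : ℝ))
      ≤ 2 * (6 * ((1 + D) * (k q : ℝ)) ^ 2) * (D * (k q : ℝ)) := by
        apply mul_le_mul_of_nonneg_right _ (by positivity)
        apply mul_le_mul h3 _ (by positivity) (by norm_num)
        linarith
    _ = 12 * (1 + D) ^ 2 * (D : ℝ) * (k q : ℝ) ^ 3 := by ring

lemma R0_nonneg (D q : ℕ) : 0 ≤ R0 D q := by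
  unfold R0 k0 M
  positivity

end Num2

open Num2

theorem ev_delta (C : ℝ) (D : ℕ) (hC : 1 ≤ C) (hD : 1 ≤ D) :
    ∀ᶠ q : ℕ in atTop, ∀ i < J q,
      4 * R0 D q / √(2 * ((2 ^ (H q - t q i) : ℕ) : ℝ)) * ((α D q + β C D q) * k1 q)
        ≤ A C D ^ 2 / (128 * k1 q) := by
  have hA := A_pos C D hC hD
  have hDr : (1 : ℝ) ≤ D := by exact_mod_cast hD
  -- constant
  set W : ℝ := 4 * (12 * (1 + D) ^ 2 * (D : ℝ)) * (21 * D) * (24 * 24 * 128) * 32 ^ 8 with hW
  have h1 := ev_poly W 8 2 (by norm_num) (A C D ^ 2) (by positivity)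
  have ht : Tendsto (fun q : ℕ => 2 ^ (kap q - 5)) atTop atTop := by
    have ha : Tendsto (fun n : ℕ => 2 ^ (n - 5)) atTop atTop := by
      have hb : Tendsto (fun n : ℕ => n - 5) atTop atTop := tendsto_sub_atTop_nat 5
      exact (tendsto_pow_atTop_atTop_of_one_lt (by norm_num : 1 < 2)).comp hb
    exact ha.comp kap_tendsto
  have h2 := ht.eventually h1
  filter_upwards [h2, ev_kap, eventually_ge_atTop 1] with q hq hkap hq1 i hi
  have hk32 : (k q : ℝ) = 32 * ((2 ^ (kap q - 5) : ℕ) : ℝ) := by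
    unfold k
    have : 2 ^ kap q = 32 * 2 ^ (kap q - 5) := by
      conv_lhs => rw [show kap q = 5 + (kap q - 5) by omega]
      rw [pow_add]; norm_num
    exact_mod_cast this
  set n : ℕ := 2 ^ (kap q - 5) with hn
  have hH := H_sub q i hi
  have hn2 : 2 ^ (kap q - 4) = n + n := by
    rw [hn, show kap q - 4 = (kap q - 5) + 1 by omega, pow_succ]; ring
  have hroot : (2 : ℝ) ^ n ≤ √(2 * ((2 ^ (H q - t q i) : ℕ) : ℝ)) := by
    apply Real.le_sqrt_of_sq_le
    push_cast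
    rw [← pow_mul, ]
    calc (2 : ℝ) ^ (n * 2) ≤ 2 ^ (H q - t q i) := by
          apply pow_le_pow_right₀ (by norm_num)
          omega
      _ ≤ 2 * 2 ^ (H q - t q i) := by
          have : (0 : ℝ) ≤ 2 ^ (H q - t q i) := by positivity
          linarith
  have hrpos : 0 < √(2 * ((2 ^ (H q - t q i) : ℕ) : ℝ)) := lt_of_lt_of_le (by positivity) hroot
  have hk1pos : 0 < k1 q := by linarith [k1_ge q hq1]
  rw [le_div_iff₀ (by positivity), div_mul_eq_mul_div, div_mul_eq_mul_div, div_le_iff₀ hrpos]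
  have hk := k_ge_one q
  have hR := R0_le D q
  have hR0 := R0_nonneg D q
  have hα : α D q ≤ 20 * D * k q := by
    unfold α
    apply mul_le_mul_of_nonneg_left (sqrt_k_le q) (by positivity)
  have hα0 : 0 ≤ α D q := by unfold α; positivity
  have hβ := beta_le C D q hC hD hq1
  have hβ0 := beta_nonneg C D q hC hD hq1
  have hαβ : α D q + β C D q ≤ 21 * D * k q := by nlinarith
  have hk1le : k1 q ≤ 24 * (kap q : ℝ) ^ 2 := by
    rw [k1_eq]
    have : (q : ℝ) ≤ kap q := by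
      have := kap_ge q
      exact_mod_cast (by omega : q ≤ kap q)
    have h0 : (0 : ℝ) ≤ q := Nat.cast_nonneg q
    have := pow_le_pow_left₀ h0 this 2
    linarith
  have hkapk : (kap q : ℝ) ^ 4 ≤ (k q : ℝ) ^ 4 := by
    apply pow_le_pow_left₀ (by positivity) (kap_le_k q)
  have hk1sq : k1 q * (128 * k1 q) ≤ 24 * 24 * 128 * (k q : ℝ) ^ 4 := by
    calc k1 q * (128 * k1 q) = 128 * (k1 q) ^ 2 := by ring
      _ ≤ 128 * (24 * (kap q : ℝ) ^ 2) ^ 2 := by
          apply mul_le_mul_of_nonneg_left _ (by norm_num)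
          exact pow_le_pow_left₀ hk1pos.le hk1le 2
      _ = 24 * 24 * 128 * (kap q : ℝ) ^ 4 := by ring
      _ ≤ _ := mul_le_mul_of_nonneg_left hkapk (by norm_num)
  calc 4 * R0 D q * ((α D q + β C D q) * k1 q) * (128 * k1 q)
      = (4 * R0 D q) * (α D q + β C D q) * (k1 q * (128 * k1 q)) := by ring
    _ ≤ (4 * (12 * (1 + D) ^ 2 * (D : ℝ) * (k q : ℝ) ^ 3)) * (21 * D * k q) *
        (24 * 24 * 128 * (k q : ℝ) ^ 4) := by
        apply mul_le_mul _ hk1sq (by positivity) (by positivity)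
        apply mul_le_mul _ hαβ (by positivity) (by positivity)
        linarith
    _ = W * (n : ℝ) ^ 8 := by
        rw [hW, hk32]; ring
    _ ≤ A C D ^ 2 * 2 ^ n := hq.le
    _ ≤ A C D ^ 2 * √(2 * ((2 ^ (H q - t q i) : ℕ) : ℝ)) :=
        mul_le_mul_of_nonneg_left hroot (by positivity)

theorem ev_radius (C : ℝ) (D : ℕ) (hC : 1 ≤ C) (hD : 1 ≤ D) :
    ∀ᶠ q : ℕ in atTop, √3 * k1 q * α D q * (2 * R0 D q) < 4 ^ I q * r0 C D q := by
  have hz := zeta_pos C D hC hD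
  have hDr : (1 : ℝ) ≤ D := by exact_mod_cast hD
  set W : ℝ := 3 * 24 * 20 * 2 * 6 * (D : ℝ) ^ 2 * (1 + D) ^ 2 with hW
  have h1 := ev_poly W 4 4 (by norm_num) (zeta C D) hz
  have h2 := kap_tendsto.eventually h1
  filter_upwards [h2] with q hq
  have hk := k_ge_one q
  have hkpos : (0 : ℝ) < k q := by linarith
  have hs : 0 < √(k q : ℝ) := Real.sqrt_pos.mpr hkpos
  have hss : √(k q : ℝ) * √(k q : ℝ) = k q := Real.mul_self_sqrt hkpos.le
  have h33 : √3 * √3 = 3 := Real.mul_self_sqrt (by norm_num)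
  have h4I : (4 : ℝ) ^ I q = (k q : ℝ) ^ 4 := by
    unfold I k
    push_cast
    rw [← pow_mul, show (4 : ℝ) = 2 ^ 2 by norm_num, ← pow_mul]
    congr 1; ring
  have h4k : (4 : ℝ) ^ kap q = (k q : ℝ) ^ 2 := by
    unfold k
    push_cast
    rw [← pow_mul, show (4 : ℝ) = 2 ^ 2 by norm_num, ← pow_mul]
    congr 1; ring
  rw [h4I]
  unfold r0
  rw [mul_div_assoc', lt_div_iff₀ hs]
  have hqk : (q : ℝ) ≤ kap q := by
    have := kap_ge q
    exact_mod_cast (by omega : q ≤ kap q)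
  have hq0 : (0 : ℝ) ≤ q := Nat.cast_nonneg q
  have hkD : ((kap q : ℝ) + D) ≤ (1 + D) * kap q := by
    have := kap_ge_one q
    nlinarith
  have hkD2 : ((kap q : ℝ) + D) ^ 2 ≤ ((1 + D) * kap q) ^ 2 := by
    apply pow_le_pow_left₀ (by positivity) hkD
  have hq2 : (q : ℝ) ^ 2 ≤ (kap q : ℝ) ^ 2 := pow_le_pow_left₀ hq0 hqk 2
  calc √3 * k1 q * α D q * (2 * R0 D q) * √(k q : ℝ)
      = (√3 * √3) * (√(k q : ℝ) * √(k q : ℝ)) * (24 * (q : ℝ) ^ 2) * (20 * D) * 2 *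
          (6 * ((kap q : ℝ) + D) ^ 2) * (D * (k q : ℝ)) := by
        rw [k1_eq]
        unfold α R0 k0 M
        push_cast
        ring
    _ = (3 * 24 * 20 * 2 * 6 * (D : ℝ) ^ 2) * ((q : ℝ) ^ 2 * ((kap q : ℝ) + D) ^ 2)
          * (k q : ℝ) ^ 2 := by
        rw [h33, hss]; ring
    _ ≤ (3 * 24 * 20 * 2 * 6 * (D : ℝ) ^ 2) * ((kap q : ℝ) ^ 2 * ((1 + D) * kap q) ^ 2)
          * (k q : ℝ) ^ 2 := by
        apply mul_le_mul_of_nonneg_right _ (by positivity)
        apply mul_le_mul_of_nonneg_left _ (by positivity)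
        apply mul_le_mul hq2 hkD2 (by positivity) (by positivity)
    _ = (W * (kap q : ℝ) ^ 4) * (k q : ℝ) ^ 2 := by rw [hW]; ring
    _ < (zeta C D * 4 ^ kap q) * (k q : ℝ) ^ 2 := by
        apply mul_lt_mul_of_pos_right hq (by positivity)
    _ = (k q : ℝ) ^ 4 * zeta C D := by rw [h4k]; ring

end P

end D546neg
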