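/-
MP_d546a0_lc, negation S15426: numeric lemma ev_num (helper61).
-/
import Pool.Agent.H.MP_d546a0_lc.neg.Params

set_option autoImplicit false

namespace D546neg

namespace P

open Real Filter

theorem ev_num (C : ℝ) (D : ℕ) (hC : 1 ≤ C) (hD : 1 ≤ D) :
    ∀ᶠ q : ℕ in atTop, ∀ i < J q,
      (2 * exp (8 * (4 * C * M D q * r0 C D q) ^ 2)) * (2 * exp (8 * (M D q / (2 * α D q)) ^ 2))
        * (2 ^ (2 ^ b q i) * ((2 ^ s q i : ℕ) : ℝ) ^ (2 ^ b q i / 2))
        ≤ exp (-E0 q) * ((2 ^ s q i : ℕ) : ℝ) ^ (2 ^ b q i) := by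
  filter_upwards [eventually_ge_atTop 4] with q hq i hi
  have hDR : (1 : ℝ) ≤ D := by exact_mod_cast hD
  have hkap : kap q = 2 ^ q := rfl
  -- size facts
  have h16 : 16 ≤ kap q := by
    rw [hkap]
    calc 16 = 2 ^ 4 := by norm_num
      _ ≤ 2 ^ q := Nat.pow_le_pow_right (by norm_num) hq
  have hJ : J q = kap q - 4 - 2 * q := rfl
  have hi' : i + 5 + 2 * q ≤ kap q := by omega
  have hb : b q i = kap q - 5 - i - 2 * q := rfl
  have hs : s q i = 2 ^ (i + 1 + 2 * q) := rfl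
  have hsb : s q i * 2 ^ b q i = 2 ^ (kap q - 4) := by
    rw [hs, hb, ← pow_add]; congr 1; omega
  have hu2 : 2 ^ (kap q - 4) = 2 * 2 ^ (kap q - 5) := by
    rw [← pow_succ']; congr 1; omega
  set u : ℕ := 2 ^ (kap q - 5) with hu
  set n : ℕ := 2 ^ b q i with hn
  have hshalf : s q i * (n / 2) ≤ u := by
    have h1 : 2 * (n / 2) ≤ n := by omega
    have h2 : s q i * (2 * (n / 2)) ≤ s q i * n := Nat.mul_le_mul_left _ h1
    rw [hsb, hu2] at h2
    have h3 : 2 * (s q i * (n / 2)) = s q i * (2 * (n / 2)) := by ring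
    omega
  have hnu : 256 * n ≤ u := by
    rw [hn, hu, hb]
    calc 256 * 2 ^ (kap q - 5 - i - 2 * q) = 2 ^ 8 * 2 ^ (kap q - 5 - i - 2 * q) := by norm_num
      _ = 2 ^ (8 + (kap q - 5 - i - 2 * q)) := by rw [← pow_add]
      _ ≤ 2 ^ (kap q - 5) := Nat.pow_le_pow_right (by norm_num) (by omega)
  have hu_big : 2048 ≤ u := by
    rw [hu]
    calc 2048 = 2 ^ 11 := by norm_num
      _ ≤ 2 ^ (kap q - 5) := Nat.pow_le_pow_right (by norm_num) (by omega)
  have hku : k q = 32 * u := by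
    show 2 ^ kap q = 32 * 2 ^ (kap q - 5)
    calc 2 ^ kap q = 2 ^ (5 + (kap q - 5)) := by congr 1; omega
      _ = 2 ^ 5 * 2 ^ (kap q - 5) := by rw [pow_add]
      _ = 32 * 2 ^ (kap q - 5) := by norm_num
  have hkR : (k q : ℝ) = 32 * u := by rw [hku]; push_cast; ring
  have hkpos : (0 : ℝ) < k q := by
    rw [hkR]
    have : (0 : ℝ) < u := by
      have : 0 < u := by omega
      exact_mod_cast this
    positivity
  have hsqrt : √(k q : ℝ) ^ 2 = k q := Real.sq_sqrt hkpos.le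
  have hsqpos : 0 < √(k q : ℝ) := Real.sqrt_pos.2 hkpos
  have e1 : 8 * (4 * C * M D q * r0 C D q) ^ 2 = (k q : ℝ) / 200 := by
    have h1 : 4 * C * M D q * r0 C D q = (k q : ℝ) / (40 * √(k q : ℝ)) := by
      unfold M r0 zeta
      have : C ≠ 0 := by linarith
      have : (D : ℝ) ≠ 0 := by linarith
      field_simp
      ring
    rw [h1, div_pow, mul_pow, hsqrt]
    field_simp
    ring
  have e2 : 8 * (M D q / (2 * α D q)) ^ 2 = (k q : ℝ) / 200 := by
    have h1 : M D q / (2 * α D q) = (k q : ℝ) / (40 * √(k q : ℝ)) := by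
      unfold M α
      have : (D : ℝ) ≠ 0 := by linarith
      field_simp
      ring
    rw [h1, div_pow, mul_pow, hsqrt]
    field_simp
    ring
  rw [e1, e2]
  have hE : E0 q = (k q : ℝ) / 100 := rfl
  rw [hE]
  push_cast
  rw [← pow_mul, ← pow_mul, hsb, hu2]
  -- main inequality
  have hL : (0.6931471803 : ℝ) < Real.log 2 := Real.log_two_gt_d9
  have hpow : ∀ m : ℕ, (2 : ℝ) ^ m = exp (m * Real.log 2) := by
    intro m
    rw [mul_comm, Real.exp_mul, Real.exp_log (by norm_num), Real.rpow_natCast]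
  have hA : (2 : ℝ) ^ (s q i * (n / 2)) ≤ 2 ^ u := pow_le_pow_right₀ (by norm_num) hshalf
  have hLHS : 2 * exp ((k q : ℝ) / 200) * (2 * exp ((k q : ℝ) / 200)) *
      (2 ^ n * 2 ^ (s q i * (n / 2))) ≤
      exp ((k q : ℝ) / 100) * 2 ^ (n + 2) * 2 ^ u := by
    have h1 : exp ((k q : ℝ) / 200) * exp ((k q : ℝ) / 200) = exp ((k q : ℝ) / 100) := by
      rw [← Real.exp_add]; congr 1; ring
    calc 2 * exp ((k q : ℝ) / 200) * (2 * exp ((k q : ℝ) / 200)) *
        (2 ^ n * 2 ^ (s q i * (n / 2)))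
        = (exp ((k q : ℝ) / 200) * exp ((k q : ℝ) / 200)) * 2 ^ (n + 2)
          * 2 ^ (s q i * (n / 2)) := by ring
      _ = exp ((k q : ℝ) / 100) * 2 ^ (n + 2) * 2 ^ (s q i * (n / 2)) := by rw [h1]
      _ ≤ exp ((k q : ℝ) / 100) * 2 ^ (n + 2) * 2 ^ u := by gcongr
  refine hLHS.trans ?_
  rw [hpow (n + 2), hpow u, hpow (2 * u), ← Real.exp_add, ← Real.exp_add, ← Real.exp_add]
  apply Real.exp_le_exp.2
  rw [hkR]
  have huR : (2048 : ℝ) ≤ u := by exact_mod_cast hu_big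
  have hnR : (256 : ℝ) * n ≤ u := by exact_mod_cast hnu
  push_cast
  have hn2 : (n : ℝ) + 2 ≤ u / 20 := by linarith
  have hl1 : ((n : ℝ) + 2) * Real.log 2 ≤ (u / 20) * Real.log 2 :=
    mul_le_mul_of_nonneg_right hn2 (by linarith)
  have hl2 : (u : ℝ) * 0.6931471803 ≤ u * Real.log 2 :=
    mul_le_mul_of_nonneg_left hL.le (by linarith)
  nlinarith

end P

end D546neg
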