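/-
MP_d546a0_lc, negation S15426: numeric facts about the parameters (helper78, job 74).
-/
import Pool.Agent.H.MP_d546a0_lc.neg.Params

set_option autoImplicit false

namespace D546neg

namespace P

open Real Filter

theorem num4_pow_ge_sq (n : ℕ) (hn : 30 ≤ n) : 40000 * n ^ 2 ≤ 2 ^ n := by
  induction n, hn using Nat.le_induction with
  | base => norm_num
  | succ m hm ih =>
    calc 40000 * (m + 1) ^ 2 ≤ 2 * (40000 * m ^ 2) := by nlinarith
      _ ≤ 2 * 2 ^ m := by omega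
      _ = 2 ^ (m + 1) := by ring

theorem num4_kap_ge (q : ℕ) (hq : 5 ≤ q) : 32 ≤ kap q := by
  unfold kap
  calc 32 = 2 ^ 5 := by norm_num
    _ ≤ 2 ^ q := Nat.pow_le_pow_right (by norm_num) hq

theorem num4_kap_ge_lin (q : ℕ) (hq : 5 ≤ q) : 2 * q + 6 ≤ kap q := by
  unfold kap
  induction q, hq using Nat.le_induction with
  | base => norm_num
  | succ m hm ih =>
    calc 2 * (m + 1) + 6 ≤ 2 * (2 * m + 6) := by omega
      _ ≤ 2 * 2 ^ m := by omega
      _ = 2 ^ (m + 1) := by ring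

theorem num4_zeta_pos (C : ℝ) (D : ℕ) (hC : 1 ≤ C) (hD : 1 ≤ D) : 0 < zeta C D := by
  have hD' : (1 : ℝ) ≤ (D : ℝ) := by exact_mod_cast hD
  unfold zeta
  positivity

theorem num4_zeta_le (C : ℝ) (D : ℕ) (hC : 1 ≤ C) (hD : 1 ≤ D) : zeta C D ≤ 1 := by
  have hD' : (1 : ℝ) ≤ (D : ℝ) := by exact_mod_cast hD
  unfold zeta
  rw [div_le_one (by positivity)]
  nlinarith

theorem num4_A_pos (C : ℝ) (D : ℕ) (hC : 1 ≤ C) (hD : 1 ≤ D) : 0 < A C D := by
  unfold A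
  have := num4_zeta_pos C D hC hD
  positivity

theorem M_le (D q : ℕ) : M D q ≤ 4 ^ (kap q + D) := by
  unfold M k
  have h1 : (D : ℝ) ≤ 4 ^ D := by
    have : D < 4 ^ D := Nat.lt_pow_self (by norm_num)
    exact_mod_cast this.le
  have h2 : (((2 ^ kap q : ℕ) : ℝ)) ≤ 4 ^ kap q := by
    have : (2 : ℕ) ^ kap q ≤ 4 ^ kap q := Nat.pow_le_pow_left (by norm_num) _
    exact_mod_cast this
  calc (D : ℝ) * ((2 ^ kap q : ℕ) : ℝ) ≤ 4 ^ D * 4 ^ kap q := by
        apply mul_le_mul h1 h2 (by positivity) (by positivity)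
    _ = 4 ^ (kap q + D) := by rw [← pow_add, add_comm]

theorem A_le (C : ℝ) (D q : ℕ) (hC : 1 ≤ C) (hD : 1 ≤ D) :
    A C D ≤ r0 C D q * √(E0 q) / 100 := by
  have hk : (0 : ℝ) < (k q : ℝ) := by
    unfold k; positivity
  have hs : 0 < √(k q : ℝ) := Real.sqrt_pos.mpr hk
  have h10 : √(E0 q) = √(k q : ℝ) / 10 := by
    unfold E0
    rw [Real.sqrt_div hk.le]
    congr 1
    rw [show (100 : ℝ) = 10 ^ 2 by norm_num]
    exact Real.sqrt_sq (by norm_num)
  rw [h10]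
  unfold A r0
  have : zeta C D / √(k q : ℝ) * (√(k q : ℝ) / 10) / 100 = zeta C D / 1000 := by
    field_simp
    ring
  rw [this]

theorem theta_lt_one (C : ℝ) (D q : ℕ) (hC : 1 ≤ C) (hD : 1 ≤ D) (hq : 1 ≤ q) :
    θ C D q < 1 := by
  have hz := num4_zeta_le C D hC hD
  have hq' : (1 : ℝ) ≤ (q : ℝ) := by exact_mod_cast hq
  unfold θ A k1
  have hk1 : (24 : ℝ) ≤ 6 * ((2 * q : ℕ) : ℝ) ^ 2 := by
    push_cast
    nlinarith
  rw [div_lt_one (by linarith)]
  linarith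

theorem ev_basic : ∀ᶠ q : ℕ in atTop,
    8 ≤ I q ∧ 2 ≤ E0 q ∧ 1 ≤ q ∧ k q ≤ 2 ^ (H q + 1) - 1 := by
  filter_upwards [eventually_ge_atTop 5] with q hq
  have hkap := num4_kap_ge q hq
  have hlin := num4_kap_ge_lin q hq
  refine ⟨?_, ?_, by omega, ?_⟩
  · unfold I; omega
  · unfold E0 k
    have : (2 : ℕ) ^ 32 ≤ 2 ^ kap q := Nat.pow_le_pow_right (by norm_num) hkap
    have h2 : ((2 ^ 32 : ℕ) : ℝ) ≤ ((2 ^ kap q : ℕ) : ℝ) := by exact_mod_cast this
    have h3 : ((2 ^ 32 : ℕ) : ℝ) = 4294967296 := by norm_num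
    rw [h3] at h2
    linarith
  · have hH : kap q ≤ H q := by
      unfold H t
      have hJ : 1 ≤ J q := by unfold J; omega
      have hmem : J q - 1 ∈ Finset.range (J q) := by
        rw [Finset.mem_range]; omega
      have h1 : s q (J q - 1) + b q (J q - 1) ≤
          ∑ i' ∈ Finset.range (J q), (s q i' + b q i') :=
        Finset.single_le_sum (f := fun i' => s q i' + b q i') (fun _ _ => Nat.zero_le _) hmem
      have h2 : s q (J q - 1) = 2 ^ (kap q - 4) := by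
        unfold s
        congr 1
        unfold J
        unfold J at hJ
        omega
      have h3 : kap q ≤ 2 ^ (kap q - 4) := by
        obtain ⟨m, hm⟩ : ∃ m, kap q = m + 32 := ⟨kap q - 32, by omega⟩
        rw [hm]
        have h4 : m < 2 ^ m := Nat.lt_pow_self (by norm_num)
        have h5 : m + 32 - 4 = m + 28 := by omega
        rw [h5, pow_add]
        have h6 : 1 ≤ 2 ^ m := Nat.one_le_two_pow
        omega
      omega
    unfold k
    have h4 : (2 : ℕ) ^ kap q ≤ 2 ^ H q := Nat.pow_le_pow_right (by norm_num) hH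
    have h5 : (2 : ℕ) ^ (H q + 1) = 2 * 2 ^ H q := by ring
    have h6 : 1 ≤ (2 : ℕ) ^ H q := Nat.one_le_two_pow
    omega

theorem ev_net (C : ℝ) (D : ℕ) (hC : 1 ≤ C) (hD : 1 ≤ D) :
    ∀ᶠ q : ℕ in atTop,
      2 * exp (8 * (k0 D q * lam C D q / (A C D / 4)) ^ 2)
        * (2 * exp (-(E0 q / (8 * (I q : ℝ) ^ 2)))) ≤ 1 / 8 := by
  filter_upwards [eventually_ge_atTop 5] with q hq
  have hkap := num4_kap_ge q hq
  have hA := num4_A_pos C D hC hD
  have hk : (0 : ℝ) < (k q : ℝ) := by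
    unfold k; positivity
  have hkap' : (32 : ℝ) ≤ (kap q : ℝ) := by exact_mod_cast hkap
  have hI : (0 : ℝ) < (I q : ℝ) := by
    unfold I; push_cast; linarith
  have hk0 : 0 < k0 D q := by
    unfold k0
    push_cast
    have : (0 : ℝ) < (kap q : ℝ) + (D : ℝ) := by positivity
    positivity
  have hsq : √(k q : ℝ) ^ 2 = (k q : ℝ) := Real.sq_sqrt hk.le
  have h1 : k0 D q * lam C D q / (A C D / 4) = 4 * √(k q : ℝ) / (453 * (I q : ℝ)) := by
    unfold lam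
    field_simp
  have h2 : 8 * (k0 D q * lam C D q / (A C D / 4)) ^ 2
      = 128 / 205209 * ((k q : ℝ) / (I q : ℝ) ^ 2) := by
    rw [h1, div_pow, mul_pow, hsq]
    field_simp
    norm_num
  have h3 : E0 q / (8 * (I q : ℝ) ^ 2) = 1 / 800 * ((k q : ℝ) / (I q : ℝ) ^ 2) := by
    unfold E0
    field_simp
    norm_num
  have h4 : (10000 : ℝ) ≤ (k q : ℝ) / (I q : ℝ) ^ 2 := by
    rw [le_div_iff₀ (by positivity)]
    have := num4_pow_ge_sq (kap q) (by omega)
    have h5 : (40000 : ℝ) * (kap q : ℝ) ^ 2 ≤ ((2 ^ kap q : ℕ) : ℝ) := by exact_mod_cast this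
    unfold k I
    push_cast at h5 ⊢
    nlinarith
  rw [h2, h3]
  have h5 : 2 * exp (128 / 205209 * ((k q : ℝ) / (I q : ℝ) ^ 2))
      * (2 * exp (-(1 / 800 * ((k q : ℝ) / (I q : ℝ) ^ 2))))
      = 4 * exp (-((1 / 800 - 128 / 205209) * ((k q : ℝ) / (I q : ℝ) ^ 2))) := by
    rw [show 2 * exp (128 / 205209 * ((k q : ℝ) / (I q : ℝ) ^ 2))
      * (2 * exp (-(1 / 800 * ((k q : ℝ) / (I q : ℝ) ^ 2))))
      = 4 * (exp (128 / 205209 * ((k q : ℝ) / (I q : ℝ) ^ 2))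
        * exp (-(1 / 800 * ((k q : ℝ) / (I q : ℝ) ^ 2)))) by ring, ← Real.exp_add]
    congr 2
    ring
  rw [h5]
  have h6 : (6 : ℝ) ≤ (1 / 800 - 128 / 205209) * ((k q : ℝ) / (I q : ℝ) ^ 2) := by
    have : (6 : ℝ) / 10000 ≤ 1 / 800 - 128 / 205209 := by norm_num
    nlinarith
  have h7 : exp (-((1 / 800 - 128 / 205209) * ((k q : ℝ) / (I q : ℝ) ^ 2))) ≤ exp (-6) :=
    Real.exp_le_exp.mpr (by linarith)
  have h8 : exp (-6 : ℝ) ≤ 1 / 32 := by
    rw [Real.exp_neg, ← one_div]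
    apply one_div_le_one_div_of_le (by norm_num)
    have h9 : (2 : ℝ) ≤ exp 1 := by
      have := Real.add_one_le_exp (1 : ℝ)
      linarith
    have h10 : exp (6 : ℝ) = exp 1 ^ 6 := by
      rw [← Real.exp_nat_mul]; norm_num
    rw [h10]
    calc (32 : ℝ) ≤ 2 ^ 6 := by norm_num
      _ ≤ exp 1 ^ 6 := by gcongr
  linarith

end P

end D546neg
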