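/-
MP_d546a0_lc, negation S15426: numeric lemma `ev_closure` (helper17, job 75).
-/
import Pool.Agent.H.MP_d546a0_lc.neg.Num2

set_option autoImplicit false

namespace D546neg

namespace P

open Real Filter

namespace Num5

lemma t_le (q i : ℕ) : t q i + 2 * 2 ^ (2 * q) ≤ 2 ^ (i + 1 + 2 * q) + i * kap q := by
  induction i with
  | zero =>
    unfold t
    simp only [Finset.range_zero, Finset.sum_empty, Nat.zero_mul]
    rw [show 0 + 1 + 2 * q = 2 * q + 1 by ring, pow_succ]
    omega
  | succ i ih =>
    have h1 : t q (i + 1) = t q i + (s q i + b q i) := by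
      unfold t; rw [Finset.sum_range_succ]
    have h2 : s q i = 2 ^ (i + 1 + 2 * q) := rfl
    have h3 : b q i ≤ kap q := by unfold b; omega
    rw [h1, show i + 1 + 1 + 2 * q = (i + 1 + 2 * q) + 1 by ring, pow_succ, add_mul, one_mul]
    omega

end Num5

open Num2 Num5

theorem ev_closure : ∀ᶠ q : ℕ in atTop, ∀ i < J q,
      H q + 1 + 2 * 2 ^ b q i + 2 * 2 ^ b q i * (s q i + t q i) ≤ k q := by
  filter_upwards [ev_kap, eventually_ge_atTop 1] with q hkap hq1 i hi
  have hJ : J q = kap q - 4 - 2 * q := rfl
  have hκ : kap q = 2 ^ q := rfl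
  set x : ℕ := 2 ^ (kap q - 5) with hx
  have hx1 : 1 ≤ x := Nat.one_le_two_pow
  have hk : k q = 32 * x := by
    unfold k
    conv_lhs => rw [show kap q = 5 + (kap q - 5) by omega]
    rw [pow_add]; norm_num [hx]
  have hbi : b q i + (i + 1 + 2 * q) = kap q - 4 := by
    unfold b; omega
  have hbs : 2 ^ b q i * s q i = 2 * x := by
    unfold s
    rw [← pow_add, hbi, hx, show kap q - 4 = (kap q - 5) + 1 by omega, pow_succ]; ring
  -- 2^b * i * kap
  have hik : 2 ^ b q i * (i * kap q) ≤ x := by
    calc 2 ^ b q i * (i * kap q) ≤ 2 ^ b q i * (2 ^ i * 2 ^ q) := by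
          apply Nat.mul_le_mul_left
          rw [hκ]
          apply Nat.mul_le_mul_right
          exact Nat.lt_two_pow_self.le
      _ = 2 ^ (b q i + (i + q)) := by rw [← pow_add, ← pow_add]
      _ ≤ x := by
          rw [hx]
          apply Nat.pow_le_pow_right (by norm_num)
          omega
  have hti := t_le q i
  have hbt : 2 ^ b q i * t q i ≤ 2 * x + x := by
    calc 2 ^ b q i * t q i ≤ 2 ^ b q i * (s q i + i * kap q) := by
          apply Nat.mul_le_mul_left
          unfold s
          omega
      _ = 2 ^ b q i * s q i + 2 ^ b q i * (i * kap q) := by ring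
      _ ≤ 2 * x + x := by omega
  have hH : H q ≤ 5 * x := by
    have h := t_le q (J q)
    have h1 : 2 ^ (J q + 1 + 2 * q) = 4 * x := by
      rw [show J q + 1 + 2 * q = 2 + (kap q - 5) by omega, pow_add, hx]; norm_num
    have h2 : J q * kap q ≤ x := by
      calc J q * kap q ≤ kap q * kap q := Nat.mul_le_mul_right _ (by omega)
        _ = 2 ^ (2 * q) := by rw [hκ, ← pow_add]; congr 1; ring
        _ ≤ x := by
          rw [hx]
          apply Nat.pow_le_pow_right (by norm_num)
          omega
    unfold H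
    omega
  have hb : 2 * 2 ^ b q i ≤ x := by
    rw [← pow_succ', hx]
    apply Nat.pow_le_pow_right (by norm_num)
    unfold b
    omega
  have hfin : 2 * 2 ^ b q i * (s q i + t q i) = 2 * (2 ^ b q i * s q i) + 2 * (2 ^ b q i * t q i) := by
    ring
  rw [hfin, hk]
  omega

end P

end D546neg
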